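import Mathlib

set_option autoImplicit false

open Set Metric Filter Topology

namespace Pool.Agent.MP_4998f1_an

/-- Continuity principle: a continuous family of holomorphic functions on a bounded open set,
zero-free on the frontier for every parameter and zero-free everywhere for one parameter,
is zero-free everywhere for all parameters of a compact connected parameter space. -/
theorem zero_free_family {T : Type} [TopologicalSpace T] [CompactSpace T] [PreconnectedSpace T]
    {U : Set ℂ} (hUb : Bornology.IsBounded U)
    (G : T → ℂ → ℂ) (hc : ContinuousOn (fun p : T × ℂ => G p.1 p.2) (univ ×ˢ closure U))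
    (hd : ∀ t, DifferentiableOn ℂ (G t) U)
    (hfr : ∀ t, ∀ s ∈ frontier U, G t s ≠ 0) (t0 : T) (h0 : ∀ s ∈ closure U, G t0 s ≠ 0) :
    ∀ t, ∀ s ∈ closure U, G t s ≠ 0 := by
  have hK : IsCompact (closure U) := hUb.isCompact_closure
  have hKf : IsCompact (frontier U) :=
    hK.of_isClosed_subset isClosed_frontier frontier_subset_closure
  have hc' : ContinuousOn (fun p : T × ℂ => ‖G p.1 p.2‖) (univ ×ˢ frontier U) :=
    (hc.mono (prod_mono subset_rfl frontier_subset_closure)).norm
  obtain ⟨m, hm0, hm⟩ := (isCompact_univ.prod hKf).exists_forall_le' hc' (a := 0)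
    (fun p hp => norm_pos_iff.2 (hfr p.1 p.2 hp.2))
  have hslice : ∀ t, ContinuousOn (G t) (closure U) := by
    intro t
    have h1 : ContinuousOn (fun s : ℂ => ((t, s) : T × ℂ)) (closure U) := by fun_prop
    exact hc.comp h1 (fun s hs => ⟨mem_univ _, hs⟩)
  have hslice2 : ∀ s ∈ closure U, Continuous (fun t => G t s) := by
    intro s hs
    have h1 : ContinuousOn (fun t : T => ((t, s) : T × ℂ)) univ := by fun_prop
    exact continuousOn_univ.1 (hc.comp h1 (fun t _ => ⟨mem_univ _, hs⟩))
  let E : Set T := {t | ∀ s ∈ closure U, G t s ≠ 0}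
  have hE : E = ⋂ s ∈ closure U, {t | m ≤ ‖G t s‖} := by
    ext t
    simp only [E, mem_ofPred_eq, mem_iInter]
    constructor
    · intro ht s hs
      have hdc : DiffContOnCl ℂ (fun s => (G t s)⁻¹) U :=
        ⟨(hd t).inv (fun s hs => ht s (subset_closure hs)), (hslice t).inv₀ ht⟩
      have := Complex.norm_le_of_forall_mem_frontier_norm_le hUb hdc (C := m⁻¹)
        (fun z hz => by
          rw [norm_inv]
          exact inv_anti₀ hm0 (hm (t, z) ⟨mem_univ _, hz⟩)) hs
      rw [norm_inv] at this
      exact (inv_le_inv₀ (norm_pos_iff.2 (ht s hs)) hm0).1 this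
    · intro ht s hs h
      have := ht s hs
      rw [h, norm_zero] at this
      linarith
  have hclosed : IsClosed E := by
    rw [hE]
    exact isClosed_biInter fun s hs => isClosed_le continuous_const (hslice2 s hs).norm
  have hopen : IsOpen E := by
    rw [isOpen_iff_mem_nhds]
    intro t ht
    have := hK.eventually_forall_of_forall_eventually (x₀ := t)
      (P := fun t s => s ∈ closure U → G t s ≠ 0) (fun y hy => by
        have h1 : ContinuousWithinAt (fun p : T × ℂ => G p.1 p.2) (univ ×ˢ closure U) (t, y) :=
          hc (t, y) ⟨mem_univ _, hy⟩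
        have h2 := h1.eventually_ne (ht y hy)
        rw [eventually_nhdsWithin_iff] at h2
        filter_upwards [h2] with z hz hz2 using hz ⟨mem_univ _, hz2⟩)
    filter_upwards [this] with x hx s hs using hx s hs hs
  have : E = univ := IsClopen.eq_univ ⟨hclosed, hopen⟩ ⟨t0, h0⟩
  intro t
  have ht : t ∈ E := this ▸ mem_univ t
  exact ht

end Pool.Agent.MP_4998f1_an
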