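import Mathlib
import Pool.Agent.MP_4998f1_an.Hurwitz

set_option autoImplicit false

open Set Metric Filter Topology

namespace Pool.Agent.MP_4998f1_an

/-- The open annulus `1/2 < |s| < 2`. -/
def Ann : Set ℂ := {s | 1 / 2 < ‖s‖ ∧ ‖s‖ < 2}

/-- The two boundary circles of the annulus. -/
def Bd (s : ℂ) : Prop := ‖s‖ = 1 / 2 ∨ ‖s‖ = 2

/-- The compact space carrying the uniform algebra:
`(boundary circles × circle × closed disc) ∪ (closed annulus × circle × {0})`. -/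
def M : Set (ℂ × ℂ × ℂ) :=
  {p | ‖p.2.1‖ = 1 ∧ ((Bd p.1 ∧ ‖p.2.2‖ ≤ 1) ∨ (1 / 2 ≤ ‖p.1‖ ∧ ‖p.1‖ ≤ 2 ∧ p.2.2 = 0))}

/-- Continuous on `M`, holomorphic in `s` on the slice `z = 0`, holomorphic in `z` over the
boundary circles. -/
structure Good (F : ℂ × ℂ × ℂ → ℂ) : Prop where
  cont : ContinuousOn F M
  hs : ∀ w : ℂ, ‖w‖ = 1 → DifferentiableOn ℂ (fun s => F (s, w, 0)) Ann
  hz : ∀ s w : ℂ, Bd s → ‖w‖ = 1 → DifferentiableOn ℂ (fun z => F (s, w, z)) (ball 0 1)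

lemma isOpen_Ann : IsOpen Ann :=
  (isOpen_lt continuous_const continuous_norm).inter (isOpen_lt continuous_norm continuous_const)

lemma isBounded_Ann : Bornology.IsBounded Ann :=
  (isBounded_ball (x := (0 : ℂ)) (r := 2)).subset (fun s hs => by simpa using hs.2)

lemma closure_Ann_subset : closure Ann ⊆ {s : ℂ | 1 / 2 ≤ ‖s‖ ∧ ‖s‖ ≤ 2} := by
  apply closure_minimal
  · intro s hs; exact ⟨hs.1.le, hs.2.le⟩
  · exact (isClosed_le continuous_const continuous_norm).inter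
      (isClosed_le continuous_norm continuous_const)

lemma frontier_Ann_subset {s : ℂ} (hs : s ∈ frontier Ann) : Bd s := by
  rw [isOpen_Ann.frontier_eq] at hs
  have h1 := closure_Ann_subset hs.1
  have h2 : ¬ (1 / 2 < ‖s‖ ∧ ‖s‖ < 2) := hs.2
  rcases h1 with ⟨h1, h1'⟩
  by_cases h : ‖s‖ = 2
  · exact Or.inr h
  · left
    by_contra h'
    exact h2 ⟨lt_of_le_of_ne h1 (Ne.symm h'), lt_of_le_of_ne h1' h⟩

lemma mem_Ann_or_Bd {s : ℂ} (h1 : 1 / 2 ≤ ‖s‖) (h2 : ‖s‖ ≤ 2) : s ∈ Ann ∨ Bd s := by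
  by_cases h : ‖s‖ = 2
  · exact Or.inr (Or.inr h)
  by_cases h' : ‖s‖ = 1 / 2
  · exact Or.inr (Or.inl h')
  exact Or.inl ⟨lt_of_le_of_ne h1 (Ne.symm h'), lt_of_le_of_ne h2 h⟩

lemma Bd.bounds {s : ℂ} (h : Bd s) : 1 / 2 ≤ ‖s‖ ∧ ‖s‖ ≤ 2 := by
  rcases h with h | h <;> rw [h] <;> norm_num

lemma memM_s {s w : ℂ} (hw : ‖w‖ = 1) (h1 : 1 / 2 ≤ ‖s‖) (h2 : ‖s‖ ≤ 2) : (s, w, (0 : ℂ)) ∈ M :=
  ⟨hw, Or.inr ⟨h1, h2, rfl⟩⟩

lemma memM_z {s w z : ℂ} (hw : ‖w‖ = 1) (h1 : Bd s) (h2 : ‖z‖ ≤ 1) : (s, w, z) ∈ M :=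
  ⟨hw, Or.inl ⟨h1, h2⟩⟩

lemma Good.diff_s {F : ℂ × ℂ × ℂ → ℂ} (hF : Good F) {w : ℂ} (hw : ‖w‖ = 1) :
    DiffContOnCl ℂ (fun s => F (s, w, 0)) Ann := by
  refine ⟨hF.hs w hw, ?_⟩
  have h1 : ContinuousOn (fun s : ℂ => ((s, w, 0) : ℂ × ℂ × ℂ)) (closure Ann) := by fun_prop
  exact hF.cont.comp h1 (fun s hs => memM_s hw (closure_Ann_subset hs).1 (closure_Ann_subset hs).2)

lemma Good.diff_z {F : ℂ × ℂ × ℂ → ℂ} (hF : Good F) {s w : ℂ} (hs : Bd s) (hw : ‖w‖ = 1) :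
    DiffContOnCl ℂ (fun z => F (s, w, z)) (ball 0 1) := by
  refine ⟨hF.hz s w hs hw, ?_⟩
  have h1 : ContinuousOn (fun z : ℂ => ((s, w, z) : ℂ × ℂ × ℂ)) (closure (ball 0 1)) := by
    fun_prop
  refine hF.cont.comp h1 (fun z hz => memM_z hw hs ?_)
  simpa using closure_ball_subset_closedBall hz

/-- Maximum principle on `M`. -/
lemma Good.norm_le {F : ℂ × ℂ × ℂ → ℂ} (hF : Good F) {C : ℝ}
    (hC : ∀ s w z : ℂ, Bd s → ‖w‖ = 1 → ‖z‖ = 1 → ‖F (s, w, z)‖ ≤ C) :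
    ∀ p ∈ M, ‖F p‖ ≤ C := by
  have h1 : ∀ s w z : ℂ, Bd s → ‖w‖ = 1 → ‖z‖ ≤ 1 → ‖F (s, w, z)‖ ≤ C := by
    intro s w z hs hw hz
    refine Complex.norm_le_of_forall_mem_frontier_norm_le isBounded_ball (hF.diff_z hs hw)
      (fun y hy => hC s w y hs hw ?_) (z := z) ?_
    · rw [frontier_ball _ one_ne_zero] at hy
      simpa using hy
    · rw [closure_ball _ one_ne_zero]
      simpa using hz
  rintro ⟨s, w, z⟩ ⟨hw, h | ⟨ha, hb, hz⟩⟩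
  · exact h1 s w z h.1 hw h.2
  · dsimp only at hw ha hb hz
    subst hz
    rcases mem_Ann_or_Bd ha hb with h | h
    · exact Complex.norm_le_of_forall_mem_frontier_norm_le isBounded_Ann (hF.diff_s hw)
        (fun y hy => h1 y w 0 (frontier_Ann_subset hy) hw (by simp)) (subset_closure h)
    · exact h1 s w 0 h hw (by simp)

lemma Good.const (c : ℂ) : Good (fun _ => c) :=
  ⟨continuousOn_const, fun _ _ => differentiableOn_const _, fun _ _ _ _ => differentiableOn_const _⟩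

lemma Good.add {F G : ℂ × ℂ × ℂ → ℂ} (hF : Good F) (hG : Good G) : Good (fun p => F p + G p) :=
  ⟨hF.cont.add hG.cont, fun w hw => (hF.hs w hw).add (hG.hs w hw),
    fun s w hs hw => (hF.hz s w hs hw).add (hG.hz s w hs hw)⟩

lemma Good.sub {F G : ℂ × ℂ × ℂ → ℂ} (hF : Good F) (hG : Good G) : Good (fun p => F p - G p) :=
  ⟨hF.cont.sub hG.cont, fun w hw => (hF.hs w hw).sub (hG.hs w hw),
    fun s w hs hw => (hF.hz s w hs hw).sub (hG.hz s w hs hw)⟩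

lemma Good.mul {F G : ℂ × ℂ × ℂ → ℂ} (hF : Good F) (hG : Good G) : Good (fun p => F p * G p) :=
  ⟨hF.cont.mul hG.cont, fun w hw => (hF.hs w hw).mul (hG.hs w hw),
    fun s w hs hw => (hF.hz s w hs hw).mul (hG.hz s w hs hw)⟩

lemma Good.inv {F : ℂ × ℂ × ℂ → ℂ} (hF : Good F) (h0 : ∀ p ∈ M, F p ≠ 0) :
    Good (fun p => (F p)⁻¹) :=
  ⟨hF.cont.inv₀ h0,
    fun w hw => (hF.hs w hw).inv (fun _ hs => h0 _ (memM_s hw hs.1.le hs.2.le)),
    fun s w hs hw => (hF.hz s w hs hw).inv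
      (fun z hz => h0 _ (memM_z hw hs (by simpa using (mem_ball_zero_iff.1 hz).le)))⟩

lemma good_a : Good (fun p => p.1 * p.2.1) :=
  ⟨by fun_prop, fun _ _ => by fun_prop, fun _ _ _ _ => by fun_prop⟩

lemma good_Z : Good (fun p => p.2.2) :=
  ⟨by fun_prop, fun _ _ => by fun_prop, fun _ _ _ _ => by fun_prop⟩

/-- The homeomorphism `(s, w, z) ↦ (s, conj w, β z)`. -/
def Rot (β : ℂ) (p : ℂ × ℂ × ℂ) : ℂ × ℂ × ℂ := (p.1, (starRingEnd ℂ) p.2.1, β * p.2.2)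

lemma Rot_mem {β : ℂ} (hβ : ‖β‖ = 1) {p : ℂ × ℂ × ℂ} (hp : p ∈ M) : Rot β p ∈ M := by
  rcases hp with ⟨hw, h | ⟨ha, hb, hz⟩⟩
  · exact ⟨by simpa [Rot] using hw, Or.inl ⟨h.1, by simpa [Rot, hβ] using h.2⟩⟩
  · exact ⟨by simpa [Rot] using hw, Or.inr ⟨ha, hb, by simp [Rot, hz]⟩⟩

lemma Good.rot {F : ℂ × ℂ × ℂ → ℂ} (hF : Good F) {β : ℂ} (hβ : ‖β‖ = 1) :
    Good (fun p => F (Rot β p)) := by
  refine ⟨?_, ?_, ?_⟩
  · have h1 : ContinuousOn (Rot β) M := by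
      unfold Rot
      have := Complex.continuous_conj
      fun_prop
    exact hF.cont.comp h1 (fun p hp => Rot_mem hβ hp)
  · intro w hw
    simpa [Rot] using hF.hs ((starRingEnd ℂ) w) (by simpa using hw)
  · intro s w hs hw
    have h1 := hF.hz s ((starRingEnd ℂ) w) hs (by simpa using hw)
    have h2 : DifferentiableOn ℂ (fun z : ℂ => β * z) (ball 0 1) := by fun_prop
    exact h1.comp h2 (fun z hz => by simpa [hβ] using hz)

/-- Uniform limits on `M` of good functions are good. -/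
lemma Good.of_tendstoUniformlyOn {F : ℕ → ℂ × ℂ × ℂ → ℂ} {G : ℂ × ℂ × ℂ → ℂ}
    (hF : ∀ n, Good (F n)) (h : TendstoUniformlyOn F G atTop M) : Good G := by
  refine ⟨h.continuousOn (Frequently.of_forall fun n => (hF n).cont), ?_, ?_⟩
  · intro w hw
    have h1 : TendstoUniformlyOn (fun n s => F n (s, w, 0)) (fun s => G (s, w, 0)) atTop Ann :=
      (h.comp (fun s : ℂ => ((s, w, 0) : ℂ × ℂ × ℂ))).mono
        (fun s hs => memM_s hw hs.1.le hs.2.le)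
    exact h1.tendstoLocallyUniformlyOn.differentiableOn
      (Eventually.of_forall fun n => (hF n).hs w hw) isOpen_Ann
  · intro s w hs hw
    have h1 : TendstoUniformlyOn (fun n z => F n (s, w, z)) (fun z => G (s, w, z)) atTop
        (ball 0 1) :=
      (h.comp (fun z : ℂ => ((s, w, z) : ℂ × ℂ × ℂ))).mono
        (fun z hz => memM_z hw hs (by simpa using (mem_ball_zero_iff.1 hz).le))
    exact h1.tendstoLocallyUniformlyOn.differentiableOn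
      (Eventually.of_forall fun n => (hF n).hz s w hs hw) isOpen_ball

lemma near_one_bounds {s : ℂ} (h : ‖s - 1‖ ≤ 1 / 4) : 3 / 4 ≤ ‖s‖ ∧ ‖s‖ ≤ 5 / 4 := by
  have h1 : ‖(1 : ℂ)‖ ≤ ‖s‖ + ‖s - 1‖ := by
    calc ‖(1 : ℂ)‖ = ‖s - (s - 1)‖ := by ring_nf
      _ ≤ ‖s‖ + ‖s - 1‖ := norm_sub_le _ _
  have h2 : ‖s‖ ≤ ‖s - 1‖ + ‖(1 : ℂ)‖ := by
    calc ‖s‖ = ‖(s - 1) + 1‖ := by ring_nf
      _ ≤ ‖s - 1‖ + ‖(1 : ℂ)‖ := norm_add_le _ _
  rw [norm_one] at h1 h2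
  constructor <;> linarith

/-- A good function without zeros on the small set has no zeros on `M`. -/
lemma Good.ne_zero {F : ℂ × ℂ × ℂ → ℂ} (hF : Good F)
    (hbd : ∀ s w z : ℂ, Bd s → ‖w‖ = 1 → ‖z‖ ≤ 1 → F (s, w, z) ≠ 0)
    (hone : ∀ s : ℂ, 1 / 2 ≤ ‖s‖ → ‖s‖ ≤ 2 → 1 / 4 ≤ ‖s - 1‖ → F (s, 1, 0) ≠ 0)
    (hneg : ∀ s : ℂ, ‖s - 1‖ ≤ 1 / 4 → F (s, -1, 0) ≠ 0)
    (htube : ∀ s w : ℂ, ‖w‖ = 1 → ‖s - 1‖ = 1 / 4 → F (s, w, 0) ≠ 0) :
    ∀ p ∈ M, F p ≠ 0 := by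
  have : CompactSpace (sphere (0 : ℂ) 1) := isCompact_iff_compactSpace.1 (isCompact_sphere _ _)
  have : ConnectedSpace (sphere (0 : ℂ) 1) :=
    isConnected_iff_connectedSpace.1 (isConnected_sphere (by simp) _ zero_le_one)
  have hn : ∀ t : sphere (0 : ℂ) 1, ‖(t : ℂ)‖ = 1 := fun t => by simp
  have hcont : ∀ U : Set ℂ, (∀ s ∈ U, 1 / 2 ≤ ‖s‖ ∧ ‖s‖ ≤ 2) →
      ContinuousOn (fun p : sphere (0 : ℂ) 1 × ℂ => F (p.2, (p.1 : ℂ), 0)) (univ ×ˢ U) := by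
    intro U hU
    have h1 : ContinuousOn
        (fun p : sphere (0 : ℂ) 1 × ℂ => ((p.2, (p.1 : ℂ), 0) : ℂ × ℂ × ℂ)) (univ ×ˢ U) := by
      fun_prop
    exact hF.cont.comp h1 (fun p hp => memM_s (hn p.1) (hU _ hp.2).1 (hU _ hp.2).2)
  have hcl : closure (ball (1 : ℂ) (1 / 4)) = closedBall 1 (1 / 4) :=
    closure_ball _ (by norm_num)
  -- first step: the solid tube
  have step1 := zero_free_family (T := sphere (0 : ℂ) 1) (U := ball (1 : ℂ) (1 / 4))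
    isBounded_ball (fun t s => F (s, (t : ℂ), 0))
    (hcont _ (fun s hs => by
      rw [hcl, mem_closedBall, dist_eq_norm] at hs
      have := near_one_bounds hs
      constructor <;> linarith [this.1, this.2]))
    (fun t => (hF.hs t (hn t)).mono (fun s hs => by
      rw [mem_ball, dist_eq_norm] at hs
      have := near_one_bounds hs.le
      constructor <;> linarith [this.1, this.2]))
    (fun t s hs => by
      rw [frontier_ball _ (by norm_num), mem_sphere, dist_eq_norm] at hs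
      exact htube s t (hn t) hs)
    ⟨-1, by simp⟩
    (fun s hs => by
      rw [hcl, mem_closedBall, dist_eq_norm] at hs
      exact hneg s hs)
  -- second step: the whole annulus
  have step2 := zero_free_family (T := sphere (0 : ℂ) 1) (U := Ann)
    isBounded_Ann (fun t s => F (s, (t : ℂ), 0))
    (hcont _ (fun s hs => closure_Ann_subset hs))
    (fun t => hF.hs t (hn t))
    (fun t s hs => hbd s t 0 (frontier_Ann_subset hs) (hn t) (by simp))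
    ⟨1, by simp⟩
    (fun s hs => by
      by_cases h : 1 / 4 ≤ ‖s - 1‖
      · exact hone s (closure_Ann_subset hs).1 (closure_Ann_subset hs).2 h
      · refine step1 ⟨1, by simp⟩ s ?_
        rw [hcl, mem_closedBall, dist_eq_norm]
        exact (not_le.1 h).le)
  rintro ⟨s, w, z⟩ ⟨hw, h | ⟨ha, hb, hz⟩⟩
  · exact hbd s w z h.1 hw h.2
  · dsimp only at hw ha hb hz
    subst hz
    rcases mem_Ann_or_Bd ha hb with h | h
    · exact step2 ⟨w, by simpa using hw⟩ s (subset_closure h)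
    · exact hbd s w 0 h hw (by simp)

/-- The distinguished boundary is compact. -/
lemma isCompact_bdry :
    IsCompact {p : ℂ × ℂ × ℂ | Bd p.1 ∧ ‖p.2.1‖ = 1 ∧ ‖p.2.2‖ = 1} := by
  have h : {p : ℂ × ℂ × ℂ | Bd p.1 ∧ ‖p.2.1‖ = 1 ∧ ‖p.2.2‖ = 1} =
      (sphere (0 : ℂ) (1 / 2) ∪ sphere (0 : ℂ) 2) ×ˢ (sphere (0 : ℂ) 1 ×ˢ sphere (0 : ℂ) 1) := by
    ext p
    simp [Bd, or_and_right]
  rw [h]
  exact ((isCompact_sphere _ _).union (isCompact_sphere _ _)).prod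
    ((isCompact_sphere _ _).prod (isCompact_sphere _ _))

lemma Good.exists_max {F : ℂ × ℂ × ℂ → ℂ} (hF : Good F) :
    ∃ s w z : ℂ, Bd s ∧ ‖w‖ = 1 ∧ ‖z‖ = 1 ∧ ∀ p ∈ M, ‖F p‖ ≤ ‖F (s, w, z)‖ := by
  obtain ⟨q, hq, hmax⟩ := isCompact_bdry.exists_isMaxOn (f := fun p => ‖F p‖)
    ⟨(2, 1, 1), by simp [Bd]⟩
    ((hF.cont.mono (fun p hp => memM_z hp.2.1 hp.1 hp.2.2.le)).norm)
  refine ⟨q.1, q.2.1, q.2.2, hq.1, hq.2.1, hq.2.2, hF.norm_le ?_⟩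
  intro s w z hs hw hz
  exact hmax (a := (s, w, z)) ⟨hs, hw, hz⟩

end Pool.Agent.MP_4998f1_an
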