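import Mathlib
import Pool.Agent.MP_4998f1_an.Good

set_option autoImplicit false

open Set Metric Filter Topology
open scoped BoundedContinuousFunction

namespace Pool.Agent.MP_4998f1_an

/-- Labels of the four invariant pieces of the set `K` on which the operators act. -/
inductive Lab
  | inner
  | outer
  | fixd
  | tube
  deriving DecidableEq

/-- The four pieces. -/
def Cond : Lab → ℂ → ℂ → ℂ → Prop
  | .inner => fun s w z => ‖s‖ = 1 / 2 ∧ ‖w‖ = 1 ∧ ‖z‖ ≤ 1
  | .outer => fun s w z => ‖s‖ = 2 ∧ ‖w‖ = 1 ∧ ‖z‖ ≤ 1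
  | .fixd => fun s w z => z = 0 ∧
      ((w = 1 ∧ 1 / 2 ≤ ‖s‖ ∧ ‖s‖ ≤ 2 ∧ 1 / 4 ≤ ‖s - 1‖) ∨ (w = -1 ∧ ‖s - 1‖ ≤ 1 / 4))
  | .tube => fun s w z => z = 0 ∧ ‖w‖ = 1 ∧ ‖s - 1‖ = 1 / 4

/-- Points of the disjoint union of the four pieces. -/
@[ext] structure Pt where
  lab : Lab
  s : ℂ
  w : ℂ
  z : ℂ
  h : Cond lab s w z

instance : TopologicalSpace Pt := ⊥
instance : DiscreteTopology Pt := ⟨rfl⟩
instance : Nonempty Pt := ⟨⟨.outer, 2, 1, 1, by simp [Cond]⟩⟩

/-- The point of `M` under a point of `K`. -/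
def Pt.co (k : Pt) : ℂ × ℂ × ℂ := (k.s, k.w, k.z)

lemma Pt.co_mem (k : Pt) : k.co ∈ M := by
  rcases k with ⟨l, s, w, z, h⟩
  cases l
  · exact memM_z h.2.1 (Or.inl h.1) h.2.2
  · exact memM_z h.2.1 (Or.inr h.1) h.2.2
  · rcases h with ⟨rfl, ⟨rfl, h1, h2, -⟩ | ⟨rfl, h1⟩⟩
    · exact memM_s (by simp) h1 h2
    · have := near_one_bounds h1
      exact memM_s (by simp) (by linarith [this.1]) (by linarith [this.2])
  · rcases h with ⟨rfl, hw, h1⟩
    have := near_one_bounds h1.le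
    exact memM_s hw (by linarith [this.1]) (by linarith [this.2])

lemma Pt.norm_w (k : Pt) : ‖k.w‖ = 1 := k.co_mem.1

lemma Pt.norm_s (k : Pt) : 1 / 2 ≤ ‖k.s‖ ∧ ‖k.s‖ ≤ 2 := by
  rcases k.co_mem.2 with h | h
  · exact h.1.bounds
  · exact ⟨h.1, h.2.1⟩

lemma Pt.norm_z (k : Pt) : ‖k.z‖ ≤ 1 := by
  rcases k.co_mem.2 with h | h
  · exact h.2
  · have : k.z = 0 := h.2.2
    simp [this]

lemma exists_pt {s w z : ℂ} (hs : Bd s) (hw : ‖w‖ = 1) (hz : ‖z‖ ≤ 1) :
    ∃ k : Pt, k.co = (s, w, z) := by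
  rcases hs with hs | hs
  · exact ⟨⟨.inner, s, w, z, ⟨hs, hw, hz⟩⟩, rfl⟩
  · exact ⟨⟨.outer, s, w, z, ⟨hs, hw, hz⟩⟩, rfl⟩

lemma Cond.rot {β : ℂ} (hβ : ‖β‖ = 1) {l : Lab} {s w z : ℂ} (h : Cond l s w z) :
    Cond l s ((starRingEnd ℂ) w) (β * z) := by
  cases l
  · exact ⟨h.1, by simpa using h.2.1, by simpa [hβ] using h.2.2⟩
  · exact ⟨h.1, by simpa using h.2.1, by simpa [hβ] using h.2.2⟩
  · rcases h with ⟨rfl, ⟨rfl, h1⟩ | ⟨rfl, h1⟩⟩
    · exact ⟨by simp, Or.inl ⟨by simp, h1⟩⟩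
    · exact ⟨by simp, Or.inr ⟨by simp, h1⟩⟩
  · rcases h with ⟨rfl, hw, h1⟩
    exact ⟨by simp, by simpa using hw, h1⟩

/-- The rotation angle: `exp i`, not a root of unity. -/
noncomputable def alpha : ℂ := Complex.exp Complex.I

lemma norm_alpha : ‖alpha‖ = 1 := by
  have := Complex.norm_exp_ofReal_mul_I 1
  simpa [alpha] using this

lemma norm_alpha_inv : ‖alpha⁻¹‖ = 1 := by simp [norm_alpha]

lemma alpha_ne_zero : alpha ≠ 0 := Complex.exp_ne_zero _

lemma alpha_pow_ne_one {n : ℕ} (hn : 0 < n) : alpha ^ n ≠ 1 := by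
  intro h
  rw [alpha, ← Complex.exp_nat_mul, Complex.exp_eq_one_iff] at h
  obtain ⟨m, hm⟩ := h
  have h1 : (n : ℂ) = m * (2 * Real.pi) := by
    have := mul_right_cancel₀ Complex.I_ne_zero (hm.trans (by ring : _ = (m * (2 * Real.pi)) * Complex.I))
    exact this
  have h2 : (n : ℝ) = m * (2 * Real.pi) := by exact_mod_cast h1
  have hm0 : m ≠ 0 := by
    rintro rfl
    simp at h2
    omega
  apply irrational_pi
  refine ⟨(n : ℚ) / (2 * m), ?_⟩
  have : (m : ℝ) ≠ 0 := by exact_mod_cast hm0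
  push_cast
  rw [h2]
  field_simp

/-- The map `φ` on `K`. -/
noncomputable def phi (k : Pt) : Pt :=
  ⟨k.lab, k.s, (starRingEnd ℂ) k.w, alpha * k.z, k.h.rot norm_alpha⟩

/-- The inverse of `φ`. -/
noncomputable def psi (k : Pt) : Pt :=
  ⟨k.lab, k.s, (starRingEnd ℂ) k.w, alpha⁻¹ * k.z, k.h.rot norm_alpha_inv⟩

@[simp] lemma phi_psi (k : Pt) : phi (psi k) = k := by
  ext <;> simp [phi, psi, alpha_ne_zero]

@[simp] lemma psi_phi (k : Pt) : psi (phi k) = k := by
  ext <;> simp [phi, psi, alpha_ne_zero]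

lemma phi_co (k : Pt) : (phi k).co = Rot alpha k.co := rfl
lemma psi_co (k : Pt) : (psi k).co = Rot alpha⁻¹ k.co := rfl

/-- The Banach space (and algebra) of bounded functions on `K`. -/
abbrev Y := Pt →ᵇ ℂ

/-- Composition on the algebra. -/
noncomputable def compY (f : Pt → Pt) (g : Y) : Y :=
  g.compContinuous ⟨f, continuous_of_discreteTopology⟩

@[simp] lemma compY_apply (f : Pt → Pt) (g : Y) (k : Pt) : compY f g k = g (f k) := rfl

/-- The same space, regarded only as a Banach space. -/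
def X : Type := Y

noncomputable instance : NormedAddCommGroup X := inferInstanceAs (NormedAddCommGroup Y)
noncomputable instance : NormedSpace ℂ X := inferInstanceAs (NormedSpace ℂ Y)
instance : CompleteSpace X := inferInstanceAs (CompleteSpace Y)

/-- The identity map. -/
def toX (g : Y) : X := g
/-- The identity map. -/
def ofX (g : X) : Y := g

@[simp] lemma ofX_toX (g : Y) : ofX (toX g) = g := rfl
@[simp] lemma toX_ofX (g : X) : toX (ofX g) = g := rfl
@[simp] lemma ofX_add (g h : X) : ofX (g + h) = ofX g + ofX h := rfl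
@[simp] lemma ofX_sub (g h : X) : ofX (g - h) = ofX g - ofX h := rfl
@[simp] lemma ofX_smul (c : ℂ) (h : X) : ofX (c • h) = c • ofX h := rfl
@[simp] lemma ofX_zero : ofX 0 = 0 := rfl
lemma norm_ofX (g : X) : ‖ofX g‖ = ‖g‖ := rfl

lemma X_ext {g h : X} (H : ∀ k, ofX g k = ofX h k) : g = h :=
  BoundedContinuousFunction.ext (f := ofX g) (g := ofX h) H

lemma op_ext {S T : X →L[ℂ] X} (H : ∀ g k, ofX (S g) k = ofX (T g) k) : S = T :=
  ContinuousLinearMap.ext fun g => X_ext (H g)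

lemma norm_X_le {g : X} {C : ℝ} (hC : 0 ≤ C) (H : ∀ k, ‖ofX g k‖ ≤ C) : ‖g‖ ≤ C :=
  (BoundedContinuousFunction.norm_le (f := ofX g) hC).2 H

lemma norm_ev_le (g : X) (k : Pt) : ‖ofX g k‖ ≤ ‖g‖ := (ofX g).norm_coe_le_norm k

/-- Composition operators. -/
noncomputable def comp (f : Pt → Pt) : X →L[ℂ] X :=
  LinearMap.mkContinuous
    { toFun := fun g => toX (compY f (ofX g))
      map_add' := fun g h => X_ext fun k => by simp
      map_smul' := fun c g => X_ext fun k => by simp } 1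
    (fun g => norm_X_le (by positivity) fun k => by
      rw [one_mul]; exact norm_ev_le g _)

@[simp] lemma comp_apply (f : Pt → Pt) (g : X) (k : Pt) : ofX (comp f g) k = ofX g (f k) := rfl

lemma norm_comp_le (f : Pt → Pt) : ‖comp f‖ ≤ 1 :=
  LinearMap.mkContinuous_norm_le _ zero_le_one _

/-- Multiplication operators. -/
noncomputable def mulC (f : Y) : X →L[ℂ] X :=
  LinearMap.mkContinuous
    { toFun := fun g => toX (f * ofX g)
      map_add' := fun g h => X_ext fun k => by simp [mul_add]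
      map_smul' := fun c g => X_ext fun k => by simp } ‖f‖
    (fun g => norm_mul_le f (ofX g))

@[simp] lemma mulC_apply (f : Y) (g : X) (k : Pt) : ofX (mulC f g) k = f k * ofX g k := rfl

/-- Multiplication operators, as an algebra homomorphism. -/
noncomputable def mulOp : Y →ₐ[ℂ] (X →L[ℂ] X) where
  toFun f := mulC f
  map_one' := op_ext fun g k => by simp
  map_mul' f g := op_ext fun h k => by simp [mul_assoc]
  map_zero' := op_ext fun h k => by simp
  map_add' f g := op_ext fun h k => by simp [add_mul]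
  commutes' c := op_ext fun h k => by simp [Algebra.algebraMap_eq_smul_one]

@[simp] lemma mulOp_apply (f : Y) (g : X) (k : Pt) : ofX (mulOp f g) k = f k * ofX g k := rfl

lemma norm_mulOp (f : Y) : ‖mulOp f‖ = ‖f‖ := by
  apply le_antisymm
  · exact ContinuousLinearMap.opNorm_le_bound _ (norm_nonneg _) (fun g => norm_mul_le f (ofX g))
  · have h := (mulOp f).le_opNorm (toX 1)
    have h1 : ‖toX 1‖ = 1 := norm_one (α := Y)
    have h2 : mulOp f (toX 1) = toX f := X_ext fun k => by simp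
    rw [h1, h2, mul_one] at h
    exact h

lemma isometry_mulOp : Isometry mulOp :=
  AddMonoidHomClass.isometry_of_norm mulOp norm_mulOp

/-- The shift-type operator. -/
noncomputable def Uop : (X →L[ℂ] X)ˣ where
  val := comp phi
  inv := comp psi
  val_inv := op_ext fun g k => by simp
  inv_val := op_ext fun g k => by simp

lemma U_conj (f : Y) : Uop.val * mulOp f * Uop.inv = mulOp (compY phi f) :=
  op_ext fun g k => by simp [Uop]

lemma U_conj' (f : Y) : Uop.inv * mulOp f * Uop.val = mulOp (compY psi f) :=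
  op_ext fun g k => by simp [Uop]

/-- The function algebra, as an algebra of bounded functions on `K`. -/
def B : Subalgebra ℂ Y where
  carrier := {f | ∃ F, Good F ∧ ∀ k, f k = F k.co}
  mul_mem' := by
    rintro f g ⟨F, hF, hf⟩ ⟨G, hG, hg⟩
    exact ⟨_, hF.mul hG, fun k => by simp [hf, hg]⟩
  add_mem' := by
    rintro f g ⟨F, hF, hf⟩ ⟨G, hG, hg⟩
    exact ⟨_, hF.add hG, fun k => by simp [hf, hg]⟩
  algebraMap_mem' c := ⟨_, Good.const c, fun k => by simp⟩

lemma mem_B {f : Y} : f ∈ B ↔ ∃ F, Good F ∧ ∀ k, f k = F k.co := Iff.rfl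

lemma Good.norm_le_norm {F : ℂ × ℂ × ℂ → ℂ} (hF : Good F) {f : Y} (hf : ∀ k, f k = F k.co) :
    ∀ p ∈ M, ‖F p‖ ≤ ‖f‖ := by
  apply hF.norm_le
  intro s w z hs hw hz
  obtain ⟨k, hk⟩ := exists_pt hs hw hz.le
  rw [← hk, ← hf]
  exact f.norm_coe_le_norm k

lemma isClosed_B : IsClosed (B : Set Y) := by
  apply IsSeqClosed.isClosed
  intro x f hx hlim
  choose F hF hFx using hx
  have hcau : UniformCauchySeqOn F atTop M := by
    rw [Metric.uniformCauchySeqOn_iff]
    intro ε hε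
    obtain ⟨N, hN⟩ := Metric.cauchySeq_iff.1 hlim.cauchySeq ε hε
    refine ⟨N, fun m hm n hn p hp => lt_of_le_of_lt ?_ (hN m hm n hn)⟩
    rw [dist_eq_norm, dist_eq_norm]
    exact ((hF m).sub (hF n)).norm_le_norm (f := x m - x n) (fun k => by simp [hFx]) p hp
  have hpt : ∀ p ∈ M, Tendsto (fun n => F n p) atTop (𝓝 (limUnder atTop fun n => F n p)) :=
    fun p hp => (hcau.cauchySeq hp).tendsto_limUnder
  refine ⟨fun p => limUnder atTop fun n => F n p,
    Good.of_tendstoUniformlyOn hF (hcau.tendstoUniformlyOn_of_tendsto hpt), fun k => ?_⟩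
  have h1 : Tendsto (fun n => x n k) atTop (𝓝 (f k)) :=
    ((continuous_eval_const (F := Y) k).tendsto f).comp hlim
  have h2 := hpt k.co k.co_mem
  simp only [← hFx] at h2
  have h3 := tendsto_nhds_unique h1 h2
  simpa only [hFx] using h3

lemma comp_phi_mem {f : Y} (hf : f ∈ B) : compY phi f ∈ B := by
  obtain ⟨F, hF, h⟩ := hf
  exact ⟨_, hF.rot norm_alpha, fun k => by simp [h, phi_co]⟩

lemma comp_psi_mem {f : Y} (hf : f ∈ B) : compY psi f ∈ B := by
  obtain ⟨F, hF, h⟩ := hf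
  exact ⟨_, hF.rot norm_alpha_inv, fun k => by simp [h, psi_co]⟩

lemma inv_mem_B {f g : Y} (hf : f ∈ B) (hfg : f * g = 1) : g ∈ B := by
  obtain ⟨F, hF, h⟩ := hf
  have h1 : ∀ k, f k * g k = 1 := fun k => by
    have := congrArg (fun u : Y => u k) hfg
    simpa using this
  have h0 : ∀ k : Pt, F k.co ≠ 0 := fun k hk => by
    have := h1 k
    rw [h k, hk, zero_mul] at this
    exact zero_ne_one this
  have hM : ∀ p ∈ M, F p ≠ 0 := by
    apply hF.ne_zero
    · intro s w z hs hw hz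
      obtain ⟨k, hk⟩ := exists_pt hs hw hz
      exact hk ▸ h0 k
    · intro s h1 h2 h3
      exact h0 ⟨.fixd, s, 1, 0, ⟨rfl, Or.inl ⟨rfl, h1, h2, h3⟩⟩⟩
    · intro s h1
      exact h0 ⟨.fixd, s, -1, 0, ⟨rfl, Or.inr ⟨rfl, h1⟩⟩⟩
    · intro s w hw h1
      exact h0 ⟨.tube, s, w, 0, ⟨rfl, hw, h1⟩⟩
  refine ⟨_, hF.inv hM, fun k => ?_⟩
  rw [← h k]
  exact (eq_inv_of_mul_eq_one_right (h1 k))

lemma exists_peak {f : Y} (hf : f ∈ B) : ∃ k : Pt, ‖k.z‖ = 1 ∧ ‖f‖ ≤ ‖f k‖ := by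
  obtain ⟨F, hF, h⟩ := hf
  obtain ⟨s, w, z, hs, hw, hz, hmax⟩ := hF.exists_max
  obtain ⟨k, hk⟩ := exists_pt hs hw hz.le
  refine ⟨k, ?_, ?_⟩
  · have : k.z = z := congrArg (fun p => p.2.2) hk
    rw [this, hz]
  · rw [h k, hk]
    refine (BoundedContinuousFunction.norm_le (norm_nonneg _)).2 fun j => ?_
    rw [h j]
    exact hmax _ j.co_mem

/-- A bounded function on `K` from a bound. -/
noncomputable def mkY (f : Pt → ℂ) (C : ℝ) (h : ∀ k, ‖f k‖ ≤ C) : Y :=
  BoundedContinuousFunction.ofNormedAddCommGroupDiscrete f C h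

@[simp] lemma mkY_apply (f : Pt → ℂ) (C : ℝ) (h : ∀ k, ‖f k‖ ≤ C) (k : Pt) :
    mkY f C h k = f k := rfl

/-- The weight `a = s w`. -/
noncomputable def aY : Y := mkY (fun k => k.s * k.w) 2 (fun k => by
  rw [norm_mul, k.norm_w, mul_one]; exact k.norm_s.2)

/-- The coordinate `z`. -/
noncomputable def zY : Y := mkY (fun k => k.z) 1 (fun k => k.norm_z)

@[simp] lemma aY_apply (k : Pt) : aY k = k.s * k.w := rfl
@[simp] lemma zY_apply (k : Pt) : zY k = k.z := rfl

lemma aY_mem : aY ∈ B := ⟨_, good_a, fun _ => rfl⟩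
lemma zY_mem : zY ∈ B := ⟨_, good_Z, fun _ => rfl⟩

lemma comp_phi_zY : compY phi zY = alpha • zY := by
  ext k; simp [phi]

/-- The constant `1` is not of the form `b - a · (b ∘ φ)` with `b` in the algebra: the
character at `(1, 1, 0)` is fixed by `φ` and takes the value `1` at `a`. -/
lemma one_ne_cobound {f : Y} (hf : f ∈ B) : (1 : Y) ≠ f - aY * compY phi f := by
  intro h1
  obtain ⟨F, hF, h⟩ := hf
  have hG : Good (fun p => 1 - (F p - p.1 * p.2.1 * F (Rot alpha p))) :=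
    (Good.const 1).sub (hF.sub (good_a.mul (hF.rot norm_alpha)))
  have := hG.norm_le_norm (f := 0) (fun k => by
    have h2 := congrArg (fun u : Y => u k) h1
    simp only [BoundedContinuousFunction.coe_one, Pi.one_apply, BoundedContinuousFunction.coe_sub,
      BoundedContinuousFunction.coe_mul, Pi.sub_apply, Pi.mul_apply, aY_apply, compY_apply, h,
      phi_co] at h2
    simp only [BoundedContinuousFunction.coe_zero, Pi.zero_apply]
    rw [h2]
    simp [Pt.co]) (1, 1, 0) (memM_s (by simp) (by norm_num) (by norm_num))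
  simp [Rot] at this
  linarith

lemma norm_mul_self (f : Y) : ‖f * f‖ = ‖f‖ ^ 2 := by
  apply le_antisymm
  · rw [sq]; exact norm_mul_le f f
  · have h : ‖f‖ ≤ Real.sqrt ‖f * f‖ := by
      refine (BoundedContinuousFunction.norm_le (Real.sqrt_nonneg _)).2 fun k => ?_
      apply Real.le_sqrt_of_sq_le
      have := (f * f).norm_coe_le_norm k
      simpa [sq] using this
    calc ‖f‖ ^ 2 ≤ (Real.sqrt ‖f * f‖) ^ 2 := by gcongr
      _ = ‖f * f‖ := Real.sq_sqrt (norm_nonneg _)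

end Pool.Agent.MP_4998f1_an
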