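import Mathlib
import Pool.Agent.MP_4998f1_an.Space

set_option autoImplicit false

open Set Metric Filter Topology
open scoped BoundedContinuousFunction

namespace Pool.Agent.MP_4998f1_an

@[simp] lemma phi_lab (k : Pt) : (phi k).lab = k.lab := rfl
@[simp] lemma psi_lab (k : Pt) : (psi k).lab = k.lab := rfl
@[simp] lemma phi_s (k : Pt) : (phi k).s = k.s := rfl
@[simp] lemma psi_s (k : Pt) : (psi k).s = k.s := rfl
@[simp] lemma phi_w (k : Pt) : (phi k).w = (starRingEnd ℂ) k.w := rfl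
@[simp] lemma psi_w (k : Pt) : (psi k).w = (starRingEnd ℂ) k.w := rfl

lemma phi_fixd {k : Pt} (h : k.lab = .fixd) : phi k = k := by
  rcases k with ⟨l, s, w, z, hk⟩
  dsimp only at h
  subst h
  rcases hk with ⟨rfl, ⟨rfl, h1⟩ | ⟨rfl, h1⟩⟩
  · ext <;> simp [phi]
  · ext <;> simp [phi]

lemma phi_phi_tube {k : Pt} (h : k.lab = .tube) : phi (phi k) = k := by
  rcases k with ⟨l, s, w, z, hk⟩
  dsimp only at h
  subst h
  rcases hk with ⟨rfl, h1⟩
  ext <;> simp [phi]

lemma w_mul_conj (k : Pt) : k.w * (starRingEnd ℂ) k.w = 1 := by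
  rw [Complex.mul_conj, Complex.normSq_eq_norm_sq, k.norm_w]; simp

lemma s_ne_zero (k : Pt) : k.s ≠ 0 := by
  intro h
  have := k.norm_s.1
  rw [h, norm_zero] at this
  norm_num at this

lemma w_ne_zero (k : Pt) : k.w ≠ 0 := by
  intro h
  have := k.norm_w
  rw [h, norm_zero] at this
  norm_num at this

lemma norm_inner {k : Pt} (h : k.lab = .inner) : ‖k.s‖ = 1 / 2 := by
  rcases k with ⟨l, s, w, z, hk⟩
  dsimp only at h
  subst h
  exact hk.1

lemma norm_outer {k : Pt} (h : k.lab = .outer) : ‖k.s‖ = 2 := by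
  rcases k with ⟨l, s, w, z, hk⟩
  dsimp only at h
  subst h
  exact hk.1

lemma norm_fixd {k : Pt} (h : k.lab = .fixd) : 1 / 4 ≤ ‖1 - k.s * k.w‖ := by
  rcases k with ⟨l, s, w, z, hk⟩
  dsimp only at h
  subst h
  rcases hk with ⟨rfl, ⟨rfl, h1⟩ | ⟨rfl, h1⟩⟩
  · dsimp only
    rw [mul_one, norm_sub_rev]
    exact h1.2.2
  · dsimp only
    have h2 : ‖(2 : ℂ)‖ ≤ ‖1 - s * -1‖ + ‖s - 1‖ := by
      calc ‖(2 : ℂ)‖ = ‖(1 - s * -1) - (s - 1)‖ := by ring_nf
        _ ≤ _ := norm_sub_le _ _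
    have h3 : ‖(2 : ℂ)‖ = 2 := by simp
    linarith

lemma norm_tube {k : Pt} (h : k.lab = .tube) : 1 / 4 ≤ ‖1 - k.s ^ 2‖ := by
  rcases k with ⟨l, s, w, z, hk⟩
  dsimp only at h
  subst h
  rcases hk with ⟨rfl, -, h1⟩
  dsimp only
  have h2 : ‖(2 : ℂ)‖ ≤ ‖s + 1‖ + ‖s - 1‖ := by
    calc ‖(2 : ℂ)‖ = ‖(s + 1) - (s - 1)‖ := by ring_nf
      _ ≤ _ := norm_sub_le _ _
  have h3 : ‖(2 : ℂ)‖ = 2 := by simp
  have h4 : ‖1 - s ^ 2‖ = ‖s - 1‖ * ‖s + 1‖ := by
    rw [← norm_mul, ← norm_neg]; ring_nf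
  rw [h4, h1]
  linarith

lemma norm_inv_le_four {x : ℂ} (h : 1 / 4 ≤ ‖x‖) : ‖x⁻¹‖ ≤ 4 := by
  rw [norm_inv]
  have := inv_anti₀ (by norm_num) h
  simpa using this

lemma ne_zero_of_quarter {x : ℂ} (h : 1 / 4 ≤ ‖x‖) : x ≠ 0 := by
  rintro rfl
  norm_num at h

noncomputable def q0 : Y := mkY (fun k => if k.lab = .inner then 1 else if k.lab = .fixd then
    (1 - k.s * k.w)⁻¹ else if k.lab = .tube then (1 - k.s ^ 2)⁻¹ else 0) 4 (fun k => by
  split_ifs with h1 h2 h3
  · simp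
  · exact norm_inv_le_four (norm_fixd h2)
  · exact norm_inv_le_four (norm_tube h3)
  · simp)

noncomputable def q1 : Y := mkY (fun k => if k.lab = .tube then
    k.s * k.w * (1 - k.s ^ 2)⁻¹ else 0) 8 (fun k => by
  split_ifs with h1
  · rw [norm_mul, norm_mul, k.norm_w, mul_one]
    have h2 := norm_inv_le_four (norm_tube h1)
    have h3 := k.norm_s.2
    calc ‖k.s‖ * ‖(1 - k.s ^ 2)⁻¹‖ ≤ 2 * 4 := by gcongr
      _ = 8 := by norm_num
  · simp)

noncomputable def n1 : Y := mkY (fun k => if k.lab = .inner then k.s * k.w else 0) (1 / 2)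
  (fun k => by
    split_ifs with h1
    · rw [norm_mul, k.norm_w, mul_one, norm_inner h1]
    · simp)

noncomputable def n2 : Y := mkY (fun k => if k.lab = .outer then
    (k.s * (starRingEnd ℂ) k.w)⁻¹ else 0) (1 / 2)
  (fun k => by
    split_ifs with h1
    · rw [norm_inv, norm_mul, Complex.norm_conj, k.norm_w, mul_one, norm_outer h1]
      norm_num
    · simp)

noncomputable def Qop : X →L[ℂ] X := mulOp q0 + mulOp q1 * comp phi - mulOp n2 * comp psi

noncomputable def Nop : X →L[ℂ] X := mulOp n1 * comp phi + mulOp n2 * comp psi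

lemma Qop_apply (g : X) (k : Pt) :
    ofX (Qop g) k = q0 k * ofX g k + q1 k * ofX g (phi k) - n2 k * ofX g (psi k) := by
  simp [Qop]

lemma Nop_apply (g : X) (k : Pt) :
    ofX (Nop g) k = n1 k * ofX g (phi k) + n2 k * ofX g (psi k) := by
  simp [Nop]

lemma V_apply (g : X) (k : Pt) :
    ofX ((1 - mulOp aY * Uop.val) g) k = ofX g k - k.s * k.w * ofX g (phi k) := by
  simp [Uop]

lemma norm_Nop : ‖Nop‖ < 1 := by
  refine lt_of_le_of_lt (ContinuousLinearMap.opNorm_le_bound _ (M := 1 / 2) (by norm_num)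
    (fun g => ?_)) (by norm_num)
  refine norm_X_le (by positivity) fun k => ?_
  rw [Nop_apply]
  have hg := norm_ev_le g
  cases h : k.lab
  · have h1 : n2 k = 0 := by simp [n2, h]
    have h2 : ‖n1 k‖ = 1 / 2 := by
      simp only [n1, mkY_apply, h, if_true]
      rw [norm_mul, k.norm_w, mul_one, norm_inner h]
    rw [h1, zero_mul, add_zero, norm_mul, h2]
    gcongr
    exact hg _
  · have h1 : n1 k = 0 := by simp [n1, h]
    have h2 : ‖n2 k‖ = 1 / 2 := by
      simp only [n2, mkY_apply, h, if_true]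
      rw [norm_inv, norm_mul, Complex.norm_conj, k.norm_w, mul_one, norm_outer h]
      norm_num
    rw [h1, zero_mul, zero_add, norm_mul, h2]
    gcongr
    exact hg _
  · simp [n1, n2, h]
  · simp [n1, n2, h]

lemma left_id : (1 - mulOp aY * Uop.val) * Qop = 1 - Nop := by
  refine op_ext fun g k => ?_
  rw [mul_apply_eq_comp, V_apply, Qop_apply, Qop_apply]
  have : ofX ((1 - Nop) g) k = ofX g k - ofX (Nop g) k := by simp
  rw [this, Nop_apply]
  have hs := s_ne_zero k
  have hw := w_ne_zero k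
  cases h : k.lab
  · simp [q0, q1, n1, n2, h]
  · simp [q0, q1, n1, n2, h]
    field_simp
    ring
  · have h1 := ne_zero_of_quarter (norm_fixd h)
    simp [q0, q1, n1, n2, h, phi_fixd h]
    field_simp
  · have h1 := ne_zero_of_quarter (norm_tube h)
    have h2 := w_mul_conj k
    simp [q0, q1, n1, n2, h, phi_phi_tube h]
    field_simp
    linear_combination (-(k.s ^ 2 * ofX g k)) * h2

lemma right_id : Qop * (1 - mulOp aY * Uop.val) = 1 - Nop := by
  refine op_ext fun g k => ?_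
  rw [mul_apply_eq_comp, Qop_apply, V_apply, V_apply, V_apply]
  have : ofX ((1 - Nop) g) k = ofX g k - ofX (Nop g) k := by simp
  rw [this, Nop_apply]
  have hs := s_ne_zero k
  have hw := w_ne_zero k
  have hw' : (starRingEnd ℂ) k.w ≠ 0 := by simpa using hw
  cases h : k.lab
  · simp [q0, q1, n1, n2, h]
  · simp [q0, q1, n1, n2, h]
    field_simp
    ring
  · have h1 := ne_zero_of_quarter (norm_fixd h)
    simp [q0, q1, n1, n2, h, phi_fixd h]
    field_simp
  · have h1 := ne_zero_of_quarter (norm_tube h)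
    have h2 := w_mul_conj k
    simp [q0, q1, n1, n2, h, phi_phi_tube h]
    field_simp
    linear_combination (-(k.s ^ 2 * ofX g k)) * h2

/-- `1` is in the resolvent set of `aU` on the space of bounded functions on `K`. -/
theorem isUnit_one_sub : IsUnit (1 - mulOp aY * Uop.val) := by
  have hN : IsUnit (1 - Nop) := (Units.oneSub Nop norm_Nop).isUnit
  obtain ⟨u, hu⟩ := hN
  rw [isUnit_iff_exists_and_exists]
  constructor
  · refine ⟨Qop * u.inv, ?_⟩
    rw [← mul_assoc, left_id, ← hu]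
    exact u.val_inv
  · refine ⟨u.inv * Qop, ?_⟩
    rw [mul_assoc, right_id, ← hu]
    exact u.inv_val

end Pool.Agent.MP_4998f1_an
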