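import Mathlib
import Pool.Agent.MP_4998f1_an.Resolvent

set_option autoImplicit false

open Set Metric Filter Topology
open scoped BoundedContinuousFunction

namespace Pool.Agent.MP_4998f1_an

/-- The uniform algebra of operators: multiplications by elements of `B`. -/
noncomputable def Aop : Subalgebra ℂ (X →L[ℂ] X) := B.map mulOp

lemma mem_Aop {a : X →L[ℂ] X} : a ∈ Aop ↔ ∃ f ∈ B, mulOp f = a := Subalgebra.mem_map

lemma mulOp_mem {f : Y} (hf : f ∈ B) : mulOp f ∈ Aop := mem_Aop.2 ⟨f, hf, rfl⟩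

lemma isClosed_Aop : IsClosed (Aop : Set (X →L[ℂ] X)) := by
  have : (Aop : Set (X →L[ℂ] X)) = mulOp '' (B : Set Y) := Subalgebra.coe_map _ _
  rw [this]
  exact isometry_mulOp.isClosedEmbedding.isClosedMap _ isClosed_B

lemma Aop_comm : ∀ a ∈ Aop, ∀ b ∈ Aop, a * b = b * a := by
  intro a ha b hb
  obtain ⟨f, -, rfl⟩ := mem_Aop.1 ha
  obtain ⟨g, -, rfl⟩ := mem_Aop.1 hb
  rw [← map_mul, ← map_mul, mul_comm]

lemma Aop_norm : ∀ a ∈ Aop, ‖a * a‖ = ‖a‖ ^ 2 := by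
  intro a ha
  obtain ⟨f, -, rfl⟩ := mem_Aop.1 ha
  rw [← map_mul, norm_mulOp, norm_mulOp, norm_mul_self]

lemma Aop_conj : ∀ a ∈ Aop, Uop.val * a * Uop.inv ∈ Aop := by
  intro a ha
  obtain ⟨f, hf, rfl⟩ := mem_Aop.1 ha
  rw [U_conj]
  exact mulOp_mem (comp_phi_mem hf)

lemma Aop_conj' : ∀ a ∈ Aop, Uop.inv * a * Uop.val ∈ Aop := by
  intro a ha
  obtain ⟨f, hf, rfl⟩ := mem_Aop.1 ha
  rw [U_conj']
  exact mulOp_mem (comp_psi_mem hf)

lemma Aop_inv : ∀ (a : X →L[ℂ] X) (ha : a ∈ Aop), IsUnit a → IsUnit (⟨a, ha⟩ : Aop) := by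
  intro a ha hu
  obtain ⟨f, hf, rfl⟩ := mem_Aop.1 ha
  obtain ⟨u, hu⟩ := hu
  have h1 : f * ofX (u.inv (toX 1)) = 1 := by
    have h2 : (u.val * u.inv) (toX 1) = toX 1 := by rw [u.val_inv]; rfl
    rw [hu] at h2
    exact h2
  have hg := inv_mem_B hf h1
  rw [isUnit_iff_exists]
  refine ⟨⟨mulOp (ofX (u.inv (toX 1))), mulOp_mem hg⟩, ?_, ?_⟩
  · apply Subtype.ext
    change mulOp f * mulOp (ofX (u.inv (toX 1))) = 1
    rw [← map_mul, h1, map_one]
  · apply Subtype.ext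
    change mulOp (ofX (u.inv (toX 1))) * mulOp f = 1
    rw [← map_mul, mul_comm, h1, map_one]

lemma norm_one_le : ‖(1 : X →L[ℂ] X)‖ ≤ 1 := ContinuousLinearMap.norm_id_le

lemma spectrum_U : spectrum ℂ Uop.val ⊆ Metric.sphere (0 : ℂ) 1 := by
  intro μ hμ
  have h1 : ‖μ‖ ≤ 1 := by
    have := spectrum.norm_le_norm_mul_of_mem hμ
    have h2 : ‖Uop.val‖ ≤ 1 := norm_comp_le phi
    exact this.trans (mul_le_one₀ h2 (norm_nonneg _) norm_one_le)
  have h0 : μ ≠ 0 := by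
    rintro rfl
    exact spectrum.zero_notMem ℂ Uop.isUnit hμ
  have h2 : ‖μ⁻¹‖ ≤ 1 := by
    have h3 : μ⁻¹ ∈ spectrum ℂ (↑Uop⁻¹ : X →L[ℂ] X) := spectrum.inv₀_mem_inv hμ
    have := spectrum.norm_le_norm_mul_of_mem h3
    have h2 : ‖(↑Uop⁻¹ : X →L[ℂ] X)‖ ≤ 1 := norm_comp_le psi
    exact this.trans (mul_le_one₀ h2 (norm_nonneg _) norm_one_le)
  rw [norm_inv, inv_le_one₀ (norm_pos_iff.2 h0)] at h2
  simpa using le_antisymm h1 h2

lemma one_notMem_spectrum : (1 : ℂ) ∉ spectrum ℂ (mulOp aY * Uop.val) := by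
  rw [spectrum.notMem_iff, map_one]
  exact isUnit_one_sub

lemma not_solvable : ¬ ∀ c ∈ Aop, ∃! b, b ∈ Aop ∧
    c = (1 : ℂ) • b - mulOp aY * (Uop.val * b * Uop.inv) := by
  intro h
  obtain ⟨b, ⟨hb, h1⟩, -⟩ := h 1 Aop.one_mem
  obtain ⟨f, hf, rfl⟩ := mem_Aop.1 hb
  rw [U_conj, one_smul, ← map_mul, ← map_sub, ← map_one mulOp] at h1
  exact one_ne_cobound hf (isometry_mulOp.injective h1)

lemma U_pow_conj (n : ℕ) :
    (Uop ^ n).val * mulOp zY * (Uop ^ n).inv = alpha ^ n • mulOp zY := by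
  have h1 : Uop.val * mulOp zY = alpha • (mulOp zY * Uop.val) := by
    have h := U_conj zY
    rw [comp_phi_zY, map_smul] at h
    rw [← smul_mul_assoc, ← h, mul_assoc, Uop.inv_val, mul_one]
  have h2 : (Uop ^ n).val * mulOp zY = alpha ^ n • (mulOp zY * (Uop ^ n).val) := by
    induction n with
    | zero => simp
    | succ n ih =>
      rw [pow_succ, Units.val_mul, mul_assoc, h1, mul_smul_comm, ← mul_assoc, ih,
        smul_mul_assoc, smul_smul, mul_assoc, pow_succ']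
  rw [h2, smul_mul_assoc, mul_assoc, (Uop ^ n).val_inv, mul_one]

instance : CompleteSpace Aop := isClosed_Aop.completeSpace_coe

/-- Evaluation of an element of the operator algebra at a point of `K`. -/
noncomputable def evalHom (k : Pt) : Aop →ₐ[ℂ] ℂ where
  toFun a := ofX (a.1 (toX 1)) k
  map_one' := rfl
  map_mul' a b := by
    obtain ⟨f, -, hf⟩ := mem_Aop.1 a.2
    obtain ⟨g, -, hg⟩ := mem_Aop.1 b.2
    simp [← hf, ← hg]
  map_zero' := rfl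
  map_add' a b := by simp
  commutes' c := by simp [Algebra.algebraMap_eq_smul_one]

noncomputable def evalChar (k : Pt) : WeakDual.characterSpace ℂ Aop :=
  WeakDual.CharacterSpace.equivAlgHom.symm (evalHom k)

lemma evalChar_apply (k : Pt) (f : Y) (hf : mulOp f ∈ Aop) :
    evalChar k ⟨mulOp f, hf⟩ = f k := by
  change ofX (mulOp f (toX 1)) k = f k
  simp

lemma char_norm_le (ψ : WeakDual.characterSpace ℂ Aop) (a : Aop) : ‖ψ a‖ ≤ ‖a.1‖ := by
  have h := AlgHom.norm_apply_le_self_mul_norm_one ψ a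
  have h1 : ‖(1 : Aop)‖ ≤ 1 := norm_one_le
  exact h.trans (mul_le_of_le_one_right (norm_nonneg _) h1)

/-- The characters with `|χ(z)| = 1` form a closed boundary. -/
lemma boundary_mem :
    {χ : WeakDual.characterSpace ℂ Aop | ‖χ ⟨mulOp zY, mulOp_mem zY_mem⟩‖ = 1} ∈
      {K : Set (WeakDual.characterSpace ℂ Aop) | IsClosed K ∧
        ∀ a : Aop, ∃ χ ∈ K, ∀ ψ : WeakDual.characterSpace ℂ Aop, ‖ψ a‖ ≤ ‖χ a‖} := by
  constructor
  · apply isClosed_eq _ continuous_const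
    exact ((WeakDual.eval_continuous _).comp continuous_subtype_val).norm
  · rintro ⟨a, ha⟩
    obtain ⟨f, hf, rfl⟩ := mem_Aop.1 ha
    obtain ⟨k, hk, hmax⟩ := exists_peak hf
    refine ⟨evalChar k, ?_, fun ψ => ?_⟩
    · change ‖evalChar k ⟨mulOp zY, mulOp_mem zY_mem⟩‖ = 1
      rw [evalChar_apply]
      exact hk
    · rw [evalChar_apply]
      refine (char_norm_le ψ _).trans ?_
      rw [norm_mulOp]
      exact hmax

lemma not_periodic (χ : WeakDual.characterSpace ℂ Aop)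
    (h1 : ‖χ ⟨mulOp zY, mulOp_mem zY_mem⟩‖ = 1) :
    ¬ ∃ n : ℕ, 0 < n ∧
      ∀ (a : X →L[ℂ] X) (ha : a ∈ Aop) (b : X →L[ℂ] X) (hb : b ∈ Aop),
        b = (Uop ^ n).val * a * (Uop ^ n).inv → χ (⟨b, hb⟩ : Aop) = χ (⟨a, ha⟩ : Aop) := by
  rintro ⟨n, hn, h⟩
  have h2 := h (mulOp zY) (mulOp_mem zY_mem) (alpha ^ n • mulOp zY)
    (Aop.smul_mem (mulOp_mem zY_mem) _) (U_pow_conj n).symm
  have h3 : χ (⟨alpha ^ n • mulOp zY, Aop.smul_mem (mulOp_mem zY_mem) _⟩ : Aop) =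
      alpha ^ n * χ ⟨mulOp zY, mulOp_mem zY_mem⟩ := by
    have h5 : (⟨alpha ^ n • mulOp zY, Aop.smul_mem (mulOp_mem zY_mem) _⟩ : Aop) =
        alpha ^ n • (⟨mulOp zY, mulOp_mem zY_mem⟩ : Aop) := Subtype.ext rfl
    rw [h5, map_smul, smul_eq_mul]
  have h4 : χ ⟨mulOp zY, mulOp_mem zY_mem⟩ ≠ 0 := by
    intro h0
    rw [h0, norm_zero] at h1
    exact zero_ne_one h1
  rw [h3] at h2
  exact alpha_pow_ne_one hn (mul_left_eq_self₀.1 h2 |>.resolve_right h4)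

end Pool.Agent.MP_4998f1_an
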