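import Mathlib

set_option autoImplicit false

open Filter Topology MeasureTheory

namespace Pool.Agent.MP_4998f1_an.Cls

variable {B : Type} [NormedRing B] [NormedAlgebra ℂ B] [CompleteSpace B]

omit [CompleteSpace B] in
/-- Fourier coefficients of a continuous function on the circle tend to zero. -/
lemma coeff_small {T : ℝ} [hT : Fact (0 < T)] (R : AddCircle T → B) (hR : Continuous R) {ε : ℝ}
    (hε : 0 < ε) : ∃ N : ℕ, ∀ k : ℤ, (N : ℤ) ≤ |k| → ‖fourierCoeff R k‖ ≤ ε := by
  obtain ⟨δ, hδ, hu⟩ := Metric.uniformContinuous_iff.1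
    (CompactSpace.uniformContinuous_of_continuous hR) ε hε
  obtain ⟨N, hN⟩ := exists_nat_gt (T / δ)
  have hT0 := hT.out
  refine ⟨N, fun k hk => ?_⟩
  have hN0 : (0 : ℝ) < N := lt_trans (by positivity) hN
  have hk1 : (N : ℝ) ≤ |(k : ℝ)| := by exact_mod_cast hk
  have hk0 : -k ≠ 0 := by
    intro h
    have h1 : k = 0 := by omega
    rw [h1] at hk1
    simp at hk1
    have : (0 : ℝ) ≤ N := Nat.cast_nonneg N
    simp [hk1] at hN0
  set h : AddCircle T := ((T / 2 / ((-k : ℤ) : ℝ) : ℝ) : AddCircle T) with hh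
  have hn : ‖h‖ < δ := by
    have h1 : ‖h‖ ≤ ‖(T / 2 / ((-k : ℤ) : ℝ) : ℝ)‖ := QuotientAddGroup.norm_mk_le_norm
    refine lt_of_le_of_lt h1 ?_
    have hk2 : (0 : ℝ) < |(k : ℝ)| := lt_of_lt_of_le hN0 hk1
    rw [Real.norm_eq_abs, abs_div, abs_of_pos (by positivity : (0 : ℝ) < T / 2), Int.cast_neg,
      abs_neg, div_lt_iff₀ hk2]
    rw [div_lt_iff₀ hδ] at hN
    nlinarith
  have hi : ∀ G : AddCircle T → B, Continuous G → Integrable G AddCircle.haarAddCircle :=
    fun G hG => hG.integrable_of_hasCompactSupport (HasCompactSupport.of_compactSpace G)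
  have hc : Continuous fun t : AddCircle T => fourier (-k) t • R t :=
    (map_continuous (fourier (-k))).smul hR
  have h1 : fourierCoeff R k =
      ∫ t, fourier (-k) (t + h) • R (t + h) ∂AddCircle.haarAddCircle :=
    (integral_add_right_eq_self (fun t : AddCircle T => fourier (-k) t • R t) h).symm
  have h2 : fourierCoeff R k + fourierCoeff R k =
      ∫ t, fourier (-k) t • (R t - R (t + h)) ∂AddCircle.haarAddCircle := by
    nth_rewrite 2 [h1]
    have hc' : Continuous fun t : AddCircle T => fourier (-k) (t + h) • R (t + h) :=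
      hc.comp (continuous_add_const h)
    rw [fourierCoeff, ← integral_add (hi _ hc) (hi _ hc')]
    refine integral_congr_ae (ae_of_all _ fun t => ?_)
    simp only [hh, fourier_add_half_inv_index hk0 hT0, smul_sub, neg_smul]
    rw [sub_eq_add_neg]
  have h3 : ‖fourierCoeff R k + fourierCoeff R k‖ ≤ ε := by
    rw [h2]
    have := norm_integral_le_of_norm_le_const (μ := (AddCircle.haarAddCircle : Measure (AddCircle T)))
      (f := fun t => fourier (-k) t • (R t - R (t + h))) (C := ε) (ae_of_all _ fun t => by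
        rw [norm_smul, fourier_apply, Circle.norm_coe, one_mul, ← dist_eq_norm]
        exact (hu (by simpa using hn)).le)
    simpa using this
  rw [← two_smul ℂ, norm_smul] at h3
  have h4 := norm_nonneg (fourierCoeff R k)
  simp at h3
  linarith

/-- The Fourier coefficients of the resolvent on the unit circle. -/
lemma exists_green (S : B) (hS : ∀ w : ℂ, ‖w‖ = 1 → IsUnit (algebraMap ℂ B w - S)) :
    ∃ C : ℤ → B, (∀ k, C (k - 1) - S * C k = if k = 0 then 1 else 0) ∧
      (∀ k, C (k - 1) - C k * S = if k = 0 then 1 else 0) ∧ (∃ K : ℝ, ∀ k, ‖C k‖ ≤ K) ∧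
      ∀ ε : ℝ, 0 < ε → ∃ N : ℕ, ∀ k : ℤ, (N : ℤ) ≤ |k| → ‖C k‖ ≤ ε := by
  have hT : Fact ((0 : ℝ) < 1) := ⟨one_pos⟩
  set R : AddCircle (1 : ℝ) → B := fun t => Ring.inverse (algebraMap ℂ B (fourier 1 t) - S) with hRd
  have hu : ∀ t : AddCircle (1 : ℝ), IsUnit (algebraMap ℂ B (fourier 1 t) - S) := fun t =>
    hS _ (by rw [fourier_apply, Circle.norm_coe])
  have hR : Continuous R := by
    rw [continuous_iff_continuousAt]
    intro t
    obtain ⟨u, hu⟩ := hu t
    have h1 : Continuous fun t : AddCircle (1 : ℝ) => algebraMap ℂ B (fourier 1 t) - S :=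
      ((continuous_algebraMap ℂ B).comp (map_continuous (fourier 1))).sub continuous_const
    have h2 := NormedRing.inverse_continuousAt u
    rw [hu] at h2
    exact ContinuousAt.comp (f := fun t : AddCircle (1 : ℝ) => algebraMap ℂ B (fourier 1 t) - S)
      h2 h1.continuousAt
  have hi : ∀ k : ℤ, Integrable (fun t => fourier k t • R t) AddCircle.haarAddCircle := fun k =>
    ((map_continuous (fourier k)).smul hR).integrable_of_hasCompactSupport
      (HasCompactSupport.of_compactSpace _)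
  have h0 : ∀ k : ℤ, ∫ t : AddCircle (1 : ℝ), fourier (-k) t • (1 : B) ∂AddCircle.haarAddCircle =
      if k = 0 then 1 else 0 := by
    intro k
    rw [integral_smul_const]
    split_ifs with h
    · simp [h]
    · rw [integral_eq_zero_of_add_right_eq_neg (μ := AddCircle.haarAddCircle)
        (fourier_add_half_inv_index (neg_ne_zero.2 h) one_pos), zero_smul]
  have hf : ∀ (k : ℤ) (t : AddCircle (1 : ℝ)), fourier (-(k - 1)) t = fourier (-k) t * fourier 1 t := by
    intro k t
    rw [← fourier_add]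
    congr 2
    ring
  refine ⟨fourierCoeff R, fun k => ?_, fun k => ?_, ?_, fun ε hε => coeff_small R hR hε⟩
  · have h1 := (ContinuousLinearMap.mul ℂ B S).integral_comp_comm (hi (-k))
    simp only [ContinuousLinearMap.mul_apply'] at h1
    rw [fourierCoeff, fourierCoeff, ← h1, ← integral_sub (hi _) ((hi (-k)).const_mul S), ← h0 k]
    refine integral_congr_ae (ae_of_all _ fun t => ?_)
    have h2 := Ring.mul_inverse_cancel _ (hu t)
    simp only [hf, hRd]
    rw [← h2, sub_mul, Algebra.algebraMap_eq_smul_one, smul_mul_assoc, one_mul, smul_sub,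
      smul_smul, mul_smul_comm]
  · have h1 := ((ContinuousLinearMap.mul ℂ B).flip S).integral_comp_comm (hi (-k))
    simp only [ContinuousLinearMap.flip_apply, ContinuousLinearMap.mul_apply'] at h1
    rw [fourierCoeff, fourierCoeff, ← h1, ← integral_sub (hi _) ((hi (-k)).mul_const S), ← h0 k]
    refine integral_congr_ae (ae_of_all _ fun t => ?_)
    have h2 := Ring.inverse_mul_cancel _ (hu t)
    simp only [hf, hRd]
    rw [← h2, mul_sub, Algebra.algebraMap_eq_smul_one, mul_smul_comm, mul_one, smul_sub,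
      smul_smul, smul_mul_assoc]
  · obtain ⟨K, hK⟩ := isCompact_univ.exists_bound_of_continuousOn hR.continuousOn
    refine ⟨K, fun k => ?_⟩
    have := norm_integral_le_of_norm_le_const
      (μ := (AddCircle.haarAddCircle : Measure (AddCircle (1 : ℝ))))
      (f := fun t => fourier (-k) t • R t) (C := K) (ae_of_all _ fun t => by
        rw [norm_smul, fourier_apply, Circle.norm_coe, one_mul]
        exact hK t (Set.mem_univ t))
    simpa [fourierCoeff] using this

omit [NormedAlgebra ℂ B] [CompleteSpace B] in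
/-- No bounded two-sided orbits. -/
lemma green_unique {S : B} {C : ℤ → B} (h2 : ∀ k, C (k - 1) - C k * S = if k = 0 then 1 else 0)
    (h0 : ∀ ε : ℝ, 0 < ε → ∃ N : ℕ, ∀ k : ℤ, (N : ℤ) ≤ |k| → ‖C k‖ ≤ ε) (x : ℤ → B) (K : ℝ)
    (hx : ∀ k, ‖x k‖ ≤ K) (hrec : ∀ k, x (k - 1) = S * x k) (m : ℤ) : x m = 0 := by
  set g : ℤ → B := fun j => C (j - 1) * x (m - j) with hg
  have hstep : ∀ j, g j - g (j + 1) = (if j = 0 then 1 else 0) * x (m - j) := by
    intro j
    have e1 : m - (j + 1) = m - j - 1 := by ring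
    simp only [hg, add_sub_cancel_right, e1, hrec]
    rw [← h2 j, sub_mul, mul_assoc]
  have hK : 0 ≤ K := (norm_nonneg _).trans (hx 0)
  have hzero : ∀ (y : B) (s : ℕ → ℤ), (∀ n : ℕ, (n : ℤ) ≤ |s n - 1|) → (∀ n, g (s n) = y) → y = 0 := by
    intro y s hs hy
    rw [← norm_le_zero_iff]
    refine le_of_forall_pos_le_add fun ε hε => ?_
    obtain ⟨N, hN⟩ := h0 (ε / (K + 1)) (by positivity)
    rw [← hy N, zero_add]
    calc ‖g (s N)‖ ≤ ‖C (s N - 1)‖ * ‖x (m - s N)‖ := norm_mul_le _ _
      _ ≤ ε / (K + 1) * (K + 1) := by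
        gcongr
        · exact hN _ (hs N)
        · linarith [hx (m - s N)]
      _ = ε := by field_simp
  have hneg : g 0 = 0 := by
    refine hzero _ (fun n => -n) (fun n => by rw [le_abs]; omega) fun n => ?_
    induction n with
    | zero => simp
    | succ n ih =>
      have h := hstep (-((n + 1 : ℕ) : ℤ))
      rw [if_neg (by omega), zero_mul, sub_eq_zero] at h
      rw [h, ← ih]
      congr 1
      omega
  have hpos : g 1 = 0 := by
    refine hzero _ (fun n => n + 1) (fun n => by rw [le_abs]; omega) fun n => ?_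
    induction n with
    | zero => simp
    | succ n ih =>
      have h := hstep ((n : ℤ) + 1)
      rw [if_neg (by omega), zero_mul, sub_eq_zero] at h
      rw [← ih, h]
      congr 1
  have h := hstep 0
  rw [hneg, zero_add, hpos] at h
  simpa using h.symm

/-- The dichotomy projection. -/
lemma exists_dich (S : B) (hS : ∀ w : ℂ, ‖w‖ = 1 → IsUnit (algebraMap ℂ B w - S)) :
    ∃ Q D : B, Q * Q = Q ∧ S * D = 1 - Q ∧ D * S = 1 - Q ∧ D * Q = 0 ∧ Q * D = 0 ∧
      S * Q = Q * S ∧ Tendsto (fun n : ℕ => (S * Q) ^ n) atTop (𝓝 0) ∧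
      Tendsto (fun n : ℕ => D ^ n) atTop (𝓝 0) ∧
      ∀ (z : ℤ → B) (K : ℝ), (∀ k, ‖z k‖ ≤ K) → (∀ k, S * z k = z (k - 1) * S) →
        Q * z (-1) = z (-1) * Q := by
  obtain ⟨C, h1, h2, ⟨K, hK⟩, h0⟩ := exists_green S hS
  have hcomm : ∀ (z : ℤ → B) (L : ℝ), (∀ k, ‖z k‖ ≤ L) → (∀ k, S * z k = z (k - 1) * S) →
      ∀ k, C k * z (-1) = z k * C k := by
    intro z L hz hrec k
    rw [← sub_eq_zero]
    refine green_unique h2 h0 (fun k => C k * z (-1) - z k * C k) (K * L + L * K) (fun k => ?_)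
      (fun k => ?_) k
    · have hK0 : 0 ≤ K := (norm_nonneg _).trans (hK 0)
      have hL0 : 0 ≤ L := (norm_nonneg _).trans (hz 0)
      refine (norm_sub_le _ _).trans (add_le_add ((norm_mul_le _ _).trans ?_)
        ((norm_mul_le _ _).trans ?_))
      · gcongr
        exacts [hK _, hz _]
      · gcongr
        exacts [hz _, hK _]
    · have e := eq_add_of_sub_eq (h1 k)
      rw [e, mul_sub, ← mul_assoc S (z k), hrec]
      split_ifs with h
      · subst h
        simp only [zero_sub]
        noncomm_ring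
      · noncomm_ring
  have hSC : ∀ k, S * C k = C k * S := fun k => by
    have := (h1 k).trans (h2 k).symm
    exact sub_right_injective this
  have hCC : ∀ k, C k * C (-1) = C (-1) * C k := fun k =>
    hcomm (fun _ => C (-1)) K (fun _ => hK _) (fun _ => hSC _) k
  have hne : ∀ k, k ≠ 0 → C (k - 1) = S * C k := fun k hk => by
    have := h1 k
    rwa [if_neg hk, sub_eq_zero] at this
  have hz : C (-1) - S * C 0 = 1 := by simpa using h1 0
  have hx : ∀ k, (if 0 ≤ k then C k * C (-1) else C k * (C (-1) - 1)) = 0 := by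
    refine green_unique h2 h0 (fun k => if 0 ≤ k then C k * C (-1) else C k * (C (-1) - 1))
      (K * K + K * ‖C (-1) - 1‖) (fun k => ?_) (fun k => ?_)
    · have hK0 : 0 ≤ K := (norm_nonneg _).trans (hK 0)
      split_ifs
      · refine (norm_mul_le _ _).trans (le_add_of_le_of_nonneg ?_ (by positivity))
        gcongr
        exacts [hK _, hK _]
      · refine (norm_mul_le _ _).trans (le_add_of_nonneg_of_le (by positivity) ?_)
        gcongr
        exact hK _
    · rcases lt_trichotomy k 0 with h | h | h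
      · rw [if_neg (by omega), if_neg (by omega), hne k h.ne, mul_assoc]
      · subst h
        rw [if_neg (by omega), if_pos le_rfl, ← mul_assoc, zero_sub]
        have : S * C 0 = C (-1) - 1 := by rw [← hz]; abel
        rw [this]
        noncomm_ring
      · rw [if_pos (by omega), if_pos h.le, hne k h.ne', mul_assoc]
  have hQ : C (-1) * C (-1) = C (-1) := by
    have := hx (-1)
    rw [if_neg (by omega), mul_sub, mul_one, sub_eq_zero] at this
    exact this
  have hCQ : ∀ k, 0 ≤ k → C k * C (-1) = 0 := fun k hk => by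
    have := hx k
    rwa [if_pos hk] at this
  have hSD : S * -C 0 = 1 - C (-1) := by rw [← hz]; noncomm_ring
  have hDS : -C 0 * S = 1 - C (-1) := by rw [← hSD, neg_mul, mul_neg, hSC]
  have hlim : ∀ (y : ℕ → B) (s : ℕ → ℤ), (∀ n : ℕ, (n : ℤ) ≤ |s n|) →
      (∀ n, ‖y (n + 1)‖ = ‖C (s n)‖) → Tendsto y atTop (𝓝 0) := by
    intro y s hs hy
    rw [← tendsto_add_atTop_iff_nat 1, NormedAddGroup.tendsto_nhds_zero]
    intro ε hε
    obtain ⟨N, hN⟩ := h0 (ε / 2) (by positivity)
    filter_upwards [eventually_ge_atTop N] with n hn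
    rw [hy]
    exact lt_of_le_of_lt (hN _ (le_trans (by exact_mod_cast hn) (hs n))) (by linarith)
  refine ⟨C (-1), -C 0, hQ, hSD, hDS, by rw [neg_mul, hCQ 0 le_rfl, neg_zero],
    by rw [mul_neg, ← hCC, hCQ 0 le_rfl, neg_zero], hSC _, ?_, ?_,
    fun z L hz hrec => hcomm z L hz hrec (-1)⟩
  · refine hlim _ (fun n => -n - 2) (fun n => by rw [le_abs]; omega) fun n => ?_
    congr 1
    induction n with
    | zero => simpa using (hne (-1) (by omega)).symm
    | succ n ih =>
      have e : -((n + 1 : ℕ) : ℤ) - 2 = -(n : ℤ) - 2 - 1 := by omega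
      rw [e, hne _ (by omega), ← ih, pow_succ' _ (n + 1), pow_succ' _ n, mul_assoc S, ← mul_assoc (C (-1)),
        ← mul_assoc (C (-1)), ← hSC, mul_assoc S, hQ]
  · refine hlim _ (fun n => n) (fun n => by rw [le_abs]; omega) fun n => ?_
    rw [← norm_neg (C n)]
    congr 1
    induction n with
    | zero => simp
    | succ n ih =>
      have e : (n : ℤ) = ((n + 1 : ℕ) : ℤ) - 1 := by omega
      rw [pow_succ', ih, e, hne _ (by omega), mul_neg, ← mul_assoc, hDS, sub_mul, ← hCC,
        hCQ _ (by omega), one_mul, sub_zero]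

/-- Subexponential growth of the powers. -/
def Subexp (y : B) : Prop := ∀ c : ℝ, 1 < c → ∀ᶠ n : ℕ in atTop, ‖y ^ n‖ ≤ c ^ n

lemma pow_le_of_radius {y : B} {c : ℝ} (h : spectralRadius ℂ y < ENNReal.ofReal c) :
    ∀ᶠ n : ℕ in atTop, ‖y ^ n‖ ≤ c ^ n := by
  have hc : 0 < c := ENNReal.ofReal_pos.1 (lt_of_le_of_lt zero_le h)
  filter_upwards [(spectrum.pow_norm_pow_one_div_tendsto_nhds_spectralRadius y).eventually
    (gt_mem_nhds h), eventually_gt_atTop 0] with n hn hn0
  rw [ENNReal.ofReal_lt_ofReal_iff hc, one_div] at hn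
  rw [← Real.rpow_inv_natCast_pow (norm_nonneg (y ^ n)) hn0.ne']
  exact pow_le_pow_left₀ (by positivity) hn.le n

lemma subexp_of_spectrum {y : B} (h : ∀ μ ∈ spectrum ℂ y, ‖μ‖ ≤ 1) : Subexp y := by
  intro c hc
  refine pow_le_of_radius (lt_of_le_of_lt (b := 1) ?_ (ENNReal.one_lt_ofReal.2 hc))
  refine iSup₂_le fun μ hμ => ?_
  exact_mod_cast h μ hμ

omit [NormedAlgebra ℂ B] [CompleteSpace B] in
lemma Subexp.pow {y : B} (h : Subexp y) (m : ℕ) : Subexp (y ^ (m + 1)) := by
  intro c hc
  have h1 : 1 < c ^ (((m + 1 : ℕ) : ℝ)⁻¹) := Real.one_lt_rpow hc (by positivity)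
  have h2 : Tendsto (fun k : ℕ => (m + 1) * k) atTop atTop :=
    tendsto_atTop_mono (fun k => Nat.le_mul_of_pos_left k (Nat.succ_pos m)) tendsto_id
  filter_upwards [h2.eventually (h _ h1)] with k hk
  rwa [pow_mul, pow_mul, Real.rpow_inv_natCast_pow (by linarith) (Nat.succ_ne_zero m)] at hk

omit [NormedAlgebra ℂ B] [CompleteSpace B] in
lemma Subexp.geom {y : B} (h : Subexp y) {ρ : ℝ} (h0 : 0 ≤ ρ) (h1 : ρ < 1) :
    Tendsto (fun n : ℕ => ρ ^ n * ‖y ^ n‖) atTop (𝓝 0) := by
  have hc : 1 < 2 / (1 + ρ) := by rw [lt_div_iff₀ (by linarith)]; linarith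
  have hr : ρ * (2 / (1 + ρ)) < 1 := by
    rw [← mul_div_assoc, div_lt_one (by linarith)]; linarith
  refine squeeze_zero' (Eventually.of_forall fun n => by positivity) ?_
    (tendsto_pow_atTop_nhds_zero_of_lt_one (by positivity) hr)
  filter_upwards [h _ hc] with n hn
  rw [mul_pow]
  gcongr

lemma small_prod {x y : B} (hx : Tendsto (fun n : ℕ => x ^ n) atTop (𝓝 0)) (hy : Subexp y) :
    Tendsto (fun n : ℕ => ‖x ^ n‖ * ‖y ^ n‖) atTop (𝓝 0) := by
  have hr : spectralRadius ℂ x < 1 := by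
    rcases subsingleton_or_nontrivial B with hB | hB
    · simp [spectrum.SpectralRadius.of_subsingleton]
    · refine spectrum.spectralRadius_lt_of_forall_lt x (r := 1) fun μ hμ => ?_
      by_contra hc
      have h1 : 1 ≤ ‖μ‖ := by exact_mod_cast not_lt.1 hc
      have h2 : Tendsto (fun n : ℕ => ‖x ^ n‖ * ‖(1 : B)‖) atTop (𝓝 0) := by
        simpa using hx.norm.mul_const ‖(1 : B)‖
      obtain ⟨n, hn⟩ := (h2.eventually (gt_mem_nhds one_pos)).exists
      have h3 := spectrum.norm_le_norm_mul_of_mem (spectrum.pow_mem_pow x n hμ)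
      rw [norm_pow] at h3
      linarith [one_le_pow₀ (n := n) h1]
  obtain ⟨ρ, h0, h1, h2⟩ := ENNReal.lt_iff_exists_real_btwn.1 hr
  refine squeeze_zero' (Eventually.of_forall fun n => by positivity) ?_
    (hy.geom h0 (ENNReal.ofReal_lt_one.1 h2))
  filter_upwards [pow_le_of_radius h1] with n hn
  gcongr

end Pool.Agent.MP_4998f1_an.Cls
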