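import Mathlib
import Pool.Agent.MP_4998f1_an.ClsGreen

set_option autoImplicit false

open Filter Topology

namespace Pool.Agent.MP_4998f1_an.Cls

variable {A B : Type} [NormedCommRing A] [NormedAlgebra ℂ A] [NormedRing B] [NormedAlgebra ℂ B]

/-- An isometric covariant representation of `(A, τ)` in `B` with subexponential shift. -/
structure Sys (ι : A →ₐ[ℂ] B) (U : Bˣ) (τ : A ≃ₐ[ℂ] A) : Prop where
  iso : ∀ b, ‖ι b‖ = ‖b‖
  tiso : ∀ b, ‖τ b‖ = ‖b‖
  conj : ∀ b, ι (τ b) * U.val = U.val * ι b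
  sub : Subexp U.val
  sub' : Subexp (U⁻¹).val

variable {ι : A →ₐ[ℂ] B} {U : Bˣ} {τ : A ≃ₐ[ℂ] A}

lemma Sys.inv (h : Sys ι U τ) : Sys ι U⁻¹ τ⁻¹ := by
  have e : ∀ b, τ (τ⁻¹ b) = b := fun b => τ.apply_symm_apply b
  refine ⟨h.iso, fun b => by rw [← h.tiso, e], fun b => ?_, h.sub', by simpa using h.sub⟩
  have h1 := h.conj (τ⁻¹ b)
  rw [e] at h1
  rw [Units.mul_inv_eq_iff_eq_mul, mul_assoc, h1, Units.inv_mul_cancel_left]

lemma Sys.nat (h : Sys ι U τ) (n : ℕ) (b : A) :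
    ‖(τ ^ n) b‖ = ‖b‖ ∧ ι ((τ ^ n) b) * (U ^ n).val = (U ^ n).val * ι b := by
  induction n generalizing b with
  | zero => simp
  | succ n ih =>
    rw [pow_succ, pow_succ, AlgEquiv.mul_apply, Units.val_mul, ← mul_assoc, (ih _).1, (ih _).2,
      mul_assoc, mul_assoc, h.conj, h.tiso]
    exact ⟨rfl, rfl⟩

lemma Sys.int (h : Sys ι U τ) (j : ℤ) (b : A) :
    ‖(τ ^ j) b‖ = ‖b‖ ∧ ι ((τ ^ j) b) * (U ^ j).val = (U ^ j).val * ι b := by
  obtain ⟨n, rfl | rfl⟩ := Int.eq_nat_or_neg j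
  · simpa only [zpow_natCast] using h.nat n b
  · simpa only [zpow_neg, zpow_natCast, inv_pow] using h.inv.nat n b

lemma Sys.pow (h : Sys ι U τ) (n : ℕ) : Sys ι (U ^ (n + 1)) (τ ^ (n + 1)) :=
  ⟨h.iso, fun b => (h.nat _ b).1, fun b => (h.nat _ b).2,
    by simpa only [Units.val_pow_eq_pow_val] using h.sub.pow n,
    by simpa only [← inv_pow, Units.val_pow_eq_pow_val] using h.sub'.pow n⟩

lemma Sys.rot (h : Sys ι U τ) (ω : ℂˣ) (hω : ‖ω.val‖ = 1) : Sys ι (ω • U) τ := by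
  have e : ∀ (c : ℂ) (y : B), ‖c‖ = 1 → Subexp y → Subexp (c • y) := fun c y hc hy r hr => by
    filter_upwards [hy r hr] with n hn
    rwa [smul_pow, norm_smul, norm_pow, hc, one_pow, one_mul]
  refine ⟨h.iso, h.tiso, fun b => ?_, e _ _ hω h.sub, ?_⟩
  · change ι (τ b) * (ω.val • U.val) = (ω.val • U.val) * ι b
    rw [mul_smul_comm, smul_mul_assoc, h.conj]
  · exact e (ω⁻¹).val _ (by simp [hω]) h.sub'

/-- The cocycle `a · τ a ⋯ τ^(n-1) a`. -/
def wt (τ : A ≃ₐ[ℂ] A) (a : A) : ℕ → A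
  | 0 => 1
  | n + 1 => a * τ (wt τ a n)

lemma Sys.pow_eq (h : Sys ι U τ) (a : A) (n : ℕ) :
    (ι a * U.val) ^ n = ι (wt τ a n) * (U ^ n).val := by
  induction n with
  | zero => simp [wt]
  | succ n ih =>
    rw [pow_succ', ih, wt, map_mul, pow_succ', Units.val_mul, mul_assoc, mul_assoc,
      ← mul_assoc (ι (τ _)), h.conj, mul_assoc]

lemma Sys.norm_wt (h : Sys ι U τ) (a : A) (n : ℕ) : ‖wt τ a (n + 1)‖ ≤ ‖a‖ ^ (n + 1) := by
  induction n with
  | zero => simp [wt]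
  | succ n ih =>
    rw [wt, pow_succ']
    refine (norm_mul_le _ _).trans ?_
    rw [h.tiso]
    gcongr

/-- The intrinsic form of hyperbolicity. -/
def Dich (τ : A ≃ₐ[ℂ] A) (a : A) : Prop :=
  ∃ (n : ℕ) (e g : A), e * e = e ∧ τ e = e ∧ ‖wt τ a (n + 1) * e‖ < 1 ∧
    wt τ a (n + 1) * g = 1 - e ∧ g * e = 0 ∧ ‖g‖ < 1

variable [CompleteSpace B]

lemma Sys.isUnit_one_sub (h : Sys ι U τ) {c : A} (hc : ‖c‖ < 1) : IsUnit (1 - ι c * U.val) := by
  obtain ⟨n, hn⟩ := (((tendsto_add_atTop_iff_nat 1).2 (h.sub.geom (norm_nonneg c) hc)).eventually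
    (gt_mem_nhds one_pos)).exists
  have h1 : ‖(ι c * U.val) ^ (n + 1)‖ < 1 := by
    rw [h.pow_eq, Units.val_pow_eq_pow_val]
    refine lt_of_le_of_lt ((norm_mul_le _ _).trans ?_) hn
    rw [h.iso]
    gcongr
    exact h.norm_wt c n
  have h2 : IsUnit (1 - (ι c * U.val) ^ (n + 1)) := (Units.oneSub _ h1).isUnit
  rw [← mul_neg_geom_sum] at h2
  refine ((Commute.isUnit_mul_iff ?_).1 h2).1
  rw [Commute, SemiconjBy, mul_neg_geom_sum, geom_sum_mul_neg]

theorem Sys.hyp_of_dich (h : Sys ι U τ) {a : A} (hD : Dich τ a) {w : ℂ} (hw : ‖w‖ = 1) :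
    IsUnit (algebraMap ℂ B w - ι a * U.val) := by
  obtain ⟨n, e, g, hee, hτ, h1, h2, h3, h4⟩ := hD
  by_contra hc
  have h5 := spectrum.pow_mem_pow _ (n + 1) (spectrum.mem_iff.2 hc)
  rw [spectrum.mem_iff, h.pow_eq] at h5
  apply h5
  have hp := h.pow n
  have hτ' : (τ ^ (n + 1)) e = e := by
    rw [AlgEquiv.coe_pow]
    exact Function.iterate_fixed hτ _
  set b := wt τ a (n + 1)
  set W := U ^ (n + 1)
  set σ := τ ^ (n + 1)
  set v := w ^ (n + 1) with hv
  have hv1 : ‖v‖ = 1 := by rw [hv, norm_pow, hw, one_pow]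
  have hv0 : v ≠ 0 := by
    intro h0
    simp [h0] at hv1
  have hEW : ι e * W.val = W.val * ι e := by simpa only [hτ'] using hp.conj e
  have hEW' : ι e * (W⁻¹).val = (W⁻¹).val * ι e := by
    rw [Units.mul_inv_eq_iff_eq_mul, mul_assoc, hEW, Units.inv_mul_cancel_left]
  have u1 : IsUnit (1 - v⁻¹ • (ι (b * e) * W.val)) := by
    have := hp.isUnit_one_sub (c := v⁻¹ • (b * e)) (by rwa [norm_smul, norm_inv, hv1, inv_one, one_mul])
    rwa [map_smul, smul_mul_assoc] at this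
  have u2 : IsUnit (1 - v • ((W⁻¹).val * ι g)) := by
    have := hp.inv.isUnit_one_sub (c := v • σ⁻¹ g)
      (by rwa [norm_smul, hv1, one_mul, hp.inv.tiso])
    rwa [map_smul, smul_mul_assoc, hp.inv.conj] at this
  have hE : ι e * ι e = ι e := by rw [← map_mul, hee]
  have u3 : IsUnit (1 - ι e + v • ι e) := by
    have q : ∀ s t : ℂ, s * t = 1 → (1 - ι e + s • ι e) * (1 - ι e + t • ι e) = 1 := by
      intro s t hst
      simp only [mul_add, add_mul, mul_sub, sub_mul, mul_one, one_mul, mul_smul_comm,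
        smul_mul_assoc, hE, smul_smul, smul_add, smul_sub, mul_comm t s, hst, one_smul]
      abel
    exact ⟨⟨_, _, q v v⁻¹ (mul_inv_cancel₀ hv0), q v⁻¹ v (inv_mul_cancel₀ hv0)⟩, rfl⟩
  set E := ι e
  set V1 := ι (b * e) * W.val with hV1
  set V2 := (W⁻¹).val * ι g with hV2
  set N := ι b * W.val with hN
  have r1 : N * E = V1 := by rw [hN, hV1, mul_assoc, ← hEW, map_mul, mul_assoc]
  have r2 : E * N = V1 := by rw [hN, hV1, ← mul_assoc, ← map_mul, mul_comm e]
  have r3 : N * V2 = 1 - E := by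
    rw [hN, hV2, mul_assoc, Units.mul_inv_cancel_left, ← map_mul, h2, map_sub, map_one]
  have r4 : V2 * N = 1 - E := by
    rw [hN, hV2, mul_assoc, ← mul_assoc (ι g), ← map_mul, mul_comm g, h2, map_sub, map_one, sub_mul,
      one_mul, hEW, mul_sub, Units.inv_mul, Units.inv_mul_cancel_left]
  have r5 : V2 * E = 0 := by rw [hV2, mul_assoc, ← map_mul, h3, map_zero, mul_zero]
  have r6 : V1 * E = V1 := by rw [← r1, mul_assoc, hE]
  have r7 : V2 * V1 = 0 := by rw [← r2, ← mul_assoc, r5, zero_mul]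
  have key : (algebraMap ℂ B v - N) * (E - V2) =
      (1 - v • V2) * (1 - v⁻¹ • V1) * (1 - E + v • E) := by
    simp only [Algebra.algebraMap_eq_smul_one, mul_add, mul_sub, sub_mul, mul_one, one_mul,
      mul_smul_comm, smul_mul_assoc, r1, r3, r5, r6, r7, smul_zero, smul_smul, smul_sub, zero_mul,
      mul_inv_cancel₀ hv0, one_smul]
    abel
  have u4 := (u2.mul u1).mul u3
  rw [← key] at u4
  refine ((Commute.isUnit_mul_iff ?_).1 u4).1
  refine Commute.sub_left (Algebra.commute_algebraMap_left _ _) (Commute.sub_right ?_ ?_)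
  · exact r1.trans r2.symm
  · exact r3.trans r4.symm

omit [NormedAlgebra ℂ B] in
lemma approx_inverse {x y Q N D : B} {W : Bˣ} {δ : ℝ} (hQ : Q * Q = Q) (hx : x * W.val = N)
    (hy : W.val * y = N) (hxQ : x * Q = Q * x) (hyQ : y * Q = Q * y) (h1 : N * D = 1 - Q)
    (h2 : D * N = 1 - Q) (hδ : δ ≤ 1 / 4) (n1 : ‖x * Q‖ ≤ δ) (n2 : ‖y * Q‖ ≤ δ)
    (n3 : ‖(1 - Q) * W.val * D‖ ≤ δ) (n4 : ‖D * W.val * (1 - Q)‖ ≤ δ) :
    IsUnit (1 - x) ∧ ∀ z, z * (1 - x) = 1 → ‖z - Q‖ ≤ (4 * ‖Q‖ + 2) * δ := by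
  have hP : (1 - Q) * (1 - Q) = 1 - Q := by rw [sub_mul, one_mul, mul_sub, mul_one, hQ, sub_self, sub_zero]
  have e1 : x * ((1 - Q) * W.val * D) = 1 - Q := by
    have : x * (1 - Q) = (1 - Q) * x := by rw [mul_sub, sub_mul, hxQ, mul_one, one_mul]
    rw [← mul_assoc, ← mul_assoc, this, mul_assoc _ x, hx, mul_assoc, h1, hP]
  have e2 : D * W.val * (1 - Q) * y = 1 - Q := by
    have : (1 - Q) * y = y * (1 - Q) := by rw [mul_sub, sub_mul, hyQ, mul_one, one_mul]
    rw [mul_assoc, this, mul_assoc, ← mul_assoc W.val, hy, ← mul_assoc, h2, hP]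
  have f1 : (1 - x) * (Q - (1 - Q) * W.val * D) = 1 - (x * Q + (1 - Q) * W.val * D) := by
    rw [sub_mul, one_mul, mul_sub, e1]; abel
  have f2 : (Q - D * W.val * (1 - Q)) * (1 - y) = 1 - (y * Q + D * W.val * (1 - Q)) := by
    rw [mul_sub, mul_one, sub_mul, e2, hyQ]; abel
  have m1 : ‖x * Q + (1 - Q) * W.val * D‖ ≤ 2 * δ := (norm_add_le _ _).trans (by linarith)
  have m2 : ‖y * Q + D * W.val * (1 - Q)‖ ≤ 2 * δ := (norm_add_le _ _).trans (by linarith)
  constructor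
  · obtain ⟨u, hu⟩ := (Units.oneSub _ (lt_of_le_of_lt m1 (by linarith))).isUnit
    obtain ⟨u', hu'⟩ := (Units.oneSub _ (lt_of_le_of_lt m2 (by linarith))).isUnit
    rw [Units.val_oneSub, ← f1] at hu
    rw [Units.val_oneSub, ← f2] at hu'
    rw [isUnit_iff_exists_and_exists]
    refine ⟨⟨(Q - (1 - Q) * W.val * D) * (u⁻¹).val, by rw [← mul_assoc, ← hu, Units.mul_inv]⟩,
      W.val * ((u'⁻¹).val * (Q - D * W.val * (1 - Q))) * (W⁻¹).val, ?_⟩
    have : (W⁻¹).val * (1 - x) = (1 - y) * (W⁻¹).val := by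
      rw [Units.eq_mul_inv_iff_mul_eq, mul_assoc, sub_mul, one_mul, hx, ← hy, mul_sub,
        Units.inv_mul, Units.inv_mul_cancel_left]
    rw [mul_assoc, this, ← mul_assoc, mul_assoc W.val, mul_assoc (u'⁻¹).val, ← hu', Units.inv_mul,
      mul_one, Units.mul_inv]
  · intro z hz
    have e3 : z - Q = (z - Q) * (x * Q + (1 - Q) * W.val * D) +
        Q * (x * Q + (1 - Q) * W.val * D) - (1 - Q) * W.val * D := by
      have := congrArg (z * ·) f1
      simp only [← mul_assoc, hz, one_mul] at this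
      rw [← add_mul, sub_add_cancel, eq_sub_iff_add_eq]
      rw [mul_sub, mul_one, sub_eq_iff_eq_add, sub_add_eq_add_sub, eq_sub_iff_add_eq] at this
      rw [sub_add_eq_add_sub, ← this]
      abel
    have n5 : ‖z - Q‖ ≤ ‖z - Q‖ * (2 * δ) + ‖Q‖ * (2 * δ) + δ := by
      conv_lhs => rw [e3]
      refine (norm_sub_le _ _).trans (add_le_add ((norm_add_le _ _).trans (add_le_add
        ((norm_mul_le _ _).trans ?_) ((norm_mul_le _ _).trans ?_))) n3) <;> gcongr
    nlinarith [norm_nonneg (z - Q)]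

variable [CompleteSpace A]

theorem Sys.dich_of_hyp (h : Sys ι U τ) (hinv : ∀ b, IsUnit (ι b) → IsUnit b) {a : A}
    (hS : ∀ w : ℂ, ‖w‖ = 1 → IsUnit (algebraMap ℂ B w - ι a * U.val)) : Dich τ a := by
  obtain ⟨Q, D, hQ, hSD, hDS, hDQ, hQD, hSQ, l1, l2, hcomm⟩ := exists_dich _ hS
  have hS : ∀ c, ι a * U.val * ι c = ι (τ c) * (ι a * U.val) := fun c => by
    rw [mul_assoc, ← h.conj, ← mul_assoc, ← mul_assoc, ← map_mul, ← map_mul, mul_comm a]
  have hQι : ∀ b, Q * ι b = ι b * Q := fun b => by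
    have := hcomm (fun k => ι ((τ ^ (-1 - k)) b)) ‖b‖ (fun k => by rw [h.iso, (h.int _ b).1])
      (fun k => by
        have e : -1 - (k - 1) = 1 + (-1 - k) := by ring
        rw [hS, e, zpow_one_add, AlgEquiv.mul_apply])
    simpa using this
  have hiso : Isometry ι := AddMonoidHomClass.isometry_of_norm ι h.iso
  set S := ι a * U.val with hSd
  have hSn : ∀ n : ℕ, S ^ (n + 1) * Q = (S * Q) ^ (n + 1) := fun n => by
    rw [Commute.mul_pow hSQ, (IsIdempotentElem.pow_succ_eq n hQ)]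
  have hP : ∀ n : ℕ, (1 - Q) ^ (n + 1) = 1 - Q := fun n =>
    IsIdempotentElem.pow_succ_eq n (IsIdempotentElem.one_sub hQ)
  have hc : Commute S D := hSD.trans hDS.symm
  have key : ∀ ε : ℝ, 0 < ε → ∃ (n : ℕ) (w : A), (1 - wt τ a (n + 1)) * w = 1 ∧ ‖ι w - Q‖ ≤ ε ∧
      ‖ι (wt τ a (n + 1)) * Q‖ ≤ ε := by
    intro ε hε
    set δ := min (1 / 4) (ε / (4 * ‖Q‖ + 2)) with hδ
    have hδ0 : 0 < δ := by positivity
    have t1 := (tendsto_add_atTop_iff_nat 1).2 (small_prod l1 h.sub')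
    have t2 := (tendsto_add_atTop_iff_nat 1).2 ((small_prod l2 h.sub).mul_const ‖1 - Q‖)
    rw [zero_mul] at t2
    obtain ⟨n, a1, a2⟩ := ((t1.eventually (gt_mem_nhds hδ0)).and
      (t2.eventually (gt_mem_nhds hδ0))).exists
    have hp := h.pow n
    have hN := (h.pow_eq a (n + 1)).symm
    rw [← Units.val_pow_eq_pow_val, inv_pow] at a1
    rw [← Units.val_pow_eq_pow_val] at a2
    set W := U ^ (n + 1)
    set b := wt τ a (n + 1)
    have hy : W.val * ι ((τ ^ (n + 1))⁻¹ b) = S ^ (n + 1) := by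
      rw [← hp.conj, ← hN]
      congr 2
      exact (τ ^ (n + 1)).apply_symm_apply b
    have n1 : ‖ι b * Q‖ ≤ δ := by
      have e : ι b * Q = (S * Q) ^ (n + 1) * (W⁻¹).val := by
        rw [← hSn, (Commute.pow_left hSQ (n + 1)).eq, ← hN, ← hQι, mul_assoc,
          Units.mul_inv_cancel_right]
      rw [e]
      exact (norm_mul_le _ _).trans a1.le
    obtain ⟨hu, hz⟩ := approx_inverse (D := D ^ (n + 1)) (δ := δ) hQ hN hy (hQι _).symm (hQι _).symm
      (by rw [← hc.mul_pow, hSD, hP]) (by rw [← hc.symm.mul_pow, hDS, hP]) (min_le_left _ _) n1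
      (by
        have e : ι ((τ ^ (n + 1))⁻¹ b) * Q = (W⁻¹).val * (S * Q) ^ (n + 1) := by
          rw [← hSn, ← hy, mul_assoc, Units.inv_mul_cancel_left]
        rw [e]
        exact (norm_mul_le _ _).trans (by rw [mul_comm]; exact a1.le))
      (by
        refine (norm_mul₃_le).trans (le_trans (le_of_eq ?_) a2.le)
        ring)
      ((norm_mul₃_le).trans a2.le)
    obtain ⟨u, hu'⟩ := hinv (1 - b) (by rwa [map_sub, map_one])
    have hw : (1 - b) * (u⁻¹).val = 1 := by rw [← hu', Units.mul_inv]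
    have hq : δ ≤ ε / (4 * ‖Q‖ + 2) := min_le_right _ _
    rw [le_div_iff₀ (by positivity)] at hq
    refine ⟨n, (u⁻¹).val, hw, (hz _ ?_).trans (by linarith), n1.trans ?_⟩
    · rw [← map_one ι, ← map_sub, ← map_mul, mul_comm, hw]
    · nlinarith [norm_nonneg Q]
  obtain ⟨e, rfl⟩ : Q ∈ Set.range ι := by
    rw [← hiso.isClosedEmbedding.isClosed_range.closure_eq, Metric.mem_closure_iff]
    intro ε hε
    obtain ⟨n, w, -, h1, -⟩ := key (ε / 2) (by positivity)
    exact ⟨ι w, ⟨w, rfl⟩, by rw [dist_comm, dist_eq_norm]; linarith⟩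
  have hee : e * e = e := hiso.injective (by rw [map_mul, hQ])
  obtain ⟨n, w, k1, k2, k3⟩ := key (1 / (4 * (‖1 - e‖ + 1))) (by positivity)
  have hk : ‖(1 - e) * w‖ ≤ 1 / 4 := by
    have e1 : (1 - e) * w = (1 - e) * (w - e) := by linear_combination hee - hee - hee + hee - hee
    rw [← map_sub, h.iso, le_div_iff₀ (by positivity)] at k2
    rw [e1]
    refine (norm_mul_le _ _).trans ?_
    nlinarith [norm_nonneg (1 - e), norm_nonneg (w - e)]
  obtain ⟨u, hu⟩ := (Units.oneSub _ (lt_of_le_of_lt hk (by norm_num))).isUnit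
  rw [Units.val_oneSub] at hu
  have hu1 : (1 - (1 - e) * w) * (u⁻¹).val = 1 := by rw [← hu, Units.mul_inv]
  have hg : wt τ a (n + 1) * (-((1 - e) * w) * (u⁻¹).val) = 1 - e := by
    linear_combination (1 - e) * hu1 + (1 - e) * (u⁻¹).val * k1 + (w * (u⁻¹).val) * hee
  have hae : a * τ e = a * e := by
    apply hiso.injective
    have e1 := hS e
    rw [hSQ, hSd, ← mul_assoc, ← mul_assoc, Units.mul_left_inj, ← map_mul, ← map_mul] at e1
    rw [mul_comm a, mul_comm a, e1]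
  have hτ : τ e = e := by
    have e1 : (1 - e) * τ e = 0 := by
      rw [wt] at hg
      linear_combination (-(1 - e) * τ e) * hg +
        ((1 - e) * τ (wt τ a n) * (-((1 - e) * w) * (u⁻¹).val)) * hae - τ e * hee -
        (a * τ (wt τ a n) * (-((1 - e) * w) * (u⁻¹).val)) * hee
    have e2 : τ (τ⁻¹ e * (1 - e)) = e * (1 - τ e) := by
      rw [map_mul, map_sub, map_one]
      congr 1
      exact τ.apply_symm_apply e
    have e3 : S * ι (τ⁻¹ e * (1 - e)) = 0 := by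
      rw [hS, e2, hSd, ← mul_assoc, ← map_mul]
      have : e * (1 - τ e) * a = 0 := by linear_combination (-e) * hae - a * hee
      rw [this, map_zero, zero_mul]
    have e4 : τ⁻¹ e * (1 - e) = 0 := by
      apply hiso.injective
      have : (1 - e) * (τ⁻¹ e * (1 - e)) = τ⁻¹ e * (1 - e) := by linear_combination τ⁻¹ e * hee
      rw [← this, map_mul, map_sub, map_one, ← hDS, mul_assoc, e3, mul_zero, map_zero]
    rw [e4, map_zero] at e2
    linear_combination e1 + e2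
  refine ⟨n, e, _, hee, hτ, ?_, hg, by linear_combination (w * (u⁻¹).val) * hee, ?_⟩
  · rw [← map_mul, h.iso] at k3
    refine lt_of_le_of_lt k3 ?_
    rw [div_lt_one (by positivity)]
    linarith [norm_nonneg (1 - e)]
  · set g := -((1 - e) * w) * (u⁻¹).val with hgd
    have e1 : g = (1 - e) * w * g - (1 - e) * w := by
      rw [hgd]
      linear_combination (-((1 - e) * w)) * hu1
    have e2 : ‖g‖ ≤ ‖(1 - e) * w‖ * ‖g‖ + ‖(1 - e) * w‖ := by
      conv_lhs => rw [e1]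
      exact (norm_sub_le _ _).trans (add_le_add (norm_mul_le _ _) le_rfl)
    nlinarith [norm_nonneg g]

end Pool.Agent.MP_4998f1_an.Cls
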