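import Mathlib

set_option autoImplicit false

namespace Pool.Agent.MP_4998f1_an

variable {X A : Type} [NormedAddCommGroup X] [NormedSpace ℂ X] [NormedRing A] [NormedAlgebra ℂ A]

/-- `A` is a uniform algebra, represented isometrically by `ι` as an algebra of operators on `X`,
and `T` is the map `b ↦ U b U⁻¹`, which maps `A` onto `A`. -/
structure IsShiftSystem (ι : A →ₐ[ℂ] (X →L[ℂ] X)) (U : (X →L[ℂ] X)ˣ) (T : A →L[ℂ] A) : Prop where
  isometry : ∀ b : A, ‖ι b‖ = ‖b‖
  comm : ∀ b c : A, b * c = c * b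
  uniform : ∀ b : A, ‖b * b‖ = ‖b‖ ^ 2
  conj : ∀ b : A, ι (T b) = U.val * ι b * U.inv
  surj : Function.Surjective T

/-- `K` is a closed boundary of `A`: a closed set of characters on which every element of `A`
attains the maximum of its modulus over all characters. -/
def IsClosedBoundary (K : Set (WeakDual.characterSpace ℂ A)) : Prop :=
  IsClosed K ∧ ∀ b : A, ∃ χ ∈ K, ∀ ψ : WeakDual.characterSpace ℂ A, ‖ψ b‖ ≤ ‖χ b‖

/-- The character `χ` is periodic for the map `χ ↦ χ ∘ T`. -/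
def IsPeriodicChar (T : A →L[ℂ] A) (χ : WeakDual.characterSpace ℂ A) : Prop :=
  ∃ n : ℕ, 0 < n ∧ ∀ b : A, χ (T^[n] b) = χ b

variable (X A) in
/-- `A` acts on `X` as a uniform algebra of operators with a shift-type operator `U` satisfying
conditions 1, 2 and 3, and for some invertible weight `a` the number `1` lies in the spectrum of
`b ↦ a * T b` on `A` but not in the spectrum of `a U` on `X`. -/
def SpectraDiffer : Prop :=
  ∃ (ι : A →ₐ[ℂ] (X →L[ℂ] X)) (U : (X →L[ℂ] X)ˣ) (T : A →L[ℂ] A) (a : A),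
    IsShiftSystem ι U T ∧ (∃ K, IsClosedBoundary K ∧ ∀ χ ∈ K, ¬ IsPeriodicChar T χ) ∧
    spectrum ℂ U.val ⊆ Metric.sphere 0 1 ∧ (∀ b : A, IsUnit (ι b) → IsUnit b) ∧ IsUnit a ∧
    (1 : ℂ) ∈ spectrum ℂ ((ContinuousLinearMap.mul ℂ A a).comp T) ∧
    (1 : ℂ) ∉ spectrum ℂ (ι a * U.val)

end Pool.Agent.MP_4998f1_an
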