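import Mathlib
import Pool.Agent.MP_4998f1_an.OwnDefs
import Pool.Agent.MP_4998f1_an.ClsDich

set_option autoImplicit false

open Filter Topology

namespace Pool.Agent.MP_4998f1_an.Cls

variable {A B : Type} [NormedCommRing A] [NormedAlgebra ℂ A] [NormedRing B] [NormedAlgebra ℂ B]

/-- Localising elements with almost orthogonal translates. -/
def Kish (τ : A ≃ₐ[ℂ] A) : Prop :=
  ∀ (f₀ : A) (N : ℕ) (δ : ℝ), ‖f₀‖ = 1 → 0 < δ → ∃ f : A, ‖f‖ ≤ 1 ∧ 1 / 2 ≤ ‖f * f * f₀‖ ∧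
    ∀ j : ℕ, j < N → ‖f * (τ ^ (j + 1)) f‖ ≤ δ

lemma norm_sum_pow_le {c : ℂ} (hc : ‖c‖ ≤ 1) (n : ℕ) (m : ℕ → ℕ) (y : ℕ → B) (k : ℕ → ℝ) {ε : ℝ}
    (h : ∀ j < n, ‖y j‖ ≤ ε * k j) :
    ‖∑ j ∈ Finset.range n, c ^ m j • y j‖ ≤ ε * ∑ j ∈ Finset.range n, k j := by
  rw [Finset.mul_sum]
  refine norm_sum_le_of_le _ fun j hj => ?_
  rw [norm_smul, norm_pow]
  exact (mul_le_of_le_one_left (norm_nonneg _) (pow_le_one₀ (norm_nonneg _) hc)).trans
    (h j (Finset.mem_range.1 hj))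

variable {ι : A →ₐ[ℂ] B} {U : Bˣ} {τ : A ≃ₐ[ℂ] A}

theorem Sys.not_isUnit [CompleteSpace B] (h : Sys ι U τ) (hK : Kish τ) {a : A}
    (ha : ∀ ε : ℝ, 0 < ε → ∃ f₀ : A, ‖f₀‖ = 1 ∧ ‖a * τ f₀ - f₀‖ ≤ ε) :
    ¬ IsUnit (ι a * U.val - 1) := by
  intro hu
  set S := ι a * U.val with hS
  have hF : ContinuousAt (fun c : ℂ => Ring.inverse (S - c • (1 : B))) 1 := by
    obtain ⟨u, hu⟩ := hu
    have h2 := NormedRing.inverse_continuousAt u
    rw [hu] at h2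
    refine ContinuousAt.comp_of_eq h2 (f := fun c : ℂ => S - c • (1 : B)) (by fun_prop) (by simp)
  have hI : ContinuousAt (fun c : ℂ => c⁻¹) 1 := continuousAt_inv₀ one_ne_zero
  have hI' : Tendsto (fun c : ℂ => c⁻¹) (𝓝 1) (𝓝 1) := by simpa using hI.tendsto
  have hU1 : ∀ᶠ c : ℂ in 𝓝 1, IsUnit (S - c • (1 : B)) := by
    have h3 : ContinuousAt (fun c : ℂ => S - c • (1 : B)) 1 := by fun_prop
    exact h3.eventually (Units.isOpen.mem_nhds (by simpa using hu))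
  have hG : Tendsto (fun c : ℂ => ‖Ring.inverse (S - c • (1 : B)) -
      Ring.inverse (S - c⁻¹ • (1 : B))‖ * ‖U.val‖) (𝓝 1) (𝓝 0) := by
    simpa using ((hF.tendsto.sub (hF.tendsto.comp hI')).norm.mul_const ‖U.val‖)
  have hcl : (1 : ℂ) ∈ closure (Metric.ball (0 : ℂ) 1) := by
    rw [closure_ball _ one_ne_zero]; simp
  obtain ⟨c, hc1, ⟨u1, hu1⟩, ⟨u2, hu2⟩, hc0, hc2⟩ := ((mem_closure_iff_frequently.1 hcl).and_eventually
    (hU1.and ((hI'.eventually hU1).and ((eventually_ne_nhds one_ne_zero).and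
      (hG.eventually (gt_mem_nhds (by norm_num : (0 : ℝ) < 1 / 16))))))).exists
  rw [mem_ball_zero_iff] at hc1
  rw [← hu1, ← hu2, Ring.inverse_unit, Ring.inverse_unit] at hc2
  have t1 := ((h.sub.geom (norm_nonneg c) hc1).mul_const ‖U.val‖).const_mul ‖(u2⁻¹).val‖
  have t2 := (h.sub'.geom (norm_nonneg c) hc1).const_mul ‖(u1⁻¹).val‖
  rw [zero_mul, mul_zero] at t1
  rw [mul_zero] at t2
  obtain ⟨N, b1, b2⟩ := ((t1.eventually (gt_mem_nhds (by norm_num : (0 : ℝ) < 1 / 16))).and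
    (t2.eventually (gt_mem_nhds (by norm_num : (0 : ℝ) < 1 / 16)))).exists
  set K : ℤ → ℝ := fun j => ‖(U ^ j).val‖ with hKd
  have hK0 : ∀ j, 0 ≤ K j := fun j => norm_nonneg _
  set s1 := ∑ j ∈ Finset.range N, K ((j : ℤ) + 1 + 1) with hs1
  set s2 := ∑ j ∈ Finset.range (N + 1), K (-(j : ℤ) + 1) with hs2
  set s3 := ∑ j ∈ Finset.range N, K ((j : ℤ) + 1) with hs3
  set s4 := ∑ j ∈ Finset.range N, K (-((j + 1 : ℕ) : ℤ)) with hs4
  have p1 : 0 ≤ s1 := Finset.sum_nonneg fun _ _ => hK0 _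
  have p2 : 0 ≤ s2 := Finset.sum_nonneg fun _ _ => hK0 _
  have p3 : 0 ≤ s3 := Finset.sum_nonneg fun _ _ => hK0 _
  have p4 : 0 ≤ s4 := Finset.sum_nonneg fun _ _ => hK0 _
  set C := ‖(u2⁻¹).val‖ * s1 + ‖(u1⁻¹).val‖ * s2 + s3 + s4 with hC
  have hC0 : 0 ≤ C := by positivity
  set ε := 1 / (16 * (C + 1)) with hε
  have hε0 : 0 < ε := by positivity
  have hεC : ε * C ≤ 1 / 16 := by
    rw [hε, div_mul_eq_mul_div, div_le_div_iff₀ (by positivity) (by norm_num)]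
    linarith
  obtain ⟨f₀, hf₀, hap⟩ := ha ε hε0
  obtain ⟨f, hf, hlow, horth⟩ := hK f₀ N ε hf₀ hε0
  have hb : ∀ (x y : A) (r : ℝ) (j : ℤ), ‖x‖ ≤ r → ‖y‖ ≤ 1 → ‖ι (x * y) * (U ^ j).val‖ ≤ r * K j := by
    intro x y r j hx hy
    refine (norm_mul_le _ _).trans (mul_le_mul_of_nonneg_right ?_ (hK0 j))
    rw [h.iso]
    exact (norm_mul_le _ _).trans ((mul_le_of_le_one_right (norm_nonneg _) hy).trans hx)
  set z : ℤ → B := fun j => ι (f₀ * (τ ^ j) f) * (U ^ j).val with hz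
  have z1 : ∀ j, ‖z j‖ ≤ K j := fun j => by
    simpa only [one_mul] using hb f₀ ((τ ^ j) f) 1 j hf₀.le (by rw [(h.int j f).1]; exact hf)
  have z2 : ∀ j, ‖S * z j - z (j + 1)‖ ≤ ε * K (j + 1) := fun j => by
    have e : S * z j - z (j + 1) = ι ((a * τ f₀ - f₀) * (τ ^ (j + 1)) f) * (U ^ (j + 1)).val := by
      simp only [hz, hS]
      rw [add_comm j 1, zpow_one_add, zpow_one_add, AlgEquiv.mul_apply, Units.val_mul,
        mul_assoc (ι a), ← mul_assoc U.val, ← h.conj, sub_mul, map_sub, sub_mul, mul_assoc a,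
        ← map_mul τ, map_mul ι a]
      simp only [mul_assoc]
    rw [e]
    exact hb _ _ _ _ hap (by rw [(h.int _ f).1]; exact hf)
  have z3 : ∀ j, ι f * z j = ι (f * (τ ^ j) f * f₀) * (U ^ j).val := fun j => by
    simp only [hz]
    rw [← mul_assoc, ← map_mul]
    congr 2
    ring
  have z4 : ∀ j < N, ‖ι f * z ((j : ℤ) + 1)‖ ≤ ε * K ((j : ℤ) + 1) := fun j hj => by
    rw [z3]
    refine hb _ _ _ _ ?_ hf₀.le
    have := horth j hj
    rwa [← zpow_natCast, Nat.cast_succ] at this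
  have z5 : ∀ j < N, ‖ι f * z (-((j + 1 : ℕ) : ℤ))‖ ≤ ε * K (-((j + 1 : ℕ) : ℤ)) := fun j hj => by
    rw [z3]
    refine hb _ _ _ _ ?_ hf₀.le
    rw [← (h.nat (j + 1) _).1, map_mul, ← AlgEquiv.mul_apply, zpow_neg, zpow_natCast,
      mul_inv_cancel, AlgEquiv.one_apply, mul_comm]
    exact horth j hj
  set G1 := ∑ j ∈ Finset.range N, c ^ (j + 1) • z ((j : ℤ) + 1) with hG1
  set G2 := ∑ j ∈ Finset.range (N + 1), c ^ j • z (-(j : ℤ)) with hG2
  set E1 := ∑ j ∈ Finset.range N, c ^ (j + 1) • (S * z ((j : ℤ) + 1) - z ((j : ℤ) + 1 + 1)) with hE1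
  set E2 := ∑ j ∈ Finset.range (N + 1), c ^ j • (S * z (-(j : ℤ)) - z (-(j : ℤ) + 1)) with hE2
  have q1 : u2.val * G1 = E1 + (c ^ N • z ((N : ℤ) + 1) - z 1) := by
    have := Finset.sum_range_sub (fun j : ℕ => c ^ j • z ((j : ℤ) + 1)) N
    simp only [pow_zero, Nat.cast_zero, zero_add, one_smul] at this
    rw [← this, hE1, ← Finset.sum_add_distrib, hG1, Finset.mul_sum, hu2]
    refine Finset.sum_congr rfl fun j _ => ?_
    rw [sub_mul, mul_smul_comm, smul_mul_assoc, one_mul, smul_smul, smul_sub, Nat.cast_succ, pow_succ',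
      inv_mul_cancel_left₀ hc0]
    abel
  have q2 : u1.val * G2 = E2 + (z 1 - c ^ (N + 1) • z (-(N : ℤ))) := by
    have := Finset.sum_range_sub' (fun j : ℕ => c ^ j • z (-(j : ℤ) + 1)) (N + 1)
    simp only [pow_zero, Nat.cast_zero, neg_zero, zero_add, one_smul, Nat.cast_succ, neg_add_rev,
      neg_add_cancel_comm] at this
    rw [← this, hE2, ← Finset.sum_add_distrib, hG2, Finset.mul_sum, hu1]
    refine Finset.sum_congr rfl fun j _ => ?_
    rw [sub_mul, mul_smul_comm, smul_mul_assoc, one_mul, smul_smul, smul_sub, pow_succ']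
    abel
  have q3 : G1 + G2 = (u2⁻¹).val * E1 + (u2⁻¹).val * (c ^ N • z ((N : ℤ) + 1)) + (u1⁻¹).val * E2 -
      (u1⁻¹).val * (c ^ (N + 1) • z (-(N : ℤ))) + ((u1⁻¹).val - (u2⁻¹).val) * z 1 := by
    rw [← Units.inv_mul_cancel_left u2 G1, ← Units.inv_mul_cancel_left u1 G2, q1, q2]
    noncomm_ring
  have m1 : ‖E1‖ ≤ ε * s1 := norm_sum_pow_le hc1.le _ _ _ _ fun j _ => z2 _
  have m2 : ‖E2‖ ≤ ε * s2 := norm_sum_pow_le hc1.le _ _ _ _ fun j _ => z2 _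
  have m3 : ‖c ^ N • z ((N : ℤ) + 1)‖ ≤ ‖c‖ ^ N * ‖U.val ^ N‖ * ‖U.val‖ := by
    rw [norm_smul, norm_pow, mul_assoc]
    refine mul_le_mul_of_nonneg_left ((z1 _).trans ?_) (by positivity)
    simp only [hKd]
    rw [zpow_add_one, zpow_natCast, Units.val_mul, Units.val_pow_eq_pow_val]
    exact norm_mul_le _ _
  have m4 : ‖c ^ (N + 1) • z (-(N : ℤ))‖ ≤ ‖c‖ ^ N * ‖(U⁻¹).val ^ N‖ := by
    rw [norm_smul, norm_pow]
    refine mul_le_mul (pow_le_pow_of_le_one (norm_nonneg _) hc1.le (Nat.le_succ N))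
      ((z1 _).trans (le_of_eq ?_)) (norm_nonneg _) (by positivity)
    simp only [hKd]
    rw [zpow_neg, zpow_natCast, ← inv_pow, Units.val_pow_eq_pow_val]
  have m5 : ‖z 1‖ ≤ ‖U.val‖ := by simpa [hKd] using z1 1
  have hm : ∀ (x y : B) (r : ℝ), ‖y‖ ≤ r → ‖x * y‖ ≤ ‖x‖ * r := fun x y r hr =>
    (norm_mul_le _ _).trans (mul_le_mul_of_nonneg_left hr (norm_nonneg _))
  have m6 : ‖G1 + G2‖ ≤ ‖(u2⁻¹).val‖ * (ε * s1) + 1 / 16 + ‖(u1⁻¹).val‖ * (ε * s2) + 1 / 16 +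
      1 / 16 := by
    rw [q3]
    exact (norm_add_le _ _).trans (add_le_add ((norm_sub_le _ _).trans (add_le_add
      (norm_add₃_le.trans (add_le_add_three (hm _ _ _ m1) ((hm _ _ _ m3).trans b1.le)
        (hm _ _ _ m2))) ((hm _ _ _ m4).trans b2.le))) ((hm _ _ _ m5).trans hc2.le))
  have q4 : ι (f * f * f₀) = ι f * (G1 + G2) -
      ∑ j ∈ Finset.range N, c ^ (j + 1) • (ι f * z ((j : ℤ) + 1)) -
      ∑ j ∈ Finset.range N, c ^ (j + 1) • (ι f * z (-((j + 1 : ℕ) : ℤ))) := by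
    have e : ι f * z 0 = ι (f * f * f₀) := by simpa using z3 0
    rw [hG1, hG2, Finset.sum_range_succ', mul_add, mul_add, Finset.mul_sum, Finset.mul_sum, ← e]
    simp only [mul_smul_comm, pow_zero, Nat.cast_zero, neg_zero, one_smul]
    abel
  have m7 : ‖ι (f * f * f₀)‖ ≤ ‖G1 + G2‖ + ε * s3 + ε * s4 := by
    rw [q4]
    refine (norm_sub_le _ _).trans (add_le_add ((norm_sub_le _ _).trans (add_le_add ?_
      (norm_sum_pow_le hc1.le _ _ _ _ z4))) (norm_sum_pow_le hc1.le _ _ _ _ z5))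
    refine (norm_mul_le _ _).trans (mul_le_of_le_one_left (norm_nonneg _) ?_)
    rw [h.iso]
    exact hf
  rw [h.iso] at m7
  rw [hC] at hεC
  nlinarith

section Shilov

open WeakDual

variable [CompleteSpace A] [NormOneClass A]

lemma exists_char (hu : ∀ b : A, ‖b * b‖ = ‖b‖ ^ 2) (b : A) :
    ∃ χ : characterSpace ℂ A, ‖b‖ ≤ ‖χ b‖ := by
  have := NormOneClass.nontrivial (G := A)
  have h2 : ∀ k : ℕ, ‖b ^ 2 ^ k‖ = ‖b‖ ^ 2 ^ k := fun k => by
    induction k with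
    | zero => simp
    | succ k ih => rw [pow_succ 2 k, pow_mul, pow_mul, sq, hu, ih]
  obtain ⟨μ, hμ, h1⟩ := spectrum.exists_nnnorm_eq_spectralRadius b
  obtain ⟨χ, rfl⟩ := CharacterSpace.mem_spectrum_iff_exists.1 hμ
  refine ⟨χ, ?_⟩
  by_contra hc
  obtain ⟨c, c1, c2⟩ := exists_between (not_le.1 hc)
  have h3 : spectralRadius ℂ b < ENNReal.ofReal c := by
    rw [← h1, ← enorm_eq_nnnorm, ← ofReal_norm]
    exact (ENNReal.ofReal_lt_ofReal_iff_of_nonneg (norm_nonneg _)).2 c1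
  obtain ⟨k, hk⟩ := ((tendsto_pow_atTop_atTop_of_one_lt (one_lt_two (α := ℕ))).eventually
    (pow_le_of_radius h3)).exists
  rw [h2] at hk
  exact absurd hk (not_le.2 (pow_lt_pow_left₀ c2 ((norm_nonneg _).trans c1.le) (by positivity)))

lemma char_le (χ : characterSpace ℂ A) (b : A) : ‖χ b‖ ≤ ‖b‖ := AlgHom.norm_apply_le_self χ b

omit [CompleteSpace A] [NormOneClass A] in
lemma char_cont (b : A) : Continuous fun χ : characterSpace ℂ A => χ b :=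
  (WeakDual.eval_continuous b).comp continuous_subtype_val

lemma bdy_iff (hu : ∀ b : A, ‖b * b‖ = ‖b‖ ^ 2) (K : Set (characterSpace ℂ A)) :
    IsClosedBoundary K ↔ IsClosed K ∧ ∀ b : A, ∃ χ ∈ K, ‖b‖ ≤ ‖χ b‖ := by
  refine and_congr_right fun _ => forall_congr' fun b => exists_congr fun χ =>
    and_congr_right fun _ => ⟨fun h => ?_, fun h ψ => (char_le ψ b).trans h⟩
  obtain ⟨ψ, hψ⟩ := exists_char hu b
  exact hψ.trans (h ψ)

lemma exists_peak (hu : ∀ b : A, ‖b * b‖ = ‖b‖ ^ 2) {E : Set (characterSpace ℂ A)}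
    (hE : IsClosed E) (hn : ¬ IsClosedBoundary E) {δ : ℝ} (hδ : 0 < δ) :
    ∃ f : A, ‖f‖ = 1 ∧ ∀ χ ∈ E, ‖χ f‖ ≤ δ := by
  rcases E.eq_empty_or_nonempty with rfl | hne
  · exact ⟨1, norm_one, by simp⟩
  rw [bdy_iff hu, not_and] at hn
  have hn' := hn hE
  push Not at hn'
  obtain ⟨g, hg⟩ := hn'
  obtain ⟨χ₀, h0, hmax⟩ := hE.isCompact.exists_isMaxOn hne (char_cont g).norm.continuousOn
  have hg0 : 0 < ‖g‖ := lt_of_le_of_lt (norm_nonneg _) (hg χ₀ h0)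
  obtain ⟨n, hn⟩ := exists_pow_lt_of_lt_one hδ ((div_lt_one hg0).2 (hg χ₀ h0))
  have hx : ‖((‖g‖ : ℂ)⁻¹) • g‖ = 1 := by
    rw [norm_smul, norm_inv, Complex.norm_real, norm_norm, inv_mul_cancel₀ hg0.ne']
  refine ⟨(((‖g‖ : ℂ)⁻¹) • g) ^ n, le_antisymm ?_ ?_, fun χ hχ => ?_⟩
  · simpa only [hx, one_pow] using norm_pow_le (((‖g‖ : ℂ)⁻¹) • g) n
  · obtain ⟨ψ, hψ⟩ := exists_char hu (((‖g‖ : ℂ)⁻¹) • g)
    refine le_trans ?_ (char_le ψ _)
    rw [map_pow, norm_pow]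
    exact one_le_pow₀ (hx ▸ hψ)
  · rw [map_pow, norm_pow, map_smul, norm_smul, norm_inv, Complex.norm_real, norm_norm,
      ← div_eq_inv_mul]
    refine le_trans (pow_le_pow_left₀ (by positivity) ?_ n) hn.le
    exact div_le_div_of_nonneg_right (hmax hχ) hg0.le

/-- Shilov's theorem. -/
theorem shilov_bdy (hu : ∀ b : A, ‖b * b‖ = ‖b‖ ^ 2) :
    IsClosedBoundary (⋂₀ {K : Set (characterSpace ℂ A) | IsClosedBoundary K}) := by
  obtain ⟨E, -, hE⟩ := zorn_superset_nonempty {K : Set (characterSpace ℂ A) | IsClosedBoundary K}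
    (fun c hc hch hne => by
      refine ⟨⋂₀ c, (bdy_iff hu _).2 ⟨isClosed_sInter fun K hK => (hc hK).1, fun b => ?_⟩,
        fun s hs => Set.sInter_subset_of_mem hs⟩
      have := hne.to_subtype
      have hcl : ∀ K : c, IsClosed (K.1 ∩ {χ : characterSpace ℂ A | ‖b‖ ≤ ‖χ b‖}) := fun K =>
        (hc K.2).1.inter (isClosed_le continuous_const (char_cont b).norm)
      obtain ⟨χ, hχ⟩ := IsCompact.nonempty_iInter_of_directed_nonempty_isCompact_isClosed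
        (fun K : c => K.1 ∩ {χ : characterSpace ℂ A | ‖b‖ ≤ ‖χ b‖})
        (fun K L => by
          rcases hch.total K.2 L.2 with h | h
          · exact ⟨K, subset_rfl, Set.inter_subset_inter_left _ h⟩
          · exact ⟨L, Set.inter_subset_inter_left _ h, subset_rfl⟩)
        (fun K => ((bdy_iff hu _).1 (hc K.2)).2 b) (fun K => (hcl K).isCompact) hcl
      rw [Set.mem_iInter] at hχ
      obtain ⟨K, hK⟩ := hne
      exact ⟨χ, fun L hL => (hχ ⟨L, hL⟩).1, (hχ ⟨K, hK⟩).2⟩)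
    Set.univ ((bdy_iff hu _).2 ⟨isClosed_univ, fun b => by simpa using exists_char hu b⟩)
  suffices hs : ⋂₀ {K : Set (characterSpace ℂ A) | IsClosedBoundary K} = E by
    rw [hs]; exact hE.prop
  refine Set.Subset.antisymm (Set.sInter_subset_of_mem hE.prop) fun x hx F hF => ?_
  by_contra hxF
  have hsep : ∀ y : F, ∃ f : A, x f = 0 ∧ 1 < ‖y.1 f‖ := by
    intro y
    have hne : x ≠ y.1 := fun h => hxF (h ▸ y.2)
    obtain ⟨b, hb⟩ : ∃ b, x b ≠ y.1 b := by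
      by_contra hc
      push Not at hc
      exact hne (CharacterSpace.ext hc)
    refine ⟨(2 / (y.1 b - x b)) • (b - algebraMap ℂ A (x b)), ?_, ?_⟩
    · rw [map_smul, map_sub, AlgHomClass.commutes]
      simp
    rw [map_smul, map_sub, AlgHomClass.commutes, smul_eq_mul]
    change 1 < ‖2 / (y.1 b - x b) * (y.1 b - x b)‖
    rw [div_mul_cancel₀ _ (sub_ne_zero.2 hb.symm)]
    simp
  choose f f0 f1 using hsep
  obtain ⟨t, ht⟩ := hF.1.isCompact.elim_finite_subcover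
    (fun y : F => {χ : characterSpace ℂ A | 1 < ‖χ (f y)‖})
    (fun y => isOpen_lt continuous_const (char_cont _).norm)
    (fun y hy => Set.mem_iUnion.2 ⟨⟨y, hy⟩, f1 ⟨y, hy⟩⟩)
  have hV : IsOpen (⋂ y ∈ t, {χ : characterSpace ℂ A | ‖χ (f y)‖ < 1}) :=
    isOpen_biInter_finset fun y _ => isOpen_lt (char_cont _).norm continuous_const
  set L := ∑ y ∈ t, ‖f y‖ + 1 with hL
  have hL0 : 0 < L := by positivity
  obtain ⟨g, g1, g2⟩ := exists_peak hu (hE.prop.1.sdiff hV) (fun hb => by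
    have := hE.le_of_le hb Set.sdiff_subset hx
    exact this.2 (Set.mem_iInter₂.2 fun y _ => by simp [f0])) (δ := 1 / L) (by positivity)
  obtain ⟨y, hy, hyg⟩ := ((bdy_iff hu _).1 hF).2 g
  obtain ⟨w, hw, hyw⟩ := Set.mem_iUnion₂.1 (ht hy)
  obtain ⟨χ, hχ, h1⟩ := ((bdy_iff hu _).1 hE.prop).2 (g * f w)
  have h2 := char_le y (g * f w)
  rw [map_mul] at h1 h2
  rw [norm_mul (χ g)] at h1
  rw [norm_mul (y g)] at h2
  have h3 : 1 < ‖y (f w)‖ := hyw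
  have h4 := char_le χ g
  have h5 : ‖χ g‖ * ‖χ (f w)‖ ≤ 1 := by
    by_cases hV : χ ∈ ⋂ y ∈ t, {χ : characterSpace ℂ A | ‖χ (f y)‖ < 1}
    · have h6 : ‖χ (f w)‖ < 1 := Set.mem_iInter₂.1 hV w hw
      exact mul_le_one₀ (g1 ▸ h4) (norm_nonneg _) h6.le
    · have h6 := g2 χ ⟨hχ, hV⟩
      have h7 : ‖χ (f w)‖ ≤ L := (char_le χ _).trans ((Finset.single_le_sum
        (f := fun y => ‖f y‖) (fun _ _ => norm_nonneg _) hw).trans (by linarith))
      calc _ ≤ 1 / L * L := by gcongr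
        _ = 1 := by field_simp
  rw [g1] at hyg
  nlinarith

/-- The induced map on characters. -/
noncomputable def chi (σ : A ≃ₐ[ℂ] A) (χ : characterSpace ℂ A) : characterSpace ℂ A :=
  CharacterSpace.equivAlgHom.symm ((CharacterSpace.equivAlgHom χ).comp σ.toAlgHom)

omit [NormOneClass A] in
lemma chi_apply (σ : A ≃ₐ[ℂ] A) (χ : characterSpace ℂ A) (b : A) : chi σ χ b = χ (σ b) := rfl

omit [NormOneClass A] in
lemma chi_cont (σ : A ≃ₐ[ℂ] A) : Continuous (chi σ) :=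
  Continuous.subtype_mk (WeakDual.continuous_of_continuous_eval fun b => char_cont (σ b)) _

omit [NormOneClass A] in
lemma chi_bdy (σ : A ≃ₐ[ℂ] A) {K : Set (characterSpace ℂ A)} (hK : IsClosedBoundary K) :
    IsClosedBoundary (chi σ ⁻¹' K) := by
  refine ⟨hK.1.preimage (chi_cont σ), fun b => ?_⟩
  obtain ⟨χ, hχ, h⟩ := hK.2 (σ.symm b)
  refine ⟨chi σ.symm χ, ?_, fun ψ => ?_⟩
  · have : chi σ (chi σ.symm χ) = χ := CharacterSpace.ext fun c => by simp [chi_apply]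
    rwa [Set.mem_preimage, this]
  · simpa [chi_apply] using h (chi σ ψ)

theorem kish_of_meagre (hu : ∀ b : A, ‖b * b‖ = ‖b‖ ^ 2) (τ : A ≃ₐ[ℂ] A)
    (hm : IsMeagre {x : (⋂₀ {K : Set (characterSpace ℂ A) | IsClosedBoundary K} : Set _) |
      ∃ n : ℕ, 0 < n ∧ ∀ b : A, x.val ((τ ^ n) b) = x.val b}) : Kish τ := by
  intro f₀ N δ hf₀ hδ
  have hS := shilov_bdy hu
  have hinv : ∀ (σ : A ≃ₐ[ℂ] A), ∀ χ ∈ ⋂₀ {K : Set (characterSpace ℂ A) | IsClosedBoundary K},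
      chi σ χ ∈ ⋂₀ {K : Set (characterSpace ℂ A) | IsClosedBoundary K} :=
    fun σ χ hχ K hK => hχ _ (chi_bdy σ hK)
  have hmin : ∀ K, IsClosedBoundary K → ⋂₀ {K : Set (characterSpace ℂ A) | IsClosedBoundary K} ⊆ K :=
    fun K hK => Set.sInter_subset_of_mem hK
  generalize ⋂₀ {K : Set (characterSpace ℂ A) | IsClosedBoundary K} = S at hm hS hinv hmin
  have : CompactSpace S := isCompact_iff_compactSpace.1 hS.1.isCompact
  have hO : IsOpen {χ : characterSpace ℂ A | 1 / 2 < ‖χ f₀‖} :=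
    isOpen_lt continuous_const (char_cont _).norm
  obtain ⟨x, hx1, hx2⟩ := (dense_of_mem_residual hm).exists_mem_open
    (hO.preimage continuous_subtype_val) (by
      obtain ⟨χ, hχ, h⟩ := ((bdy_iff hu _).1 hS).2 f₀
      exact ⟨⟨χ, hχ⟩, lt_of_lt_of_le (by rw [hf₀]; norm_num) h⟩)
  have hW : ∀ j : ℕ, ∃ W : Set (characterSpace ℂ A), IsOpen W ∧ x.val ∈ W ∧
      ∀ χ ∈ W, chi (τ ^ (j + 1)) χ ∉ W := by
    intro j
    have hne : x.val ≠ chi (τ ^ (j + 1)) x.val := fun h =>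
      hx1 ⟨j + 1, Nat.succ_pos j, fun b => by rw [← chi_apply, ← h]⟩
    obtain ⟨u, v, hu, hv, h1, h2, h3⟩ := t2_separation hne
    exact ⟨u ∩ chi (τ ^ (j + 1)) ⁻¹' v, hu.inter (hv.preimage (chi_cont _)), ⟨h1, h2⟩,
      fun χ hχ h4 => Set.disjoint_left.1 h3 h4.1 hχ.2⟩
  choose W W1 W2 W3 using hW
  have hV : IsOpen ({χ : characterSpace ℂ A | 1 / 2 < ‖χ f₀‖} ∩ ⋂ j ∈ Finset.range N, W j) :=
    hO.inter (isOpen_biInter_finset fun j _ => W1 j)
  obtain ⟨f, f1, f2⟩ := exists_peak hu (hS.1.sdiff hV)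
    (fun hb => (hmin _ hb x.2).2 ⟨hx2, Set.mem_iInter₂.2 fun j _ => W2 j⟩)
    (δ := min δ (1 / 2)) (by positivity)
  refine ⟨f, f1.le, ?_, fun j hj => ?_⟩
  · obtain ⟨y, hy, h1⟩ := ((bdy_iff hu _).1 hS).2 f
    rw [f1] at h1
    have h2 : 1 / 2 < ‖y f₀‖ := by
      by_contra hc
      have := (f2 y ⟨hy, fun h => hc h.1⟩).trans (min_le_right _ _)
      linarith
    refine le_trans ?_ (char_le y _)
    rw [map_mul, map_mul, norm_mul, norm_mul]
    nlinarith [one_le_mul_of_one_le_of_one_le h1 h1]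
  · obtain ⟨χ, hχ, h1⟩ := ((bdy_iff hu _).1 hS).2 (f * (τ ^ (j + 1)) f)
    refine h1.trans (le_trans ?_ (min_le_left δ (1 / 2)))
    rw [map_mul, norm_mul, ← chi_apply]
    by_cases hc : χ ∈ W j
    · have h2 := f2 _ ⟨hinv (τ ^ (j + 1)) χ hχ, fun h =>
        W3 j χ hc (Set.mem_iInter₂.1 h.2 j (Finset.mem_range.2 hj))⟩
      exact (mul_le_of_le_one_left (norm_nonneg _) (f1 ▸ char_le χ f)).trans h2
    · have h2 := f2 χ ⟨hχ, fun h => hc (Set.mem_iInter₂.1 h.2 j (Finset.mem_range.2 hj))⟩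
      exact (mul_le_of_le_one_right (norm_nonneg _) (f1 ▸ char_le _ f)).trans h2

end Shilov

end Pool.Agent.MP_4998f1_an.Cls
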