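import Mathlib
import Pool.Agent.MP_4998f1_an.ClsApprox

set_option autoImplicit false

open Filter Topology

namespace Pool.Agent.MP_4998f1_an.Cls

variable {A B : Type} [NormedCommRing A] [NormedAlgebra ℂ A] [NormedRing B] [NormedAlgebra ℂ B]

variable (A) in
/-- The left regular representation. -/
noncomputable def lmul : A →ₐ[ℂ] (A →L[ℂ] A) where
  toFun b := ContinuousLinearMap.mul ℂ A b
  map_one' := ContinuousLinearMap.ext fun c => one_mul c
  map_mul' b c := ContinuousLinearMap.ext fun d => mul_assoc b c d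
  map_zero' := map_zero _
  map_add' b c := map_add _ b c
  commutes' r := ContinuousLinearMap.ext fun d => by simp [Algebra.algebraMap_eq_smul_one]

@[simp] lemma lmul_apply (b c : A) : lmul A b c = b * c := rfl

lemma norm_lmul (h1 : ‖(1 : A)‖ ≤ 1) (b : A) : ‖lmul A b‖ = ‖b‖ := by
  refine le_antisymm (ContinuousLinearMap.opNorm_le_bound _ (norm_nonneg _) (norm_mul_le b)) ?_
  have h := (lmul A b).le_opNorm 1
  rw [lmul_apply, mul_one] at h
  exact h.trans (mul_le_of_le_one_right (norm_nonneg _) h1)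

lemma lmul_inv {b : A} (h : IsUnit (lmul A b)) : ∃ c, b * c = 1 := by
  obtain ⟨u, hu⟩ := h
  refine ⟨u.inv 1, ?_⟩
  have h2 : (u.val * u.inv) 1 = 1 := by rw [u.val_inv]; rfl
  rwa [hu] at h2

lemma symm_iso {τ : A ≃ₐ[ℂ] A} (h : ∀ b, ‖τ b‖ = ‖b‖) (b : A) : ‖τ.symm b‖ = ‖b‖ := by
  rw [← h, τ.apply_symm_apply]

/-- An isometric automorphism as an operator. -/
noncomputable def autOp (τ : A ≃ₐ[ℂ] A) (h : ∀ b, ‖τ b‖ = ‖b‖) : A →L[ℂ] A :=
  τ.toLinearMap.mkContinuous 1 fun b => by simp [h]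

@[simp] lemma autOp_apply (τ : A ≃ₐ[ℂ] A) (h : ∀ b, ‖τ b‖ = ‖b‖) (b : A) : autOp τ h b = τ b := rfl

lemma norm_autOp (τ : A ≃ₐ[ℂ] A) (h : ∀ b, ‖τ b‖ = ‖b‖) : ‖autOp τ h‖ ≤ 1 :=
  LinearMap.mkContinuous_norm_le _ zero_le_one _

/-- An isometric automorphism as an invertible operator. -/
noncomputable def autUnit (τ : A ≃ₐ[ℂ] A) (h : ∀ b, ‖τ b‖ = ‖b‖) : (A →L[ℂ] A)ˣ where
  val := autOp τ h
  inv := autOp τ.symm (symm_iso h)
  val_inv := ContinuousLinearMap.ext fun b => τ.apply_symm_apply b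
  inv_val := ContinuousLinearMap.ext fun b => τ.symm_apply_apply b

omit [NormedAlgebra ℂ B] in
lemma subexp_of_norm {y : B} (h : ‖y‖ ≤ 1) : Subexp y := fun c hc => by
  filter_upwards [eventually_gt_atTop 0] with n hn
  exact (norm_pow_le' y hn).trans (pow_le_pow_left₀ (norm_nonneg _) (h.trans hc.le) n)

lemma sys_lmul (h1 : ‖(1 : A)‖ ≤ 1) (τ : A ≃ₐ[ℂ] A) (h : ∀ b, ‖τ b‖ = ‖b‖) :
    Sys (lmul A) (autUnit τ h) τ :=
  ⟨norm_lmul h1, h, fun b => ContinuousLinearMap.ext fun c => (map_mul τ b c).symm,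
    subexp_of_norm (norm_autOp τ h), subexp_of_norm (norm_autOp τ.symm (symm_iso h))⟩

variable {ι : A →ₐ[ℂ] B} {U : Bˣ} {τ : A ≃ₐ[ℂ] A} [CompleteSpace B]

omit [CompleteSpace B] in
lemma isUnit_scale {S : B} {r w : ℂ} (hr : r ≠ 0) :
    IsUnit (algebraMap ℂ B w - r⁻¹ • S) ↔ r * w ∉ spectrum ℂ S := by
  rw [spectrum.notMem_iff]
  have e : algebraMap ℂ B (r * w) - S = algebraMap ℂ B r * (algebraMap ℂ B w - r⁻¹ • S) := by
    rw [mul_sub, ← map_mul, ← Algebra.smul_def, smul_inv_smul₀ hr]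
  rw [e, ((IsUnit.mk0 r hr).map (algebraMap ℂ B)).mul_left_iff]

lemma Sys.circle_iff [CompleteSpace A] (h : Sys ι U τ) (hinv : ∀ b, IsUnit (ι b) → IsUnit b) (a : A)
    {r : ℂ} (hr : r ≠ 0) :
    (∀ ν ∈ spectrum ℂ (ι a * U.val), ‖ν‖ ≠ ‖r‖) ↔ Dich τ (r⁻¹ • a) := by
  constructor
  · intro H
    refine h.dich_of_hyp hinv fun w hw => ?_
    rw [map_smul, smul_mul_assoc, isUnit_scale hr]
    exact fun hc => H _ hc (by rw [norm_mul, hw, mul_one])
  · intro H ν hν he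
    have := h.hyp_of_dich H (w := ν / r) (by rw [norm_div, he, div_self (norm_ne_zero_iff.2 hr)])
    rw [map_smul, smul_mul_assoc, isUnit_scale hr, mul_div_cancel₀ _ hr] at this
    exact this hν

omit [CompleteSpace B] in
lemma zero_iff (hinv : ∀ b, IsUnit (ι b) → IsUnit b) (a : A) :
    (0 : ℂ) ∉ spectrum ℂ (ι a * U.val) ↔ IsUnit a := by
  rw [spectrum.zero_notMem_iff, Units.isUnit_mul_units]
  exact ⟨hinv a, fun h => h.map ι⟩

lemma Sys.mem_of_approx (h : Sys ι U τ) (hK : Kish τ) (hinv : ∀ b, IsUnit (ι b) → IsUnit b) {a : A}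
    {l ν : ℂ} (hν : ‖ν‖ = ‖l‖)
    (ha : ∀ ε : ℝ, 0 < ε → ∃ f₀ : A, ‖f₀‖ = 1 ∧ ‖a * τ f₀ - l • f₀‖ ≤ ε) :
    ν ∈ spectrum ℂ (ι a * U.val) := by
  by_contra hc
  rcases eq_or_ne l 0 with rfl | hl
  · rw [norm_zero, norm_eq_zero] at hν
    rw [hν, zero_iff hinv] at hc
    obtain ⟨u, rfl⟩ := hc
    obtain ⟨f, h1, h2⟩ := ha (1 / (2 * (‖(u⁻¹).val‖ + 1))) (by positivity)
    rw [zero_smul, sub_zero, le_div_iff₀ (by positivity)] at h2
    have h3 := norm_mul_le (u⁻¹).val (u.val * τ f)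
    rw [Units.inv_mul_cancel_left, h.tiso, h1] at h3
    nlinarith [norm_nonneg (u.val * τ f), norm_nonneg (u⁻¹).val]
  · have hl' := norm_pos_iff.2 hl
    have hν0 : ν ≠ 0 := norm_pos_iff.1 (hν ▸ hl')
    refine (h.rot (Units.mk0 (l / ν) (div_ne_zero hl hν0))
      (by rw [Units.val_mk0, norm_div, hν, div_self hl'.ne'])).not_isUnit hK (a := l⁻¹ • a)
      (fun ε hε => ?_) ?_
    · obtain ⟨f, h1, h2⟩ := ha (ε * ‖l‖) (by positivity)
      refine ⟨f, h1, ?_⟩
      have e : l⁻¹ • a * τ f - f = l⁻¹ • (a * τ f - l • f) := by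
        rw [smul_sub, inv_smul_smul₀ hl, smul_mul_assoc]
      rwa [e, norm_smul, norm_inv, ← div_eq_inv_mul, div_le_iff₀ hl']
    · have e : ι (l⁻¹ • a) * (Units.mk0 (l / ν) (div_ne_zero hl hν0) • U).val =
          ν⁻¹ • (ι a * U.val) := by
        change ι (l⁻¹ • a) * ((l / ν) • U.val) = _
        rw [map_smul, smul_mul_assoc, mul_smul_comm, smul_smul]
        congr 1
        field_simp
      rw [e, ← IsUnit.neg_iff, neg_sub, ← map_one (algebraMap ℂ B), isUnit_scale hν0, mul_one]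
      exact hc

/-- Frontier points of the spectrum are approximate eigenvalues. -/
lemma approx_of_frontier {E : Type} [NormedAddCommGroup E] [NormedSpace ℂ E] [CompleteSpace E]
    (V : E →L[ℂ] E) {μ : ℂ} (hμ : μ ∈ frontier (spectrum ℂ V)) {ε : ℝ} (hε : 0 < ε) :
    ∃ f : E, ‖f‖ = 1 ∧ ‖V f - μ • f‖ ≤ ε := by
  by_contra hc
  push Not at hc
  have hb : ∀ f : E, ε * ‖f‖ ≤ ‖V f - μ • f‖ := fun f => by
    rcases eq_or_ne f 0 with rfl | hf
    · simp
    · have h0 := norm_pos_iff.2 hf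
      have h1 := hc ((‖f‖ : ℂ)⁻¹ • f)
        (by rw [norm_smul, norm_inv, Complex.norm_real, norm_norm, inv_mul_cancel₀ h0.ne'])
      rw [map_smul, smul_comm μ, ← smul_sub, norm_smul, norm_inv, Complex.norm_real, norm_norm,
        ← div_eq_inv_mul, lt_div_iff₀ h0] at h1
      exact h1.le
  rw [frontier_eq_closure_inter_closure, (spectrum.isClosed V).closure_eq] at hμ
  obtain ⟨ν, hν, hd⟩ := Metric.mem_closure_iff.1 hμ.2 (ε / 3) (by positivity)
  obtain ⟨u, hu⟩ := spectrum.notMem_iff.1 hν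
  rw [dist_comm, dist_eq_norm] at hd
  have hn : ‖(ν - μ) • (u⁻¹).val‖ ≤ 1 / 2 := by
    refine ContinuousLinearMap.opNorm_le_bound _ (by norm_num) fun g => ?_
    have h1 : (u.val * (u⁻¹).val) g = g := by rw [Units.mul_inv]; rfl
    rw [hu] at h1
    change (algebraMap ℂ (E →L[ℂ] E) ν - V) ((u⁻¹).val g) = g at h1
    rw [smul_apply]
    set f := (u⁻¹).val g
    have h2 : V f - μ • f = (ν - μ) • f - g := by
      rw [← h1]
      simp [Algebra.algebraMap_eq_smul_one, sub_smul]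
    have h3 := hb f
    rw [h2] at h3
    have h4 := norm_sub_le ((ν - μ) • f) g
    rw [norm_smul] at h4 ⊢
    nlinarith [norm_nonneg f, norm_nonneg (ν - μ)]
  refine spectrum.notMem_iff.2 ?_ hμ.1
  have e : algebraMap ℂ (E →L[ℂ] E) μ - V = u.val * (1 - (ν - μ) • (u⁻¹).val) := by
    rw [mul_sub, mul_one, mul_smul_comm, Units.mul_inv, hu, ← Algebra.algebraMap_eq_smul_one, map_sub]
    abel
  rw [e]
  exact u.isUnit.mul (Units.oneSub _ (lt_of_le_of_lt hn (by norm_num))).isUnit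

theorem Sys.hull [CompleteSpace A] (h : Sys ι U τ) (h1 : ‖(1 : A)‖ ≤ 1) (hK : Kish τ)
    (hinv : ∀ b, IsUnit (ι b) → IsUnit b) (a : A) :
    spectrum ℂ (lmul A a * autOp τ h.tiso) =
      {μ | ∃ ν ∈ spectrum ℂ (ι a * U.val), ‖ν‖ = ‖μ‖} ∧
    frontier (spectrum ℂ (lmul A a * autOp τ h.tiso)) ⊆ spectrum ℂ (ι a * U.val) := by
  have h' := sys_lmul h1 τ h.tiso
  have hinv' : ∀ b, IsUnit (lmul A b) → IsUnit b := fun b hb => by
    obtain ⟨c, hc⟩ := lmul_inv hb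
    exact IsUnit.of_mul_eq_one _ hc
  have hap : ∀ μ ∈ frontier (spectrum ℂ (lmul A a * autOp τ h.tiso)), ∀ ε : ℝ, 0 < ε →
      ∃ f₀ : A, ‖f₀‖ = 1 ∧ ‖a * τ f₀ - μ • f₀‖ ≤ ε := fun μ hμ ε hε =>
    approx_of_frontier _ hμ hε
  refine ⟨?_, fun μ hμ => h.mem_of_approx hK hinv rfl (hap μ hμ)⟩
  have hrot : ∀ l ∈ spectrum ℂ (lmul A a * autOp τ h.tiso), ∀ μ : ℂ, ‖l‖ = ‖μ‖ →
      μ ∈ spectrum ℂ (lmul A a * autOp τ h.tiso) := by
    intro l hl μ he
    by_cases hf : ∃ ν ∈ frontier (spectrum ℂ (lmul A a * autOp τ h.tiso)), ‖μ‖ = ‖ν‖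
    · obtain ⟨ν, hν, he'⟩ := hf
      exact h'.mem_of_approx hK hinv' he' (hap ν hν)
    · push Not at hf
      have hcl := spectrum.isClosed (𝕜 := ℂ) (lmul A a * autOp τ h.tiso)
      generalize spectrum ℂ (lmul A a * autOp τ h.tiso) = Z at hl hf hcl ⊢
      have hin : ∀ ν ∈ Z, ‖ν‖ = ‖μ‖ → ν ∈ interior Z := fun ν hν e => by
        by_contra hc
        exact hf ν ⟨subset_closure hν, hc⟩ e.symm
      have hp : IsPreconnected (Metric.sphere (0 : ℂ) ‖μ‖) :=
        isPreconnected_sphere (by rw [Complex.rank_real_complex]; exact Nat.one_lt_ofNat) _ _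
      refine interior_subset (hp.subset_left_of_subset_union isOpen_interior hcl.isOpen_compl
        (disjoint_compl_right.mono_left interior_subset) (fun ν hν => ?_)
        ⟨l, by simpa using he, hin l hl he⟩ (by simp))
      by_cases hc : ν ∈ Z
      · exact Or.inl (hin ν hc (by simpa using hν))
      · exact Or.inr hc
  ext μ
  have key : (∀ ν ∈ spectrum ℂ (ι a * U.val), ‖ν‖ ≠ ‖μ‖) ↔
      ∀ ν ∈ spectrum ℂ (lmul A a * autOp τ h.tiso), ‖ν‖ ≠ ‖μ‖ := by
    rcases eq_or_ne μ 0 with rfl | hμ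
    · have e : ∀ Z : Set ℂ, (∀ ν ∈ Z, ‖ν‖ ≠ ‖(0 : ℂ)‖) ↔ (0 : ℂ) ∉ Z := fun Z =>
        ⟨fun H hc => H 0 hc rfl, fun H ν hν hc => H (by
          rw [norm_zero, norm_eq_zero] at hc
          exact hc ▸ hν)⟩
      rw [e, e, zero_iff hinv]
      exact (zero_iff (U := autUnit τ h.tiso) hinv' a).symm
    · rw [h.circle_iff hinv a hμ]
      exact (h'.circle_iff hinv' a hμ).symm
  constructor
  · intro hμ
    by_contra hc
    exact key.1 (fun ν hν he => hc ⟨ν, hν, he⟩) μ hμ rfl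
  · rintro ⟨ν, hν, he⟩
    by_contra hc
    exact key.2 (fun l hl he' => hc (hrot l hl μ he')) ν hν he

theorem necessity {X : Type} [NormedAddCommGroup X] [NormedSpace ℂ X] [CompleteSpace X]
    [CompleteSpace A] {ι : A →ₐ[ℂ] (X →L[ℂ] X)} {U : (X →L[ℂ] X)ˣ} {T : A →L[ℂ] A}
    (hs : IsShiftSystem ι U T)
    (hm : IsMeagre {x : (⋂₀ {K : Set (WeakDual.characterSpace ℂ A) | IsClosedBoundary K} : Set _) |
      IsPeriodicChar T x.val})
    (hU : spectrum ℂ U.val ⊆ Metric.sphere 0 1) (hinv : ∀ b : A, IsUnit (ι b) → IsUnit b) (a : A) :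
    spectrum ℂ ((ContinuousLinearMap.mul ℂ A a).comp T) =
      {μ | ∃ ν ∈ spectrum ℂ (ι a * U.val), ‖ν‖ = ‖μ‖} ∧
    frontier (spectrum ℂ ((ContinuousLinearMap.mul ℂ A a).comp T)) ⊆ spectrum ℂ (ι a * U.val) := by
  rcases subsingleton_or_nontrivial A with hA | hA
  · have : Subsingleton (X →L[ℂ] X) := subsingleton_of_zero_eq_one
      (by rw [← map_zero ι, ← map_one ι, Subsingleton.elim (0 : A) 1])
    have : Subsingleton (A →L[ℂ] A) := ⟨fun f g => ContinuousLinearMap.ext fun _ =>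
      Subsingleton.elim _ _⟩
    simp [spectrum.of_subsingleton]
  have : NormOneClass A := ⟨by
    have h1 := hs.uniform 1
    rw [mul_one, sq] at h1
    exact (mul_left_cancel₀ (norm_ne_zero_iff.2 (one_ne_zero (α := A)))
      (h1.symm.trans (mul_one _).symm))⟩
  have hinj : Function.Injective ι := (AddMonoidHomClass.isometry_of_norm ι hs.isometry).injective
  have hconj : ∀ b, ι (T b) * U.val = U.val * ι b := fun b => by
    rw [hs.conj, mul_assoc, U.inv_val, mul_one]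
  have hcan : ∀ x y : X →L[ℂ] X, x * U.val = y * U.val → x = y := fun x y =>
    (Units.mul_left_inj U).1
  let φ : A →ₐ[ℂ] A := AlgHom.ofLinearMap T.toLinearMap
    (hinj (hcan _ _ (by
      change ι (T 1) * U.val = _
      rw [hconj, map_one, mul_one, one_mul])))
    (fun b c => hinj (hcan _ _ (by
      change ι (T (b * c)) * U.val = ι (T b * T c) * U.val
      rw [hconj, map_mul, map_mul, mul_assoc, hconj, ← mul_assoc, ← mul_assoc, hconj])))
  let τ : A ≃ₐ[ℂ] A := AlgEquiv.ofBijective φ ⟨fun b c hbc => hinj ((Units.mul_right_inj U).1 (by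
    rw [← hconj, ← hconj]
    exact congrArg (fun d => ι d * U.val) hbc)), hs.surj⟩
  have hτ : ∀ b, τ b = T b := fun b => rfl
  have hle : ∀ (σ : A ≃ₐ[ℂ] A) (b : A), ‖σ b‖ ≤ ‖b‖ := fun σ b => by
    obtain ⟨χ, hχ⟩ := exists_char hs.uniform (σ b)
    exact hχ.trans (char_le (chi σ χ) b)
  have hsys : Sys ι U τ := ⟨hs.isometry,
    fun b => le_antisymm (hle τ b) (by simpa using hle τ.symm (τ b)), hconj,
    subexp_of_spectrum fun μ hμ => (mem_sphere_zero_iff_norm.1 (hU hμ)).le,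
    subexp_of_spectrum fun μ hμ => by
      have h2 : μ⁻¹ ∈ spectrum ℂ U.val := by simpa using spectrum.inv₀_mem_inv hμ
      have h3 := mem_sphere_zero_iff_norm.1 (hU h2)
      rw [norm_inv, inv_eq_one] at h3
      exact h3.le⟩
  have hK : Kish τ := kish_of_meagre hs.uniform τ (by
    have e : ∀ (n : ℕ) (b : A), (τ ^ n) b = T^[n] b := fun n b => by
      rw [AlgEquiv.coe_pow]; rfl
    simpa only [e, IsPeriodicChar] using hm)
  have e : (ContinuousLinearMap.mul ℂ A a).comp T = lmul A a * autOp τ hsys.tiso :=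
    ContinuousLinearMap.ext fun b => rfl
  rw [e]
  exact hsys.hull norm_one.le hK hinv a

end Pool.Agent.MP_4998f1_an.Cls
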