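import Mathlib
import Pool.Agent.MP_4998f1_an.ClsNec

set_option autoImplicit false

open Set Metric Filter Topology
open scoped BoundedContinuousFunction

namespace Pool.Agent.MP_4998f1_an.Cls

/-- Abstract realisation of a system from an invariant subalgebra. -/
theorem realise {Y : Type} [NormedCommRing Y] [NormedAlgebra ℂ Y] [CompleteSpace Y]
    (h1 : ‖(1 : Y)‖ ≤ 1) (hu : ∀ y : Y, ‖y * y‖ = ‖y‖ ^ 2) (A : Subalgebra ℂ Y)
    (hA : IsClosed (A : Set Y)) (hinv : ∀ f ∈ A, ∀ g, f * g = 1 → g ∈ A) (γ : Y ≃ₐ[ℂ] Y)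
    (hγ : ∀ y, ‖γ y‖ = ‖y‖) (hγA : ∀ f ∈ A, γ f ∈ A) (hγA' : ∀ f ∈ A, γ.symm f ∈ A) (u : Yˣ)
    (n1 : ‖u.val‖ ≤ 1) (n2 : ‖(u⁻¹).val‖ ≤ 1) (z : A) (α : ℂ) (hz : γ z = α • z.val)
    (hα : ∀ n : ℕ, 0 < n → α ^ n ≠ 1)
    (hb : Nontrivial Y → ∀ b : A, ∃ χ : Y →ₐ[ℂ] ℂ, ‖χ z‖ = 1 ∧ ‖b.val‖ ≤ ‖χ b‖) (a : A) :
    ∃ (X A : Type) (_ : NormedAddCommGroup X) (_ : NormedSpace ℂ X) (_ : CompleteSpace X)
      (_ : NormedRing A) (_ : NormedAlgebra ℂ A) (_ : CompleteSpace A)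
      (ι : A →ₐ[ℂ] (X →L[ℂ] X)) (U : (X →L[ℂ] X)ˣ) (T : A →L[ℂ] A) (b : A),
      IsShiftSystem ι U T ∧
      IsMeagre {x : (⋂₀ {K : Set (WeakDual.characterSpace ℂ A) | IsClosedBoundary K} : Set _) |
        IsPeriodicChar T x.val} ∧
      spectrum ℂ U.val ⊆ Metric.sphere 0 1 ∧ (∀ c : A, IsUnit (ι c) → IsUnit c) ∧
      spectrum ℂ (ι b * U.val) = spectrum ℂ (lmul Y (a.val * u.val) * autOp γ hγ) := by
  have hc : CompleteSpace A := hA.completeSpace_coe
  let T : A →L[ℂ] A := LinearMap.mkContinuous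
    { toFun := fun b => ⟨γ b, hγA _ b.2⟩
      map_add' := fun b c => Subtype.ext (map_add γ b.val c.val)
      map_smul' := fun r b => Subtype.ext (map_smul γ r b.val) } 1
    (fun b => by
      change ‖γ b‖ ≤ 1 * ‖b.val‖
      rw [hγ, one_mul])
  have hT : ∀ b : A, (T b).val = γ b := fun b => rfl
  let U : (Y →L[ℂ] Y)ˣ := Units.map (lmul Y : Y →* (Y →L[ℂ] Y)) u * autUnit γ hγ
  have hU : U.val = lmul Y u.val * autOp γ hγ := rfl
  have hU' : U.inv = autOp γ.symm (symm_iso hγ) * lmul Y (u⁻¹).val := rfl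
  have m1 : ‖U.val‖ ≤ 1 := by
    rw [hU]
    exact (norm_mul_le _ _).trans (mul_le_one₀ ((norm_lmul h1 _).le.trans n1) (norm_nonneg _)
      (norm_autOp _ _))
  have m2 : ‖U.inv‖ ≤ 1 := by
    rw [hU']
    exact (norm_mul_le _ _).trans (mul_le_one₀ (norm_autOp _ _) (norm_nonneg _)
      ((norm_lmul h1 _).le.trans n2))
  refine ⟨Y, A, inferInstance, inferInstance, inferInstance, inferInstance, inferInstance, hc,
    (lmul Y).comp A.val, U, T, a, ⟨fun b => norm_lmul h1 b.val, mul_comm, fun b => hu b.val,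
      fun b => ContinuousLinearMap.ext fun y => ?_,
      fun c => ⟨⟨γ.symm c, hγA' _ c.2⟩, Subtype.ext (γ.apply_symm_apply c.val)⟩⟩, ?_, ?_, ?_, ?_⟩
  · change γ b * y = u.val * γ (b.val * γ.symm ((u⁻¹).val * y))
    rw [map_mul, γ.apply_symm_apply, mul_left_comm, Units.mul_inv_cancel_left]
  · refine IsMeagre.empty.mono ?_
    rintro ⟨χ, hχ⟩ ⟨n, hn, hp⟩
    exfalso
    have hnt : Nontrivial Y := by
      by_contra hs
      rw [not_nontrivial_iff_subsingleton] at hs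
      have h2 : (1 : A) = 0 := Subtype.ext (Subsingleton.elim _ _)
      have h3 := map_one χ
      rw [h2, map_zero] at h3
      exact zero_ne_one h3
    have h2 : ‖χ z‖ = 1 := by
      refine hχ {χ | ‖χ z‖ = 1} ⟨isClosed_eq (char_cont z).norm continuous_const, fun b => ?_⟩
      obtain ⟨ψ, p1, p2⟩ := hb hnt b
      refine ⟨WeakDual.CharacterSpace.equivAlgHom.symm (ψ.comp A.val), p1, fun ξ => le_trans ?_ p2⟩
      exact (AlgHom.norm_apply_le_self_mul_norm_one ξ b).trans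
        (mul_le_of_le_one_right (norm_nonneg _) h1)
    have h3 : ∀ m : ℕ, T^[m] z = α ^ m • z := fun m => by
      induction m with
      | zero => simp
      | succ m ih =>
        rw [Function.iterate_succ_apply', ih, map_smul, pow_succ, mul_smul]
        congr 1
        exact Subtype.ext hz
    have h4 := hp z
    rw [h3, map_smul, smul_eq_mul] at h4
    refine hα n hn ((mul_left_eq_self₀.1 h4).resolve_right fun h0 => ?_)
    rw [h0, norm_zero] at h2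
    exact zero_ne_one h2
  · intro μ hμ
    have o1 : ‖(1 : Y →L[ℂ] Y)‖ ≤ 1 := ContinuousLinearMap.norm_id_le
    have a1 : ‖μ‖ ≤ 1 :=
      (spectrum.norm_le_norm_mul_of_mem hμ).trans (mul_le_one₀ m1 (norm_nonneg _) o1)
    have h0 : μ ≠ 0 := by
      rintro rfl
      exact spectrum.zero_notMem ℂ U.isUnit hμ
    have a2 : ‖μ⁻¹‖ ≤ 1 := (spectrum.norm_le_norm_mul_of_mem (spectrum.inv₀_mem_inv hμ)).trans
      (mul_le_one₀ m2 (norm_nonneg _) o1)
    rw [norm_inv, inv_le_one₀ (norm_pos_iff.2 h0)] at a2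
    simpa using le_antisymm a1 a2
  · intro c hc
    obtain ⟨g, hg⟩ := lmul_inv (b := c.val) hc
    exact IsUnit.of_mul_eq_one ⟨g, hinv _ c.2 g hg⟩ (Subtype.ext hg)
  · rw [hU, map_mul, mul_assoc]
    rfl

/-- The rotation angle: `exp i`, not a root of unity. -/
noncomputable def alpha : ℂ := Complex.exp Complex.I

lemma norm_alpha : ‖alpha‖ = 1 := by
  have := Complex.norm_exp_ofReal_mul_I 1
  simpa [alpha] using this

lemma alpha_ne_zero : alpha ≠ 0 := Complex.exp_ne_zero _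

lemma alpha_pow_ne_one (n : ℕ) (hn : 0 < n) : alpha ^ n ≠ 1 := by
  intro h
  rw [alpha, ← Complex.exp_nat_mul, Complex.exp_eq_one_iff] at h
  obtain ⟨m, hm⟩ := h
  have h1 : (n : ℂ) = m * (2 * Real.pi) :=
    mul_right_cancel₀ Complex.I_ne_zero (hm.trans (by ring : _ = (m * (2 * Real.pi)) * Complex.I))
  have h2 : (n : ℝ) = m * (2 * Real.pi) := by exact_mod_cast h1
  have hm0 : m ≠ 0 := by
    rintro rfl
    simp at h2
    omega
  apply irrational_pi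
  refine ⟨(n : ℚ) / (2 * m), ?_⟩
  have : (m : ℝ) ≠ 0 := by exact_mod_cast hm0
  push_cast
  rw [h2]
  field_simp

/-- The compact space: discs over the frontier of `H`, glued to `H` along their centres. -/
def Sp (H : Set ℂ) : Set (ℂ × ℂ) :=
  {p | (p.1 ∈ frontier H ∧ ‖p.2‖ ≤ 1) ∨ (p.1 ∈ H ∧ p.2 = 0)}

/-- Continuous, holomorphic in `s` inside `H`, holomorphic in `z` over the frontier. -/
structure Gd (H : Set ℂ) (F : ℂ × ℂ → ℂ) : Prop where
  cont : ContinuousOn F (Sp H)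
  hs : DifferentiableOn ℂ (fun s => F (s, 0)) (interior H)
  hz : ∀ s ∈ frontier H, DifferentiableOn ℂ (fun z => F (s, z)) (ball 0 1)

variable {H : Set ℂ}

lemma mem_s {s : ℂ} (h : s ∈ interior H) : (s, (0 : ℂ)) ∈ Sp H := Or.inr ⟨interior_subset h, rfl⟩

lemma mem_z {s z : ℂ} (h : s ∈ frontier H) (hz : z ∈ ball (0 : ℂ) 1) : (s, z) ∈ Sp H :=
  Or.inl ⟨h, (mem_ball_zero_iff.1 hz).le⟩

lemma Gd.exists_max {F : ℂ × ℂ → ℂ} (hF : Gd H F) (hH : IsCompact H) (hne : H.Nonempty) :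
    ∃ q ∈ Sp H, ‖q.2‖ = 1 ∧ ∀ p ∈ Sp H, ‖F p‖ ≤ ‖F q‖ := by
  have hsub : frontier H ×ˢ sphere (0 : ℂ) 1 ⊆ Sp H := fun p hp =>
    Or.inl ⟨hp.1, (mem_sphere_zero_iff_norm.1 hp.2).le⟩
  obtain ⟨q, hq, hmax⟩ := ((hH.of_isClosed_subset isClosed_frontier
    hH.isClosed.frontier_subset).prod (isCompact_sphere (0 : ℂ) 1)).exists_isMaxOn
    ((nonempty_frontier_iff.2 ⟨hne, hH.ne_univ⟩).prod ⟨1, by simp⟩) (hF.cont.mono hsub).norm
  refine ⟨q, hsub hq, mem_sphere_zero_iff_norm.1 hq.2, ?_⟩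
  have h1 : ∀ s z : ℂ, s ∈ frontier H → ‖z‖ ≤ 1 → ‖F (s, z)‖ ≤ ‖F q‖ := by
    intro s z hs hz
    have h2 : ContinuousOn (fun z : ℂ => ((s, z) : ℂ × ℂ)) (closure (ball 0 1)) := by fun_prop
    refine Complex.norm_le_of_forall_mem_frontier_norm_le (f := fun z => F (s, z)) isBounded_ball
      ⟨hF.hz s hs, hF.cont.comp h2 fun z hz => Or.inl ⟨hs, ?_⟩⟩ (fun y hy => ?_) (z := z) ?_
    · simpa using closure_ball_subset_closedBall hz
    · rw [frontier_ball _ one_ne_zero] at hy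
      exact hmax (a := (s, y)) ⟨hs, hy⟩
    · rw [closure_ball _ one_ne_zero]
      simpa using hz
  rintro ⟨s, z⟩ (h | ⟨hs, hz⟩)
  · exact h1 s z h.1 h.2
  · dsimp only at hs hz
    subst hz
    by_cases h : s ∈ interior H
    · have h2 : ContinuousOn (fun s : ℂ => ((s, 0) : ℂ × ℂ)) (closure (interior H)) := by fun_prop
      exact Complex.norm_le_of_forall_mem_frontier_norm_le (f := fun s => F (s, 0))
        (hH.isBounded.subset interior_subset)
        ⟨hF.hs, hF.cont.comp h2 fun s hs =>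
          Or.inr ⟨closure_minimal interior_subset hH.isClosed hs, rfl⟩⟩
        (fun y hy => h1 y 0 (frontier_interior_subset hy) (by simp)) (subset_closure h)
    · exact h1 s 0 ⟨subset_closure hs, h⟩ (by simp)

lemma rot_mem {β : ℂ} (hβ : ‖β‖ = 1) {p : ℂ × ℂ} (hp : p ∈ Sp H) : (p.1, β * p.2) ∈ Sp H := by
  rcases hp with h | h
  · exact Or.inl ⟨h.1, by simpa [hβ] using h.2⟩
  · exact Or.inr ⟨h.1, by simp [h.2]⟩

lemma Gd.rot {F : ℂ × ℂ → ℂ} (hF : Gd H F) {β : ℂ} (hβ : ‖β‖ = 1) :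
    Gd H (fun p => F (p.1, β * p.2)) := by
  refine ⟨?_, by simpa using hF.hs, fun s hs => ?_⟩
  · have h1 : ContinuousOn (fun p : ℂ × ℂ => (p.1, β * p.2)) (Sp H) := by fun_prop
    exact hF.cont.comp h1 (fun p hp => rot_mem hβ hp)
  · have h2 : DifferentiableOn ℂ (fun z : ℂ => β * z) (ball 0 1) := by fun_prop
    exact (hF.hz s hs).comp h2 (fun z hz => by simpa [hβ] using hz)

/-- Points of the space, with the discrete topology. -/
@[ext] structure Pt (H : Set ℂ) where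
  co : ℂ × ℂ
  mem : co ∈ Sp H

instance : TopologicalSpace (Pt H) := ⊥
instance : DiscreteTopology (Pt H) := ⟨rfl⟩

/-- Rotation of the discs. -/
def phi {β : ℂ} (hβ : ‖β‖ = 1) (k : Pt H) : Pt H := ⟨(k.co.1, β * k.co.2), rot_mem hβ k.mem⟩

lemma norm_alpha_inv : ‖alpha⁻¹‖ = 1 := by simp [norm_alpha]

lemma phi_psi (k : Pt H) : phi norm_alpha (phi norm_alpha_inv k) = k := by
  ext <;> simp [phi, alpha_ne_zero]

lemma psi_phi (k : Pt H) : phi norm_alpha_inv (phi norm_alpha k) = k := by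
  ext <;> simp [phi, alpha_ne_zero]

lemma phi_fix {β : ℂ} (hβ : ‖β‖ = 1) {k : Pt H} (h : k.co.2 = 0) : phi hβ k = k := by
  ext <;> simp [phi, h]

variable (H) in
/-- Composition with the rotation. -/
noncomputable def gam : (Pt H →ᵇ ℂ) ≃ₐ[ℂ] (Pt H →ᵇ ℂ) where
  toFun g := g.compContinuous ⟨phi norm_alpha, continuous_of_discreteTopology⟩
  invFun g := g.compContinuous ⟨phi norm_alpha_inv, continuous_of_discreteTopology⟩
  left_inv g := BoundedContinuousFunction.ext fun k => congrArg g (phi_psi k)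
  right_inv g := BoundedContinuousFunction.ext fun k => congrArg g (psi_phi k)
  map_mul' _ _ := BoundedContinuousFunction.ext fun _ => rfl
  map_add' _ _ := BoundedContinuousFunction.ext fun _ => rfl
  commutes' _ := BoundedContinuousFunction.ext fun _ => rfl

lemma gam_apply (g : Pt H →ᵇ ℂ) (k : Pt H) : gam H g k = g (phi norm_alpha k) := rfl

lemma gam_symm_apply (g : Pt H →ᵇ ℂ) (k : Pt H) :
    (gam H).symm g k = g (phi norm_alpha_inv k) := rfl

lemma norm_gam (g : Pt H →ᵇ ℂ) : ‖gam H g‖ = ‖g‖ := by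
  refine le_antisymm ((BoundedContinuousFunction.norm_le (norm_nonneg _)).2 fun k =>
    g.norm_coe_le_norm _) ((BoundedContinuousFunction.norm_le (norm_nonneg _)).2 fun k => ?_)
  rw [← phi_psi k]
  exact (gam H g).norm_coe_le_norm _

variable (H) in
/-- The function algebra. -/
def Alg : Subalgebra ℂ (Pt H →ᵇ ℂ) where
  carrier := {f | ∃ F, Gd H F ∧ ∀ k, f k = F k.co}
  mul_mem' := by
    rintro f g ⟨F, hF, hf⟩ ⟨G, hG, hg⟩
    exact ⟨fun p => F p * G p, ⟨hF.cont.mul hG.cont, hF.hs.mul hG.hs,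
      fun s hs => (hF.hz s hs).mul (hG.hz s hs)⟩, fun k => by simp [hf, hg]⟩
  add_mem' := by
    rintro f g ⟨F, hF, hf⟩ ⟨G, hG, hg⟩
    exact ⟨fun p => F p + G p, ⟨hF.cont.add hG.cont, hF.hs.add hG.hs,
      fun s hs => (hF.hz s hs).add (hG.hz s hs)⟩, fun k => by simp [hf, hg]⟩
  algebraMap_mem' c := ⟨fun _ => c, ⟨continuousOn_const, differentiableOn_const _,
    fun _ _ => differentiableOn_const _⟩, fun k => by simp⟩

open Classical in
lemma isClosed_Alg : IsClosed (Alg H : Set (Pt H →ᵇ ℂ)) := by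
  apply IsSeqClosed.isClosed
  intro x f hx hlim
  choose F hF hFx using hx
  have h : TendstoUniformlyOn F (fun p => if h : p ∈ Sp H then f ⟨p, h⟩ else 0) atTop (Sp H) := by
    rw [Metric.tendstoUniformlyOn_iff]
    intro ε hε
    filter_upwards [Metric.tendsto_nhds.1 hlim ε hε] with n hn p hp
    rw [dif_pos hp, ← hFx n ⟨p, hp⟩, dist_comm]
    exact lt_of_le_of_lt (BoundedContinuousFunction.dist_coe_le_dist _) hn
  refine ⟨_, ⟨h.continuousOn (Frequently.of_forall fun n => (hF n).cont), ?_, fun s hs => ?_⟩,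
    fun k => by rw [dif_pos k.mem]⟩
  · exact ((h.comp (fun s : ℂ => ((s, 0) : ℂ × ℂ))).mono
      (fun s hs => mem_s hs)).tendstoLocallyUniformlyOn.differentiableOn
      (Eventually.of_forall fun n => (hF n).hs) isOpen_interior
  · exact ((h.comp (fun z : ℂ => ((s, z) : ℂ × ℂ))).mono
      (fun z hz => mem_z hs hz)).tendstoLocallyUniformlyOn.differentiableOn
      (Eventually.of_forall fun n => (hF n).hz s hs) isOpen_ball

lemma inv_mem_Alg (f : Pt H →ᵇ ℂ) (hf : f ∈ Alg H) (g : Pt H →ᵇ ℂ) (hfg : f * g = 1) :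
    g ∈ Alg H := by
  obtain ⟨F, hF, h⟩ := hf
  have h1 : ∀ k, F k.co * g k = 1 := fun k => by
    rw [← h]
    exact congrArg (fun u : Pt H →ᵇ ℂ => u k) hfg
  have h0 : ∀ p ∈ Sp H, F p ≠ 0 := fun p hp => left_ne_zero_of_mul_eq_one (h1 ⟨p, hp⟩)
  exact ⟨fun p => (F p)⁻¹, ⟨hF.cont.inv₀ h0, hF.hs.inv fun s hs => h0 _ (mem_s hs),
    fun s hs => (hF.hz s hs).inv fun z hz => h0 _ (mem_z hs hz)⟩,
    fun k => eq_inv_of_mul_eq_one_right (h1 k)⟩

lemma norm_mul_self' (f : Pt H →ᵇ ℂ) : ‖f * f‖ = ‖f‖ ^ 2 := by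
  apply le_antisymm
  · rw [sq]; exact norm_mul_le f f
  · have h : ‖f‖ ≤ Real.sqrt ‖f * f‖ := by
      refine (BoundedContinuousFunction.norm_le (Real.sqrt_nonneg _)).2 fun k => ?_
      apply Real.le_sqrt_of_sq_le
      have := (f * f).norm_coe_le_norm k
      simpa [sq] using this
    calc ‖f‖ ^ 2 ≤ (Real.sqrt ‖f * f‖) ^ 2 := by gcongr
      _ = ‖f * f‖ := Real.sq_sqrt (norm_nonneg _)

/-- A bounded function from a bound. -/
noncomputable def mkY (f : Pt H → ℂ) (C : ℝ) (h : ∀ k, ‖f k‖ ≤ C) : Pt H →ᵇ ℂ :=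
  BoundedContinuousFunction.ofNormedAddCommGroupDiscrete f C h

lemma mkY_apply (f : Pt H → ℂ) (C : ℝ) (h : ∀ k, ‖f k‖ ≤ C) (k : Pt H) : mkY f C h k = f k := rfl

open Classical in
/-- The resolvent of a twisted weighted rotation. -/
lemma isUnit_res (σ : Pt H →ᵇ ℂ) (hσ : ∀ k, σ (phi norm_alpha k) = σ k) (μ : ℂ) {δ : ℝ}
    (hδ : 0 < δ) (h0 : ∀ k : Pt H, k.co.2 = 0 → δ ≤ ‖μ - σ k‖)
    (h1 : ∀ k : Pt H, k.co.2 ≠ 0 → ‖σ k‖ + δ ≤ ‖μ‖ ∨ ‖μ‖ + δ ≤ ‖σ k‖) :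
    IsUnit (algebraMap ℂ _ μ - lmul (Pt H →ᵇ ℂ) σ * autOp (gam H) norm_gam) := by
  have hσ' : ∀ k, σ (phi norm_alpha_inv k) = σ k := fun k => by rw [← hσ, phi_psi]
  have hz : ∀ k : Pt H, (phi norm_alpha k).co.2 = 0 ↔ k.co.2 = 0 := fun k => by
    simp [phi, alpha_ne_zero]
  have hinv : ∀ x : ℂ, δ ≤ ‖x‖ → ‖x⁻¹‖ ≤ δ⁻¹ := fun x hx => by
    rw [norm_inv]; exact inv_anti₀ hδ hx
  let p : Pt H →ᵇ ℂ := mkY (fun k => if k.co.2 = 0 then (μ - σ k)⁻¹ else
      if ‖σ k‖ + δ ≤ ‖μ‖ then μ⁻¹ else 0) δ⁻¹ fun k => by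
    split_ifs with a b
    · exact hinv _ (h0 k a)
    · exact hinv _ (by linarith [norm_nonneg (σ k)])
    · simpa using hδ.le
  let r : Pt H →ᵇ ℂ := mkY (fun k => if k.co.2 = 0 then 0 else
      if ‖σ k‖ + δ ≤ ‖μ‖ then 0 else (σ k)⁻¹) δ⁻¹ fun k => by
    split_ifs with a b
    · simpa using hδ.le
    · simpa using hδ.le
    · exact hinv _ (by linarith [norm_nonneg μ, (h1 k a).resolve_left b])
  have hp : ∀ k, p k = if k.co.2 = 0 then (μ - σ k)⁻¹ else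
      if ‖σ k‖ + δ ≤ ‖μ‖ then μ⁻¹ else 0 := fun k => rfl
  have hr : ∀ k, r k = if k.co.2 = 0 then 0 else
      if ‖σ k‖ + δ ≤ ‖μ‖ then 0 else (σ k)⁻¹ := fun k => rfl
  have hp' : ∀ k, p (phi norm_alpha k) = p k := fun k => by simp only [hp, hz, hσ]
  have hr' : ∀ k, r (phi norm_alpha k) = r k := fun k => by simp only [hr, hz, hσ]
  set S := lmul (Pt H →ᵇ ℂ) σ * autOp (gam H) norm_gam with hS
  set Q := lmul (Pt H →ᵇ ℂ) p - lmul (Pt H →ᵇ ℂ) r * autOp (gam H).symm (symm_iso norm_gam) with hQ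
  have eS : ∀ g k, S g k = σ k * g (phi norm_alpha k) := fun g k => rfl
  have eQ : ∀ g k, Q g k = p k * g k - r k * g (phi norm_alpha_inv k) := fun g k => rfl
  have hc : Commute S Q := by
    refine ContinuousLinearMap.ext fun g => BoundedContinuousFunction.ext fun k => ?_
    change S (Q g) k = Q (S g) k
    simp only [eS, eQ, hp', hr', hσ', phi_psi, psi_phi]
    ring
  have hκ : ‖μ‖ / (‖μ‖ + δ) < 1 := by
    rw [div_lt_one (by positivity)]; linarith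
  have hN : ‖1 - (algebraMap ℂ _ μ - S) * Q‖ ≤ ‖μ‖ / (‖μ‖ + δ) := by
    refine ContinuousLinearMap.opNorm_le_bound _ (by positivity) fun g =>
      (BoundedContinuousFunction.norm_le (by positivity)).2 fun k => ?_
    have e : ((1 - (algebraMap ℂ _ μ - S) * Q) g) k = g k - (μ * Q g k - S (Q g) k) := rfl
    rw [e]
    simp only [eS, eQ, hp', hr', psi_phi]
    rw [hp, hr]
    split_ifs with a b
    · have h2 : μ - σ k ≠ 0 := norm_pos_iff.1 (lt_of_lt_of_le hδ (h0 k a))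
      rw [phi_fix norm_alpha a]
      have : g k - (μ * ((μ - σ k)⁻¹ * g k - 0 * g (phi norm_alpha_inv k)) -
          σ k * ((μ - σ k)⁻¹ * g k - 0 * g k)) = 0 := by
        field_simp
        ring
      rw [this, norm_zero]
      positivity
    · have h3 : 0 < ‖μ‖ := by linarith [norm_nonneg (σ k)]
      have h2 : μ ≠ 0 := norm_pos_iff.1 h3
      have : g k - (μ * (μ⁻¹ * g k - 0 * g (phi norm_alpha_inv k)) -
          σ k * (μ⁻¹ * g (phi norm_alpha k) - 0 * g k)) = σ k / μ * g (phi norm_alpha k) := by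
        field_simp
        ring
      rw [this, norm_mul, norm_div]
      refine mul_le_mul ?_ (g.norm_coe_le_norm _) (norm_nonneg _) (by positivity)
      rw [div_le_div_iff₀ h3 (by positivity)]
      nlinarith [norm_nonneg (σ k)]
    · have h4 := (h1 k a).resolve_left b
      have h3 : 0 < ‖σ k‖ := by linarith [norm_nonneg μ]
      have h2 : σ k ≠ 0 := norm_pos_iff.1 h3
      have : g k - (μ * (0 * g k - (σ k)⁻¹ * g (phi norm_alpha_inv k)) -
          σ k * (0 * g (phi norm_alpha k) - (σ k)⁻¹ * g k)) =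
          μ / σ k * g (phi norm_alpha_inv k) := by
        field_simp
        ring
      rw [this, norm_mul, norm_div]
      refine mul_le_mul ?_ (g.norm_coe_le_norm _) (norm_nonneg _) (by positivity)
      gcongr
  have hu := (Units.oneSub _ (lt_of_le_of_lt hN hκ)).isUnit
  rw [Units.val_oneSub, sub_sub_cancel] at hu
  exact ((Commute.isUnit_mul_iff
    (Commute.sub_left (Algebra.commute_algebraMap_left _ _) hc)).1 hu).1

lemma hull_compact {S : Set ℂ} (hS : IsCompact S) : IsCompact {μ : ℂ | ∃ ν ∈ S, ‖ν‖ = ‖μ‖} := by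
  obtain ⟨R, hR⟩ := hS.isBounded.exists_norm_le
  refine isCompact_of_isClosed_isBounded
    ((hS.image continuous_norm).isClosed.preimage continuous_norm)
    (isBounded_iff_forall_norm_le.2 ⟨R, ?_⟩)
  rintro μ ⟨ν, hν, he⟩
  exact he ▸ hR ν hν

lemma frontier_rot {S : Set ℂ} {s μ : ℂ} (hs : s ∈ frontier {μ : ℂ | ∃ ν ∈ S, ‖ν‖ = ‖μ‖})
    (he : ‖s‖ = ‖μ‖) : μ ∈ frontier {μ : ℂ | ∃ ν ∈ S, ‖ν‖ = ‖μ‖} := by
  rcases eq_or_ne μ 0 with rfl | hμ
  · rw [norm_zero, norm_eq_zero] at he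
    exact he ▸ hs
  have hs0 : s / μ ≠ 0 := div_ne_zero (norm_ne_zero_iff.1 (he ▸ norm_ne_zero_iff.2 hμ)) hμ
  have h1 : Homeomorph.mulLeft₀ (s / μ) hs0 ⁻¹' {μ : ℂ | ∃ ν ∈ S, ‖ν‖ = ‖μ‖} =
      {μ : ℂ | ∃ ν ∈ S, ‖ν‖ = ‖μ‖} := by
    ext x
    simp [he, hμ]
  rw [← h1, ← Homeomorph.preimage_frontier]
  simpa [hμ] using hs

theorem sufficiency {S : Set ℂ} (hS : IsCompact S)
    (hf : frontier {μ : ℂ | ∃ ν ∈ S, ‖ν‖ = ‖μ‖} ⊆ S) :
    ∃ (X A : Type) (_ : NormedAddCommGroup X) (_ : NormedSpace ℂ X) (_ : CompleteSpace X)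
      (_ : NormedRing A) (_ : NormedAlgebra ℂ A) (_ : CompleteSpace A)
      (ι : A →ₐ[ℂ] (X →L[ℂ] X)) (U : (X →L[ℂ] X)ˣ) (T : A →L[ℂ] A) (b : A),
      IsShiftSystem ι U T ∧
      IsMeagre {x : (⋂₀ {K : Set (WeakDual.characterSpace ℂ A) | IsClosedBoundary K} : Set _) |
        IsPeriodicChar T x.val} ∧
      spectrum ℂ U.val ⊆ Metric.sphere 0 1 ∧ (∀ c : A, IsUnit (ι c) → IsUnit c) ∧
      spectrum ℂ (ι b * U.val) = S := by
  have hH := hull_compact hS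
  have hrot := fun s μ => frontier_rot (S := S) (s := s) (μ := μ)
  have hw : ∀ s : ℂ, ∃ w : ℂ, ‖w‖ = 1 ∧ (s ∈ S → w = 1) ∧
      (s ∈ {μ : ℂ | ∃ ν ∈ S, ‖ν‖ = ‖μ‖} → s * w ∈ S) := by
    intro s
    by_cases h : s ∈ S
    · exact ⟨1, norm_one, fun _ => rfl, fun _ => by rwa [mul_one]⟩
    by_cases h' : s ∈ {μ : ℂ | ∃ ν ∈ S, ‖ν‖ = ‖μ‖}
    · obtain ⟨ν, hν, he⟩ := h'
      have h0 : s ≠ 0 := by
        rintro rfl
        rw [norm_zero, norm_eq_zero] at he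
        exact h (he ▸ hν)
      exact ⟨ν / s, by rw [norm_div, he, div_self (norm_ne_zero_iff.2 h0)], fun h2 => absurd h2 h,
        fun _ => by rwa [mul_div_cancel₀ _ h0]⟩
    · exact ⟨1, norm_one, fun _ => rfl, fun h2 => absurd h2 h'⟩
  have hsub : S ⊆ {μ : ℂ | ∃ ν ∈ S, ‖ν‖ = ‖μ‖} := fun ν hν => ⟨ν, hν, rfl⟩
  generalize {μ : ℂ | ∃ ν ∈ S, ‖ν‖ = ‖μ‖} = H at hf hH hrot hw hsub
  choose w w1 w2 w3 using hw
  have hm : ∀ k : Pt H, k.co.1 ∈ H := fun k =>
    k.mem.elim (fun h => hH.isClosed.frontier_subset h.1) fun h => h.1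
  obtain ⟨R, hR⟩ := hH.isBounded.exists_norm_le
  have w0 : ∀ s, w s ≠ 0 := fun s => norm_ne_zero_iff.1 (by rw [w1]; exact one_ne_zero)
  let u : (Pt H →ᵇ ℂ)ˣ := ⟨mkY (fun k => w k.co.1) 1 fun k => (w1 _).le,
    mkY (fun k => (w k.co.1)⁻¹) 1 fun k => by simp [w1],
    BoundedContinuousFunction.ext fun k => mul_inv_cancel₀ (w0 _),
    BoundedContinuousFunction.ext fun k => inv_mul_cancel₀ (w0 _)⟩
  let z : Alg H := ⟨mkY (fun k => k.co.2) 1 fun k => k.mem.elim (fun h => h.2) fun h => by simp [h.2],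
    fun p => p.2, ⟨by fun_prop, by fun_prop, fun _ _ => by fun_prop⟩, fun _ => rfl⟩
  let a : Alg H := ⟨mkY (fun k => k.co.1) R fun k => hR _ (hm k),
    fun p => p.1, ⟨by fun_prop, by fun_prop, fun _ _ => by fun_prop⟩, fun _ => rfl⟩
  have key := realise (Y := Pt H →ᵇ ℂ)
    ((BoundedContinuousFunction.norm_le zero_le_one).2 fun k => by simp) norm_mul_self' (Alg H)
    isClosed_Alg inv_mem_Alg (gam H) norm_gam
    (fun f ⟨F, hF, h⟩ => ⟨_, hF.rot norm_alpha, fun k => h _⟩)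
    (fun f ⟨F, hF, h⟩ => ⟨_, hF.rot norm_alpha_inv, fun k => h _⟩) u
    ((BoundedContinuousFunction.norm_le zero_le_one).2 fun k => (w1 _).le)
    ((BoundedContinuousFunction.norm_le zero_le_one).2 fun k => by
      change ‖(w k.co.1)⁻¹‖ ≤ 1
      simp [w1])
    z alpha (BoundedContinuousFunction.ext fun k => rfl) alpha_pow_ne_one
    (by
      rintro ⟨f, g, hfg⟩ ⟨b, F, hF, h⟩
      obtain ⟨k, -⟩ : ∃ k, f k ≠ g k := by
        by_contra hc
        push Not at hc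
        exact hfg (BoundedContinuousFunction.ext hc)
      obtain ⟨q, hq, q1, q2⟩ := hF.exists_max hH ⟨_, hm k⟩
      refine ⟨⟨⟨⟨⟨fun y => y ⟨q, hq⟩, rfl⟩, fun _ _ => rfl⟩, rfl, fun _ _ => rfl⟩, fun _ => rfl⟩,
        q1, (BoundedContinuousFunction.norm_le (norm_nonneg _)).2 fun j => ?_⟩
      change ‖b j‖ ≤ ‖b ⟨q, hq⟩‖
      rw [h, h]
      exact q2 _ j.mem) a
  suffices hs : spectrum ℂ (lmul (Pt H →ᵇ ℂ) (a.val * u.val) * autOp (gam H) norm_gam) = S by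
    rwa [hs] at key
  have eσ : ∀ k : Pt H, (a.val * u.val) k = k.co.1 * w k.co.1 := fun k => rfl
  ext μ
  rw [spectrum.mem_iff]
  constructor
  · intro hμ
    by_contra hc
    apply hμ
    obtain ⟨δ, hδ, d1⟩ := Metric.isOpen_iff.1 hS.isClosed.isOpen_compl μ hc
    have hK : IsCompact ((fun s : ℂ => ‖s‖) '' frontier H) :=
      (hH.of_isClosed_subset isClosed_frontier hH.isClosed.frontier_subset).image continuous_norm
    obtain ⟨η, hη, d2⟩ := Metric.isOpen_iff.1 hK.isClosed.isOpen_compl ‖μ‖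
      (fun ⟨s, hs, he⟩ => hc (hf (hrot s μ hs he)))
    refine isUnit_res _ (fun k => rfl) μ (lt_min hδ hη) (fun k _ => ?_) (fun k hk => ?_)
    · by_contra h
      refine d1 (a := k.co.1 * w k.co.1) ?_ (w3 _ (hm k))
      rw [mem_ball, dist_comm, dist_eq_norm, ← eσ]
      exact lt_of_lt_of_le (not_le.1 h) (min_le_left _ _)
    · have h2 : k.co.1 ∈ frontier H := (k.mem.resolve_right fun h => hk h.2).1
      have h3 : ¬ dist ‖k.co.1‖ ‖μ‖ < η := fun h => d2 (mem_ball.2 h) ⟨_, h2, rfl⟩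
      rw [eσ, norm_mul, w1, mul_one]
      rw [Real.dist_eq, not_lt, le_abs] at h3
      have h4 := min_le_right δ η
      rcases h3 with h | h
      · right; linarith
      · left; linarith
  · rintro hμ ⟨v, hv⟩
    have h1 : (v.val * v.inv) 1 = 1 := by rw [v.val_inv]; rfl
    rw [hv] at h1
    let k : Pt H := ⟨(μ, 0), Or.inr ⟨hsub hμ, rfl⟩⟩
    have h2 : μ * v.inv 1 k - μ * w μ * v.inv 1 (phi norm_alpha k) = 1 :=
      congrArg (fun y : Pt H →ᵇ ℂ => y k) h1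
    rw [phi_fix _ rfl, w2 μ hμ, mul_one, sub_self] at h2
    exact zero_ne_one h2

end Pool.Agent.MP_4998f1_an.Cls
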