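import Mathlib
import Pool.Agent.MP_4998f1_an.OwnDefs

set_option autoImplicit false

namespace Pool.Agent.MP_4998f1_an

variable {X A : Type} [NormedAddCommGroup X] [NormedSpace ℂ X] [NormedRing A] [NormedAlgebra ℂ A]

/-- Condition 1: the periodic characters are meagre in the Shilov boundary, the intersection of
all closed boundaries. -/
def PeriodicMeagre (T : A →L[ℂ] A) : Prop :=
  IsMeagre {x : (⋂₀ {K : Set (WeakDual.characterSpace ℂ A) | IsClosedBoundary K} : Set _) |
    IsPeriodicChar T x.val}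

variable (X A) in
/-- `A` acts on `X` as a uniform algebra of operators with a shift-type operator `U` satisfying
conditions 1, 2 and 3, and for some weight `a` the spectrum of `a U` on `X` is `S` and the
spectrum of `b ↦ a * T b` on `A` is `S'`. -/
def HasSpectra (S S' : Set ℂ) : Prop :=
  ∃ (ι : A →ₐ[ℂ] (X →L[ℂ] X)) (U : (X →L[ℂ] X)ˣ) (T : A →L[ℂ] A) (a : A),
    IsShiftSystem ι U T ∧ PeriodicMeagre T ∧ spectrum ℂ U.val ⊆ Metric.sphere 0 1 ∧
    (∀ b : A, IsUnit (ι b) → IsUnit b) ∧ spectrum ℂ (ι a * U.val) = S ∧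
    spectrum ℂ ((ContinuousLinearMap.mul ℂ A a).comp T) = S'

end Pool.Agent.MP_4998f1_an
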